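import Pool.Agent.Lib.MP_361a6f_ag.FL.E.BR.Defs
import Pool.Agent.Lib.MP_361a6f_ag.FL.E.H5

/-!
# Theorem BR, row R5: the assembly of rows R1 and R4

`zen S A0` is commutative and closed under `*`, so it is diagonalised by a unitary matrix `U`, and
`diag k` stays diagonal. The letters that are connected with a row of `N` or `N*` span a stable
subspace that contains the images of `N` and `N*`, so all letters are connected with letters of
weight zero (row R4), and row R1 gives the product of `k` over a word of weight zero.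
-/

set_option autoImplicit false
set_option linter.unusedSectionVars false

open Matrix Module

namespace Pool.Agent.Lib.MP_361a6f_ag.FL.E.BR.B5

open P5e

section

variable {I : Type} [Fintype I] [DecidableEq I] {S : Submodule ℂ (Matrix I I ℂ)}
  {A0 : Matrix I I ℂ}

theorem zen_self (hA : A0 ∈ S) : A0 ∈ zen S A0 := ⟨hA, rfl, fun _ _ h => h.symm⟩

theorem zen_comm {x y : Matrix I I ℂ} (hx : x ∈ zen S A0) (hy : y ∈ zen S A0) :
    x * y = y * x := hx.2.2 y hy.1 hy.2.1

theorem zen_add {x y : Matrix I I ℂ} (hx : x ∈ zen S A0) (hy : y ∈ zen S A0) :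
    x + y ∈ zen S A0 := by
  refine ⟨S.add_mem hx.1 hy.1, ?_, fun A hA hAA => ?_⟩
  · rw [add_mul, mul_add, hx.2.1, hy.2.1]
  · rw [add_mul, mul_add, hx.2.2 A hA hAA, hy.2.2 A hA hAA]

theorem zen_smul {x : Matrix I I ℂ} (c : ℂ) (hx : x ∈ zen S A0) : c • x ∈ zen S A0 := by
  refine ⟨S.smul_mem c hx.1, ?_, fun A hA hAA => ?_⟩
  · rw [smul_mul_assoc, mul_smul_comm, hx.2.1]
  · rw [smul_mul_assoc, mul_smul_comm, hx.2.2 A hA hAA]

theorem zen_star (hS : LieStar S) (hA : A0ᴴ = A0) {x : Matrix I I ℂ} (hx : x ∈ zen S A0) :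
    xᴴ ∈ zen S A0 := by
  refine ⟨hS.star x hx.1, ?_, fun A hA' hAA => ?_⟩
  · have h1 := congrArg conjTranspose hx.2.1
    rw [conjTranspose_mul, conjTranspose_mul, hA] at h1
    exact h1.symm
  · have h0 : Aᴴ * A0 = A0 * Aᴴ := by
      have h1 := congrArg conjTranspose hAA
      rw [conjTranspose_mul, conjTranspose_mul, hA] at h1
      exact h1.symm
    have h1 := congrArg conjTranspose (hx.2.2 Aᴴ (hS.star A hA') h0)
    rw [conjTranspose_mul, conjTranspose_mul, conjTranspose_conjTranspose] at h1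
    exact h1.symm

end

/-- Row R5 from rows R1 and R4. -/
theorem b5 : R1Statement → R4Statement → R5Statement := by
  intro r1 r4 I _ _ S E P hlie hstar hE hSP hP a hreal ha k hnorm hak hEk hkP had hiso N hN hNN
    haN hnst
  classical
  have a1 : Alg1 := alg1
  have hS : LieStar S := ⟨hlie, hstar⟩
  have hk : ∀ i, k i ≠ 0 := by
    intro i h0
    have h1 := hnorm i
    rw [h0, norm_zero] at h1
    exact zero_ne_one h1
  have hAH : (diagonal a)ᴴ = diagonal a := by
    rw [diagonal_conjTranspose]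
    congr 1
    funext i
    exact hreal i
  obtain ⟨hz, hgen⟩ := r4 S E P hS hE hSP hP (diagonal a) ha hAH hiso N hN hNN haN hnst
  obtain ⟨U, hU1, hU2, hd⟩ := joint_diag {A | A ∈ zen S (diagonal a) ∧ Aᴴ = A}
    (fun A hA => hA.2) (fun A hA B hB => zen_comm hA.1 hB.1)
  -- all of `zen` is diagonalised
  have hdt : ∀ A ∈ zen S (diagonal a), ∃ d : I → ℂ, A * U = U * diagonal d := by
    intro A hA
    have hA' := zen_star hS hAH hA
    have hneg : -Aᴴ ∈ zen S (diagonal a) := by
      have h1 := zen_smul (-1) hA'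
      rwa [neg_smul, one_smul] at h1
    obtain ⟨d1, hd1⟩ := hd (A + Aᴴ) ⟨zen_add hA hA', by
      rw [conjTranspose_add, conjTranspose_conjTranspose, add_comm]⟩
    obtain ⟨d2, hd2⟩ := hd (Complex.I • (A + -Aᴴ))
      ⟨zen_smul _ (zen_add hA hneg), by
        rw [conjTranspose_smul, conjTranspose_add, conjTranspose_neg,
          conjTranspose_conjTranspose, Complex.star_def, Complex.conj_I, neg_smul, ← smul_neg,
          neg_add, neg_neg, add_comm]⟩
    refine ⟨fun i => (1 / 2 : ℂ) * (d1 i + (-Complex.I) * d2 i), ?_⟩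
    have h3 : A = (1 / 2 : ℂ) • ((A + Aᴴ) + (-Complex.I) • (Complex.I • (A + -Aᴴ))) := by
      rw [smul_smul, neg_mul, Complex.I_mul_I, neg_neg, one_smul, ← sub_eq_add_neg,
        add_add_sub_cancel, ← two_smul ℂ A, smul_smul]
      norm_num
    rw [h3, smul_mul_assoc, add_mul, smul_mul_assoc (-Complex.I), hd1, hd2]
    ext i j
    simp only [Matrix.smul_apply, Matrix.add_apply, Matrix.mul_diagonal, smul_eq_mul]
    ring
  obtain ⟨a', ha'⟩ := hdt _ (zen_self ha)
  have hcol : ∀ j, ∃ i, U i j ≠ 0 := by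
    intro j
    by_contra hc
    push Not at hc
    have h1 := congrFun (congrFun hU1 j) j
    rw [Matrix.mul_apply, Matrix.one_apply_eq] at h1
    simp [hc] at h1
  choose r hr using hcol
  have hent : ∀ i j, U i j ≠ 0 → a i = a' j := by
    intro i j hij
    have h1 := congrFun (congrFun ha' i) j
    rw [Matrix.diagonal_mul, Matrix.mul_diagonal, mul_comm] at h1
    exact mul_left_cancel₀ hij h1
  set κ : I → ℂ := fun j => k (r j) with hκdef
  have hκe : ∀ i j, U i j ≠ 0 → k i = κ j := fun i j hij =>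
    hak i (r j) ((hent i j hij).trans (hent (r j) j (hr j)).symm)
  have hκ : diagonal k * U = U * diagonal κ := by
    ext i j
    rw [Matrix.diagonal_mul, Matrix.mul_diagonal]
    by_cases h0 : U i j = 0
    · simp [h0]
    · rw [hκe i j h0, mul_comm]
  have hκ' : diagonal (fun i => (κ i)⁻¹) * Uᴴ = Uᴴ * diagonal (fun i => (k i)⁻¹) := by
    ext i j
    rw [Matrix.diagonal_mul, Matrix.mul_diagonal, Matrix.conjTranspose_apply]
    by_cases h0 : U j i = 0
    · simp [h0]
    · rw [hκe j i h0, mul_comm]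
  let φ : Matrix I I ℂ →ₗ[ℂ] Matrix I I ℂ :=
    { toFun := fun X => U * X * Uᴴ
      map_add' := fun X Y => by rw [mul_add, add_mul]
      map_smul' := fun c X => by rw [mul_smul_comm, smul_mul_assoc, RingHom.id_apply] }
  let h' : Submodule ℂ (Matrix I I ℂ) := S.comap φ
  have hm : ∀ X, X ∈ h' ↔ U * X * Uᴴ ∈ S := fun X => Iff.rfl
  have eback : ∀ A : Matrix I I ℂ, U * (Uᴴ * A * U) * Uᴴ = A := by
    intro A
    calc U * (Uᴴ * A * U) * Uᴴ = (U * Uᴴ) * A * (U * Uᴴ) := by noncomm_ring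
      _ = A := by rw [hU2, Matrix.one_mul, Matrix.mul_one]
  have efor : ∀ X : Matrix I I ℂ, Uᴴ * (U * X * Uᴴ) * U = X := by
    intro X
    calc Uᴴ * (U * X * Uᴴ) * U = (Uᴴ * U) * X * (Uᴴ * U) := by noncomm_ring
      _ = X := by rw [hU1, Matrix.one_mul, Matrix.mul_one]
  have hmS : ∀ A ∈ S, Uᴴ * A * U ∈ h' := by
    intro A hA
    rw [hm, eback]
    exact hA
  have emul : ∀ A B, U * (A * B) * Uᴴ = (U * A * Uᴴ) * (U * B * Uᴴ) := by
    intro A B
    calc U * (A * B) * Uᴴ = U * A * 1 * B * Uᴴ := by rw [Matrix.mul_one]; noncomm_ring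
      _ = (U * A * Uᴴ) * (U * B * Uᴴ) := by rw [← hU1]; noncomm_ring
  have ea : U * diagonal a' * Uᴴ = diagonal a := by
    rw [← ha', Matrix.mul_assoc, hU2, Matrix.mul_one]
  have einj : ∀ X Y : Matrix I I ℂ, U * X * Uᴴ = U * Y * Uᴴ → X = Y := by
    intro X Y h
    rw [← efor X, h, efor]
  -- the centre in the new basis
  have hzen : ∀ X, X ∈ zen h' (diagonal a') → U * X * Uᴴ ∈ zen S (diagonal a) := by
    intro X hX
    refine ⟨(hm X).1 hX.1, ?_, fun A hA hAA => ?_⟩
    · rw [← ea, ← emul, ← emul, hX.2.1]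
    · obtain ⟨A', hA', hAm⟩ : ∃ A' ∈ h', U * A' * Uᴴ = A := ⟨_, hmS A hA, eback A⟩
      have h1 : A' * diagonal a' = diagonal a' * A' := by
        apply einj
        rw [emul, emul, hAm, ea, hAA]
      have h3 := congrArg (fun Y => U * Y * Uᴴ) (hX.2.2 A' hA' h1)
      simp only [emul, hAm] at h3
      exact h3
  have hls : LieStar h' := by
    refine ⟨?_, ?_⟩
    · intro A hA B hB
      rw [hm] at hA hB ⊢
      rw [mul_sub, sub_mul, emul, emul]
      exact hlie _ hA _ hB
    · intro A hA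
      rw [hm] at hA ⊢
      have h1 := hstar _ hA
      rw [conjTranspose_mul, conjTranspose_mul, conjTranspose_conjTranspose,
        ← Matrix.mul_assoc] at h1
      exact h1
  have hsit : ZSit h' κ a' := by
    refine ⟨hls, fun i => hk _, ?_, ?_, ?_, ?_, ?_⟩
    · intro A hA
      rw [hm] at hA ⊢
      have h1 := had _ hA
      have e : U * (diagonal κ * A * diagonal (fun i => (κ i)⁻¹)) * Uᴴ
          = diagonal k * (U * A * Uᴴ) * diagonal (fun i => (k i)⁻¹) := by
        calc U * (diagonal κ * A * diagonal (fun i => (κ i)⁻¹)) * Uᴴ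
            = (U * diagonal κ) * A * (diagonal (fun i => (κ i)⁻¹) * Uᴴ) := by
              simp only [Matrix.mul_assoc]
          _ = diagonal k * (U * A * Uᴴ) * diagonal (fun i => (k i)⁻¹) := by
              rw [← hκ, hκ']
              simp only [Matrix.mul_assoc]
      rw [e]
      exact h1
    · rw [hm, ea]
      exact ha
    · intro i
      rw [← hent _ _ (hr i)]
      exact hreal _
    · intro i j hij
      exact hak _ _ (((hent _ _ (hr i)).trans hij).trans (hent _ _ (hr j)).symm)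
    · intro y hy
      obtain ⟨d, hdy⟩ := hdt _ (hzen y hy)
      refine ⟨d, ?_⟩
      have h1 : U * y * Uᴴ * U = U * y := by
        rw [Matrix.mul_assoc, hU1, Matrix.mul_one]
      rw [h1] at hdy
      calc y = Uᴴ * (U * y) := by rw [← Matrix.mul_assoc, hU1, Matrix.one_mul]
        _ = diagonal d := by rw [hdy, ← Matrix.mul_assoc, hU1, Matrix.one_mul]
  obtain ⟨hrefl, hstep, hprod⟩ := r1 h' κ a' hsit
  have hza : diagonal a' ∈ zen h' (diagonal a') := zen_self (by rw [hm, ea]; exact ha)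
  -- the form in the new basis
  set P' : Matrix I I ℂ := Uᵀ * P * U with hP'
  have hUt : Uᵀ * (Uᴴ)ᵀ = 1 := by
    rw [← Matrix.transpose_mul, hU1, Matrix.transpose_one]
  have hTP : ∀ T, diagonal T ∈ h' → ∀ i j, P' i j ≠ 0 → T i + T j = 0 := by
    intro T hT i j hij
    have h1 := hSP _ ((hm _).1 hT)
    have h2 : (diagonal T)ᵀ * P' + P' * diagonal T = 0 := by
      have h3 := congrArg (fun X => Uᵀ * X * U) h1
      simp only [mul_add, add_mul, Matrix.mul_zero, Matrix.zero_mul, Matrix.transpose_mul] at h3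
      have e1 : Uᵀ * ((Uᴴ)ᵀ * ((diagonal T)ᵀ * Uᵀ) * P) * U = (diagonal T)ᵀ * P' := by
        calc Uᵀ * ((Uᴴ)ᵀ * ((diagonal T)ᵀ * Uᵀ) * P) * U
            = (Uᵀ * (Uᴴ)ᵀ) * ((diagonal T)ᵀ * (Uᵀ * P * U)) := by simp only [Matrix.mul_assoc]
          _ = (diagonal T)ᵀ * P' := by rw [hUt, Matrix.one_mul]
      have e2 : Uᵀ * (P * (U * diagonal T * Uᴴ)) * U = P' * diagonal T := by
        calc Uᵀ * (P * (U * diagonal T * Uᴴ)) * U
            = (Uᵀ * P * U) * (diagonal T * (Uᴴ * U)) := by simp only [Matrix.mul_assoc]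
          _ = P' * diagonal T := by rw [hU1, Matrix.mul_one]
      rw [e1, e2] at h3
      exact h3
    have h3 := congrFun (congrFun h2 i) j
    rw [Matrix.diagonal_transpose, Matrix.add_apply, Matrix.diagonal_mul, Matrix.mul_diagonal,
      Matrix.zero_apply] at h3
    have h4 : (T i + T j) * P' i j = 0 := by linear_combination h3
    exact (mul_eq_zero.1 h4).resolve_right hij
  have hκP : ∀ i j, P' i j ≠ 0 → κ i * κ j = 1 := by
    intro i j hij
    have h2 : (diagonal κ)ᵀ * P' * diagonal κ = P' := by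
      calc (diagonal κ)ᵀ * P' * diagonal κ
          = (U * diagonal κ)ᵀ * P * (U * diagonal κ) := by
            rw [Matrix.transpose_mul, hP']
            simp only [Matrix.mul_assoc]
        _ = Uᵀ * ((diagonal k)ᵀ * P * diagonal k) * U := by
            rw [← hκ, Matrix.transpose_mul]
            simp only [Matrix.mul_assoc]
        _ = P' := by rw [hkP]
    have h3 := congrFun (congrFun h2 i) j
    rw [Matrix.diagonal_transpose, Matrix.mul_diagonal, Matrix.diagonal_mul] at h3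
    have h4 : (κ i * κ j - 1) * P' i j = 0 := by linear_combination h3
    exact sub_eq_zero.1 ((mul_eq_zero.1 h4).resolve_right hij)
  -- the letters of weight zero
  have hsq : ∀ b, a' b = 0 → κ b * κ b = 1 := by
    intro b hb
    have hunit : IsUnit P' := by
      have h1 : IsUnit U := ⟨⟨U, Uᴴ, hU2, hU1⟩, rfl⟩
      have h2 : IsUnit Uᵀ := ⟨⟨Uᵀ, (Uᴴ)ᵀ, hUt, by
        rw [← Matrix.transpose_mul, hU2, Matrix.transpose_one]⟩, rfl⟩
      exact (h2.mul hP).mul h1
    obtain ⟨j, hj⟩ : ∃ j, P' b j ≠ 0 := by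
      by_contra hc
      push Not at hc
      obtain ⟨v, hv⟩ := hunit
      have h1 : (P' * (↑v⁻¹ : Matrix I I ℂ)) b b = 1 := by
        rw [← hv, Units.mul_inv, Matrix.one_apply_eq]
      rw [Matrix.mul_apply] at h1
      simp [hc] at h1
    have h1 := hTP a' hza.1 b j hj
    rw [hb, zero_add] at h1
    have h2 : κ j = κ b := hsit.eq j b (h1.trans hb.symm)
    have h3 := hκP b j hj
    rwa [h2] at h3
  -- the letters connected with a letter of weight zero
  have hrow : ∀ M : Matrix I I ℂ, (∀ y ∈ zen S (diagonal a), y * M = 0) →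
      ∀ b c, (Uᴴ * M * U) b c ≠ 0 → ∀ T, diagonal T ∈ zen h' (diagonal a') → T b = 0 := by
    intro M hM b c hbc T hT
    have h1 := hM _ (hzen _ hT)
    have h2 : diagonal T * (Uᴴ * M * U) = 0 := by
      calc diagonal T * (Uᴴ * M * U)
          = (Uᴴ * U) * diagonal T * (Uᴴ * M * U) := by rw [hU1, Matrix.one_mul]
        _ = Uᴴ * ((U * diagonal T * Uᴴ) * M) * U := by simp only [Matrix.mul_assoc]
        _ = 0 := by rw [h1, Matrix.mul_zero, Matrix.zero_mul]
    have h3 := congrFun (congrFun h2 b) c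
    rw [Matrix.diagonal_mul, Matrix.zero_apply] at h3
    exact (mul_eq_zero.1 h3).resolve_right hbc
  let J : Set I := {i | ∃ b, (∀ T, diagonal T ∈ zen h' (diagonal a') → T b = 0) ∧
    ConnZ h' κ a' i b}
  have hJS : ∀ A ∈ S, ∀ v ∈ H5.co U J, A.mulVec v ∈ H5.co U J := by
    intro A hA
    refine H5.co_stable hU2 A fun i hi j hj => ?_
    by_contra h0
    apply hi
    obtain ⟨b, hb, hjb⟩ := hj
    exact ⟨b, hb, hstep i j b _ (hmS A hA) h0 hjb⟩
  have hJM : ∀ M : Matrix I I ℂ, (∀ y ∈ zen S (diagonal a), y * M = 0) →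
      ∀ w : I → ℂ, M.mulVec w ∈ H5.co U J := by
    intro M hM w i hi
    have e : Uᴴ *ᵥ (M *ᵥ w) = (Uᴴ * M * U) *ᵥ (Uᴴ *ᵥ w) := by
      rw [Matrix.mulVec_mulVec, Matrix.mulVec_mulVec]
      congr 1
      calc Uᴴ * M = Uᴴ * M * (U * Uᴴ) := by rw [hU2, Matrix.mul_one]
        _ = Uᴴ * M * U * Uᴴ := by simp only [Matrix.mul_assoc]
    rw [e, Matrix.mulVec, dotProduct]
    refine Finset.sum_eq_zero fun j _ => ?_
    by_cases h0 : (Uᴴ * M * U) i j = 0
    · rw [h0, zero_mul]
    · exact absurd ⟨i, hrow M hM i j h0, hrefl i⟩ hi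
  have hlist : ∀ l : List (Matrix I I ℂ), (∀ A ∈ l, A ∈ S) → ∀ v ∈ H5.co U J,
      l.prod.mulVec v ∈ H5.co U J := by
    intro l
    induction l with
    | nil =>
      intro _ v hv
      rw [List.prod_nil, Matrix.one_mulVec]
      exact hv
    | cons A l ih =>
      intro hl v hv
      rw [List.prod_cons, ← Matrix.mulVec_mulVec]
      exact hJS A (hl A List.mem_cons_self) _
        (ih (fun B hB => hl B (List.mem_cons_of_mem _ hB)) v hv)
  have hspan : Submodule.span ℂ {v : I → ℂ | ∃ l : List (Matrix I I ℂ), (∀ A ∈ l, A ∈ S) ∧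
      ∃ w : I → ℂ, v = (l.prod * N).mulVec w ∨ v = (l.prod * N.conjTranspose).mulVec w}
      ≤ H5.co U J := by
    rw [Submodule.span_le]
    rintro v ⟨l, hl, w, hv⟩
    rcases hv with hv | hv
    · rw [hv, ← Matrix.mulVec_mulVec]
      exact hlist l hl _ (hJM N (fun y hy => (hz y hy).1) w)
    · rw [hv, ← Matrix.mulVec_mulVec]
      exact hlist l hl _ (hJM Nᴴ (fun y hy => (hz y hy).2) w)
  have hall : ∀ i, i ∈ J := by
    intro i
    by_contra hi
    have h1 := hspan (hgen (U *ᵥ Pi.single i 1)) i hi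
    rw [Matrix.mulVec_mulVec, hU1, Matrix.one_mulVec, Pi.single_eq_same] at h1
    exact one_ne_zero h1
  choose b hb0 hbc using hall
  have hba : ∀ i, a' (b i) = 0 := fun i => hb0 i a' hza
  intro L u hL hu
  obtain ⟨n, hn⟩ := hL
  have hone : ∀ w : Fin L → I, (∀ T, diagonal T ∈ h' → ∑ j, T (w j) = 0) →
      ∏ j, κ (w j) = 1 := by
    intro w hw
    rw [hprod L w (fun j => b (w j)) (fun j => hbc (w j)) (fun T hT => by
      rw [hw T hT.1]
      exact (Finset.sum_eq_zero fun j _ => hb0 (w j) T hT).symm)]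
    rcases Nat.eq_zero_or_pos L with h0 | h0
    · subst h0
      exact Finset.prod_of_isEmpty _
    · obtain ⟨c, hc, hc2⟩ : ∃ c : ℂ, (∀ j : Fin L, κ (b (w j)) = c) ∧ c * c = 1 :=
        ⟨κ (b (w ⟨0, h0⟩)), fun j => hsit.eq _ _ ((hba _).trans (hba _).symm), hsq _ (hba _)⟩
      rw [Finset.prod_congr rfl fun j _ => hc j, Finset.prod_const, Finset.card_univ,
        Fintype.card_fin, hn, ← two_mul, pow_mul, sq, hc2, one_pow]
  have hg : (Uᴴ)⁻¹ = U := Matrix.inv_eq_right_inv hU1
  have hu' : ∀ X ∈ h', aT X (gT Uᴴ u) = 0 := by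
    intro X hX
    have h1 := a1.gT_aT Uᴴ (U * X * Uᴴ) u (by rw [hg, hU1])
    rw [hu _ ((hm X).1 hX), hg, efor] at h1
    rw [← h1]
    funext w
    simp [gT]
  have h2 : gT (diagonal κ) (gT Uᴴ u) = gT Uᴴ u := by
    funext w
    rw [gT_diag]
    by_cases h0 : gT Uᴴ u w = 0
    · rw [h0, mul_zero]
    · have h4 : ∀ T, diagonal T ∈ h' → ∑ j, T (w j) = 0 := by
        intro T hT
        have h3 := congrFun (hu' _ hT) w
        rw [aT_diag, Pi.zero_apply] at h3
        exact (mul_eq_zero.1 h3).resolve_right h0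
      rw [hone w h4, one_mul]
  calc gT (diagonal k) u = gT (diagonal k) (gT (U * Uᴴ) u) := by rw [hU2, a1.gT_one]
    _ = gT (diagonal k * U) (gT Uᴴ u) := by rw [a1.gT_mul, a1.gT_mul]
    _ = gT U (gT (diagonal κ) (gT Uᴴ u)) := by rw [hκ, a1.gT_mul]
    _ = gT (U * Uᴴ) u := by rw [h2, a1.gT_mul]
    _ = u := by rw [hU2, a1.gT_one]

end Pool.Agent.Lib.MP_361a6f_ag.FL.E.BR.B5
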