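import Pool.Agent.Lib.MP_361a6f_ag.FL.E.BR.Defs
import Pool.Agent.Lib.MP_361a6f_ag.FL.E.H6
import Pool.Agent.Lib.MP_361a6f_ag.FL.E.NdH
import Pool.Agent.Lib.MP_361a6f_ag.FL.E.G4
import Pool.Agent.Lib.MP_361a6f_ag.FL.E.G4b
import Pool.Agent.Lib.MP_361a6f_ag.FL.E.P3

/-!
# Theorem BR, row R6b: the subspaces stable under the stabiliser of the minimal tuple

`s = lim g_j t`, with `g_j` block scalar. The commutant of `(stab t, E)` is contained in the
commutant of `(stab s, E)` and has the same dimension. Hence every `(stab s, E)`-stable subspace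
is `(stab t, E)`-stable, so it has finitely many images under `Γ`.
-/

set_option autoImplicit false
set_option linter.unusedSectionVars false

open Filter Topology

namespace Pool.Agent.Lib.MP_361a6f_ag.FL.E.BR.R6b

/-! ### The dimension of a kernel in the limit -/

/-- the kernel of a limit of linear maps is at least as large -/
theorem ker_lim {V W : Type} [AddCommGroup V] [Module ℂ V] [FiniteDimensional ℂ V]
    [NormedAddCommGroup W] [NormedSpace ℂ W] [FiniteDimensional ℂ W] (F : ℕ → V →ₗ[ℂ] W)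
    (G : V →ₗ[ℂ] W) (h : ∀ v, Tendsto (fun j => F j v) atTop (𝓝 (G v))) {d : ℕ}
    (hd : ∀ j, d ≤ Module.finrank ℂ (LinearMap.ker (F j))) :
    d ≤ Module.finrank ℂ (LinearMap.ker G) := by
  have b := Module.finBasis ℂ (LinearMap.range G)
  have ha : ∀ i, ∃ a : V, G a = (b i : W) := fun i => (b i).2
  choose a ha using ha
  have h1 : LinearIndependent ℂ fun i => G (a i) := by
    have h2 := b.linearIndependent.map' (LinearMap.range G).subtype (Submodule.ker_subtype _)
    have h3 : (fun i => G (a i)) = (LinearMap.range G).subtype ∘ b := by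
      funext i
      exact ha i
    rw [h3]
    exact h2
  have h2 : Tendsto (fun j => fun i => F j (a i)) atTop (𝓝 fun i => G (a i)) :=
    tendsto_pi_nhds.2 fun i => h (a i)
  obtain ⟨j, hj⟩ := (h2.eventually h1.eventually).exists
  have h3 : LinearIndependent ℂ fun i => (⟨F j (a i), ⟨a i, rfl⟩⟩ : LinearMap.range (F j)) := by
    refine LinearIndependent.of_comp (LinearMap.range (F j)).subtype ?_
    exact hj
  have h4 := h3.fintype_card_le_finrank
  rw [Fintype.card_fin] at h4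
  have h5 := LinearMap.finrank_range_add_finrank_ker G
  have h6 := LinearMap.finrank_range_add_finrank_ker (F j)
  have h7 := hd j
  omega

/-! ### Conjugation -/

section

variable {I : Type} [Fintype I] [DecidableEq I]

/-- conjugation by `g` as a linear map -/
noncomputable def cj (g : Matrix I I ℂ) : Matrix I I ℂ →ₗ[ℂ] Matrix I I ℂ where
  toFun A := g * A * g⁻¹
  map_add' A B := by rw [Matrix.mul_add, Matrix.add_mul]
  map_smul' c A := by rw [Matrix.mul_smul, Matrix.smul_mul, RingHom.id_apply]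

theorem cj_inj {g : Matrix I I ℂ} (h : g⁻¹ * g = 1) : Function.Injective (cj g) := by
  intro A B hAB
  have h1 : g * A * g⁻¹ = g * B * g⁻¹ := hAB
  have h2 : ∀ C : Matrix I I ℂ, g⁻¹ * (g * C * g⁻¹) * g = C := by
    intro C
    calc g⁻¹ * (g * C * g⁻¹) * g = (g⁻¹ * g) * C * (g⁻¹ * g) := by noncomm_ring
      _ = C := by rw [h, Matrix.one_mul, Matrix.mul_one]
  rw [← h2 A, h1, h2 B]

theorem finrank_cj {g : Matrix I I ℂ} (h : g⁻¹ * g = 1) {P Q : Submodule ℂ (Matrix I I ℂ)}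
    (hPQ : ∀ A ∈ P, g * A * g⁻¹ ∈ Q) : Module.finrank ℂ P ≤ Module.finrank ℂ Q := by
  have h1 := (Submodule.equivMapOfInjective (cj g) (cj_inj h) P).finrank_eq
  rw [h1]
  refine Submodule.finrank_mono ?_
  rintro _ ⟨A, hA, rfl⟩
  exact hPQ A hA

end

variable {I Λ : Type} [Fintype I] [DecidableEq I] [DecidableEq Λ] {D : Dat I Λ}
  {At : (L : ℕ) → Ten I L → Prop} {ι : Type} [Fintype ι] {len : ι → ℕ}

theorem stab_cj {g : Matrix I I ℂ} (hg : IsG D g) {u v : Tup I len} (huv : gS g u = v)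
    {A : Matrix I I ℂ} (hA : A ∈ stab D u) : g * A * g⁻¹ ∈ stab D v := by
  refine ⟨CloT.Lie_conj alg1 g A hg hA.1, funext fun i => ?_⟩
  have h1 : aT A (u i) = 0 := congrFun hA.2 i
  have h2 : gT g (u i) = v i := congrFun huv i
  change aT (g * A * g⁻¹) (v i) = 0
  rw [← h2, ← alg1.gT_aT g A (u i) (alg1.G_inv D g hg).2.1, h1, Six.gT_zero]

theorem gS_inv {g : Matrix I I ℂ} (hg : IsG D g) {u v : Tup I len} (huv : gS g u = v) :
    gS g⁻¹ v = u := by
  funext i
  have h2 : gT g (u i) = v i := congrFun huv i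
  change gT g⁻¹ (v i) = u i
  rw [← h2, ← alg1.gT_mul, (alg1.G_inv D g hg).2.2, alg1.gT_one]

theorem finrank_stab {g : Matrix I I ℂ} (hg : IsG D g) {u v : Tup I len} (huv : gS g u = v) :
    Module.finrank ℂ (Six.stabS alg1 D u) ≤ Module.finrank ℂ (Six.stabS alg1 D v) :=
  finrank_cj (alg1.G_inv D g hg).2.2 fun _ hA => stab_cj hg huv hA

/-! ### The commutant in the limit -/

/-- the derivation action on a tuple, as a linear map in the matrix -/
noncomputable def act (u : Tup I len) : Matrix I I ℂ →ₗ[ℂ] Tup I len where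
  toFun A := aS A u
  map_add' A B := funext fun i => alg1.add_aT A B (u i)
  map_smul' c A := funext fun i => alg1.smul_aT c A (u i)

theorem aS_tendsto (A : Matrix I I ℂ) {u : ℕ → Tup I len} {s : Tup I len}
    (h : Tendsto u atTop (𝓝 s)) : Tendsto (fun j => aS A (u j)) atTop (𝓝 (aS A s)) := by
  let f : Tup I len →ₗ[ℂ] Tup I len :=
    { toFun := fun u => aS A u
      map_add' := fun u v => funext fun i => alg1.aT_add A (u i) (v i)
      map_smul' := fun c u => funext fun i => alg1.aT_smul A c (u i) }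
  exact (f.continuous_of_finiteDimensional.tendsto s).comp h

/-- the elements of the Lie algebra that commute with `M` -/
def lieC (D : Dat I Λ) (M : Matrix I I ℂ) : Submodule ℂ (Matrix I I ℂ) where
  carrier := {A | IsLie D A ∧ M * A = A * M}
  zero_mem' := ⟨⟨fun _ _ _ => rfl, by simp⟩, by rw [Matrix.mul_zero, Matrix.zero_mul]⟩
  add_mem' := by
    rintro A B ⟨hA, hA'⟩ ⟨hB, hB'⟩
    exact ⟨alg1.Lie_add D A B hA hB, by rw [Matrix.mul_add, Matrix.add_mul, hA', hB']⟩
  smul_mem' := by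
    rintro c A ⟨hA, hA'⟩
    exact ⟨alg1.Lie_smul D c A hA, by rw [Matrix.mul_smul, Matrix.smul_mul, hA']⟩

/-- a matrix that commutes with the stabilisers of the `u j` commutes with the stabiliser of the
limit, if the dimension does not jump -/
theorem comm_lim {M : Matrix I I ℂ} {u : ℕ → Tup I len} {s : Tup I len}
    (hlim : Tendsto u atTop (𝓝 s))
    (hd : ∀ j, Module.finrank ℂ (Six.stabS alg1 D s) ≤ Module.finrank ℂ (Six.stabS alg1 D (u j)))
    (hc : ∀ j, ∀ A ∈ stab D (u j), M * A = A * M) : ∀ A ∈ stab D s, M * A = A * M := by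
  have key := ker_lim (fun j => (act (u j)).domRestrict (lieC D M))
    ((act s).domRestrict (lieC D M)) (fun v => aS_tendsto v.1 hlim)
    (d := Module.finrank ℂ (Six.stabS alg1 D s)) (by
      intro j
      refine (hd j).trans ?_
      rw [← Submodule.finrank_map_subtype_eq]
      refine Submodule.finrank_mono ?_
      intro A hA
      have hA' : A ∈ stab D (u j) := hA
      exact ⟨⟨A, hA'.1, hc j A hA'⟩, hA'.2, rfl⟩)
  rw [← Submodule.finrank_map_subtype_eq] at key
  have h1 : (LinearMap.ker ((act s).domRestrict (lieC D M))).map (lieC D M).subtype ≤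
      Six.stabS alg1 D s := by
    rintro _ ⟨A, hA, rfl⟩
    exact ⟨A.2.1, hA⟩
  have h2 := Submodule.eq_of_le_of_finrank_le h1 key
  intro A hA
  have h3 : A ∈ Six.stabS alg1 D s := hA
  rw [← h2] at h3
  obtain ⟨B, -, rfl⟩ := h3
  exact B.2.2

/-! ### The commutants -/

/-- the commutant of the stabiliser and the endomorphisms -/
def comS (D : Dat I Λ) (At : (L : ℕ) → Ten I L → Prop) (u : Tup I len) :
    Submodule ℂ (Matrix I I ℂ) where
  carrier := {M | (∀ A ∈ stab D u, M * A = A * M) ∧ ∀ z, At 2 z → M * opM D z = opM D z * M}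
  zero_mem' := ⟨fun A _ => by rw [Matrix.mul_zero, Matrix.zero_mul],
    fun z _ => by rw [Matrix.mul_zero, Matrix.zero_mul]⟩
  add_mem' := by
    rintro M N ⟨hM, hM'⟩ ⟨hN, hN'⟩
    exact ⟨fun A hA => by rw [Matrix.mul_add, Matrix.add_mul, hM A hA, hN A hA],
      fun z hz => by rw [Matrix.mul_add, Matrix.add_mul, hM' z hz, hN' z hz]⟩
  smul_mem' := by
    rintro c M ⟨hM, hM'⟩
    exact ⟨fun A hA => by rw [Matrix.mul_smul, Matrix.smul_mul, hM A hA],
      fun z hz => by rw [Matrix.mul_smul, Matrix.smul_mul, hM' z hz]⟩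

/-- conjugation of the commutant -/
theorem comS_cj {g : Matrix I I ℂ} (hg : IsG D g) {u v : Tup I len} (huv : gS g u = v)
    (hcom : ∀ z, At 2 z → opM D z * g = g * opM D z) {M : Matrix I I ℂ}
    (hM : M ∈ comS D At u) : g * M * g⁻¹ ∈ comS D At v := by
  obtain ⟨hgi, hg1, hg2⟩ := alg1.G_inv D g hg
  refine ⟨fun A hA => ?_, fun z hz => ?_⟩
  · have h1 := stab_cj hgi (gS_inv hg huv) hA
    have h2 : g⁻¹⁻¹ = g := Matrix.inv_eq_right_inv hg2
    rw [h2] at h1
    have h3 := hM.1 _ h1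
    calc g * M * g⁻¹ * A = g * M * (g⁻¹ * A) * (g * g⁻¹) := by
          rw [hg1, Matrix.mul_one]; noncomm_ring
      _ = g * (M * (g⁻¹ * A * g)) * g⁻¹ := by noncomm_ring
      _ = g * ((g⁻¹ * A * g) * M) * g⁻¹ := by rw [h3]
      _ = (g * g⁻¹) * A * (g * M * g⁻¹) := by noncomm_ring
      _ = A * (g * M * g⁻¹) := by rw [hg1, Matrix.one_mul]
  · have h1 := hcom z hz
    have h2 : opM D z * g⁻¹ = g⁻¹ * opM D z := by
      calc opM D z * g⁻¹ = (g⁻¹ * g) * opM D z * g⁻¹ := by rw [hg2, Matrix.one_mul]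
        _ = g⁻¹ * (g * opM D z) * g⁻¹ := by noncomm_ring
        _ = g⁻¹ * (opM D z * g) * g⁻¹ := by rw [h1]
        _ = g⁻¹ * opM D z * (g * g⁻¹) := by noncomm_ring
        _ = g⁻¹ * opM D z := by rw [hg1, Matrix.mul_one]
    calc g * M * g⁻¹ * opM D z = g * M * (g⁻¹ * opM D z) := by noncomm_ring
      _ = g * M * (opM D z * g⁻¹) := by rw [h2]
      _ = g * (M * opM D z) * g⁻¹ := by noncomm_ring
      _ = g * (opM D z * M) * g⁻¹ := by rw [hM.2 z hz]
      _ = (g * opM D z) * M * g⁻¹ := by noncomm_ring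
      _ = (opM D z * g) * M * g⁻¹ := by rw [h1]
      _ = opM D z * (g * M * g⁻¹) := by noncomm_ring

/-- the commutants of `t` and `s = lim g_j t` are equal -/
theorem comS_eq {l : I → ℂ} {t s : Tup I len} {x : Matrix I I ℂ} (hx : IsG D x)
    (hxs : gS x s = t) (hcom : ∀ z, At 2 z → opM D z * x = x * opM D z)
    {a : I → ℂ} (ha : ∀ i j, a i = a j → l i = l j) (hat : Matrix.diagonal a ∈ stab D t)
    {g : ℕ → Matrix I I ℂ} (hg : ∀ j, IsG D (g j))
    (hgb : ∀ j, ∃ z : I → ℂ, (∀ i i', l i = l i' → z i = z i') ∧ g j = Matrix.diagonal z)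
    (hlim : Tendsto (fun j => gS (g j) t) atTop (𝓝 s)) : comS D At t = comS D At s := by
  refine Submodule.eq_of_le_of_finrank_le ?_ ?_
  · intro M hM
    refine ⟨?_, hM.2⟩
    refine comm_lim hlim (fun j => ?_) fun j A hA => ?_
    · exact (finrank_stab hx hxs).trans (finrank_stab (hg j) rfl)
    · -- `M` is block diagonal
      have h1 : ∀ i i', M i i' ≠ 0 → l i = l i' := by
        intro i i' hne
        have h2 := congrFun (congrFun (hM.1 _ hat) i) i'
        rw [Matrix.mul_diagonal, Matrix.diagonal_mul] at h2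
        have h3 : M i i' * (a i' - a i) = 0 := by linear_combination h2
        exact ha i i' (sub_eq_zero.1 ((mul_eq_zero.1 h3).resolve_left hne)).symm
      obtain ⟨z, hz, hgz⟩ := hgb j
      have h2 : M * g j = g j * M := by
        rw [hgz]
        ext i i'
        rw [Matrix.mul_diagonal, Matrix.diagonal_mul]
        by_cases h : M i i' = 0
        · rw [h, zero_mul, mul_zero]
        · rw [hz i i' (h1 i i' h), mul_comm]
      obtain ⟨hgi, hg1, hg2⟩ := alg1.G_inv D (g j) (hg j)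
      have h3 := stab_cj hgi (gS_inv (hg j) rfl) hA
      have h4 : (g j)⁻¹⁻¹ = g j := Matrix.inv_eq_right_inv hg2
      rw [h4] at h3
      have h5 := hM.1 _ h3
      calc M * A = M * (g j * (g j)⁻¹) * A * (g j * (g j)⁻¹) := by
            rw [hg1, Matrix.mul_one, Matrix.mul_one]
        _ = (M * g j) * ((g j)⁻¹ * A * g j) * (g j)⁻¹ := by noncomm_ring
        _ = (g j * M) * ((g j)⁻¹ * A * g j) * (g j)⁻¹ := by rw [h2]
        _ = g j * (M * ((g j)⁻¹ * A * g j)) * (g j)⁻¹ := by noncomm_ring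
        _ = g j * (((g j)⁻¹ * A * g j) * M) * (g j)⁻¹ := by rw [h5]
        _ = (g j * (g j)⁻¹) * A * (g j * M) * (g j)⁻¹ := by noncomm_ring
        _ = (g j * (g j)⁻¹) * A * (M * g j) * (g j)⁻¹ := by rw [h2]
        _ = (g j * (g j)⁻¹) * A * M * (g j * (g j)⁻¹) := by noncomm_ring
        _ = A * M := by rw [hg1, Matrix.one_mul, Matrix.mul_one]
  · exact finrank_cj (alg1.G_inv D x hx).2.2 fun M hM => comS_cj hx hxs hcom hM

/-! ### Stable subspaces -/

/-- the projector on a subspace along a complement commutes with the matrices that preserve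
both -/
theorem proj_comm {U W : Submodule ℂ (I → ℂ)} (h : IsCompl U W) {A : Matrix I I ℂ}
    (hU : ∀ v ∈ U, A.mulVec v ∈ U) (hW : ∀ v ∈ W, A.mulVec v ∈ W) :
    LinearMap.toMatrix' (U.projection W h) * A = A * LinearMap.toMatrix' (U.projection W h) := by
  apply Matrix.toLin'.injective
  rw [Matrix.toLin'_mul, Matrix.toLin'_mul, Matrix.toLin'_toMatrix']
  refine LinearMap.ext fun v => ?_
  obtain ⟨a, ha, b, hb, rfl⟩ := Submodule.mem_sup.1
    (show v ∈ U ⊔ W by rw [h.sup_eq_top]; exact Submodule.mem_top)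
  rw [LinearMap.comp_apply, LinearMap.comp_apply, map_add, map_add, map_add, map_add]
  have e1 : U.projection W h a = a := Submodule.projection_apply_left h ⟨a, ha⟩
  have e2 : U.projection W h b = 0 := Submodule.projection_apply_right h ⟨b, hb⟩
  have e3 : U.projection W h (Matrix.toLin' A a) = Matrix.toLin' A a :=
    Submodule.projection_apply_left h ⟨_, hU a ha⟩
  have e4 : U.projection W h (Matrix.toLin' A b) = 0 :=
    Submodule.projection_apply_right h ⟨_, hW b hb⟩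
  rw [e1, e2, e3, e4, map_zero]

/-- the orthogonal complement is stable under the Lie algebra -/
theorem perp_lie {A : Matrix I I ℂ} (hA : IsLie D A) {U : Submodule ℂ (I → ℂ)}
    (hU : ∀ v ∈ U, A.mulVec v ∈ U) (v : I → ℂ) (hv : v ∈ Nd.perp D U) :
    A.mulVec v ∈ Nd.perp D U := by
  rw [Nd.mem_perp] at hv ⊢
  intro w hw
  have h1 : Psi D * A = -(A.transpose * Psi D) := by
    rw [eq_neg_iff_add_eq_zero, add_comm]
    exact hA.2
  rw [Matrix.mulVec_mulVec, h1, Matrix.neg_mulVec, dotProduct_neg, ← Matrix.mulVec_mulVec,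
    Matrix.dotProduct_mulVec w A.transpose, Matrix.vecMul_transpose, hv _ (hU w hw), neg_zero]

/-- the orthogonal complement is stable under the endomorphisms -/
theorem perp_end (S : ASys D At) (ho : ∀ i, D.odd (D.typ i)) {U : Submodule ℂ (I → ℂ)}
    (hU : ∀ z, At 2 z → ∀ v ∈ U, (opM D z).mulVec v ∈ U) :
    ∀ z, At 2 z → ∀ v ∈ Nd.perp D U, (opM D z).mulVec v ∈ Nd.perp D U := by
  intro z hz v hv
  refine Nd.perp_stable ho (fun w hw => ?_) v hv
  have h1 : Nd.op D (Nd.dag D (opM D z)) ∈ OL.CA At 2 :=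
    Nd.op_dag_mem S ho (by rw [Nd.op_opM]; exact Nd.sub_CA hz)
  have h2 := Nd.stable_span hU _ h1 w hw
  rwa [Nd.opM_op] at h2

/-- a stable subspace has the orthogonal complement as a complement, if no stable subspace is
isotropic -/
theorem compl_perp (S : ASys D At) (ho : ∀ i, D.odd (D.typ i)) {s : Tup I len}
    (h1 : ∀ U : Submodule ℂ (I → ℂ), (∀ A ∈ stab D s, ∀ v ∈ U, A.mulVec v ∈ U) →
      (∀ z, At 2 z → ∀ v ∈ U, (opM D z).mulVec v ∈ U) →
      (∀ v ∈ U, ∀ w ∈ U, dotProduct v ((Psi D).mulVec w) = 0) → U = ⊥)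
    {U : Submodule ℂ (I → ℂ)} (hU : ∀ A ∈ stab D s, ∀ v ∈ U, A.mulVec v ∈ U)
    (hE : ∀ z, At 2 z → ∀ v ∈ U, (opM D z).mulVec v ∈ U) : IsCompl U (Nd.perp D U) := by
  have hP : ∀ A ∈ stab D s, ∀ v ∈ Nd.perp D U, A.mulVec v ∈ Nd.perp D U :=
    fun A hA v hv => perp_lie hA.1 (hU A hA) v hv
  have hPE := perp_end S ho hE
  have hPP : ∀ A ∈ stab D s, ∀ v ∈ Nd.perp D (Nd.perp D U), A.mulVec v ∈ Nd.perp D (Nd.perp D U) :=
    fun A hA v hv => perp_lie hA.1 (hP A hA) v hv
  have hPPE := perp_end S ho hPE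
  constructor
  · rw [disjoint_iff]
    refine h1 _ (fun A hA v hv => ⟨hU A hA v hv.1, hP A hA v hv.2⟩)
      (fun z hz v hv => ⟨hE z hz v hv.1, hPE z hz v hv.2⟩) fun v hv w hw => ?_
    exact (Nd.mem_perp.1 hw.2) v hv.1
  · rw [codisjoint_iff]
    refine Nd.eq_top_of_perp ho ?_
    rw [eq_bot_iff]
    have h2 : Nd.perp D U ⊓ Nd.perp D (Nd.perp D U) = ⊥ := by
      refine h1 _ (fun A hA v hv => ⟨hP A hA v hv.1, hPP A hA v hv.2⟩)
        (fun z hz v hv => ⟨hPE z hz v hv.1, hPPE z hz v hv.2⟩) fun v hv w hw => ?_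
      exact (Nd.mem_perp.1 hw.2) v hv.1
    rw [← h2]
    intro v hv
    rw [Nd.mem_perp] at hv
    exact ⟨Nd.mem_perp.2 fun w hw => hv w (Submodule.mem_sup_left hw),
      Nd.mem_perp.2 fun w hw => hv w (Submodule.mem_sup_right hw)⟩

/-- a subspace stable under the stabiliser of `s` is stable under the stabiliser of `t` -/
theorem stab_t (S : ASys D At) (ho : ∀ i, D.odd (D.typ i)) {t s : Tup I len}
    (hC : comS D At t = comS D At s)
    (h1 : ∀ U : Submodule ℂ (I → ℂ), (∀ A ∈ stab D s, ∀ v ∈ U, A.mulVec v ∈ U) →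
      (∀ z, At 2 z → ∀ v ∈ U, (opM D z).mulVec v ∈ U) →
      (∀ v ∈ U, ∀ w ∈ U, dotProduct v ((Psi D).mulVec w) = 0) → U = ⊥)
    {U : Submodule ℂ (I → ℂ)} (hU : ∀ A ∈ stab D s, ∀ v ∈ U, A.mulVec v ∈ U)
    (hE : ∀ z, At 2 z → ∀ v ∈ U, (opM D z).mulVec v ∈ U) :
    ∀ A ∈ stab D t, ∀ v ∈ U, A.mulVec v ∈ U := by
  have hc := compl_perp S ho h1 hU hE
  have h2 : LinearMap.toMatrix' (U.projection (Nd.perp D U) hc) ∈ comS D At s :=
    ⟨fun A hA => proj_comm hc (hU A hA) fun v hv => perp_lie hA.1 (hU A hA) v hv,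
      fun z hz => proj_comm hc (hE z hz) (perp_end S ho hE z hz)⟩
  rw [← hC] at h2
  intro A hA v hv
  have h3 := congrArg (fun M => Matrix.toLin' M v) (h2.1 A hA)
  simp only [Matrix.toLin'_mul, Matrix.toLin'_toMatrix', LinearMap.comp_apply] at h3
  have h4 : U.projection (Nd.perp D U) hc v = v := Submodule.projection_apply_left hc ⟨v, hv⟩
  rw [h4] at h3
  change Matrix.toLin' A v ∈ U
  rw [← h3]
  exact Submodule.projection_apply_mem hc _

/-- stability under the stabiliser of `t` and the endomorphisms gives finitely many images -/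
theorem stabU_of_t {Γ : Set (Matrix I I ℂ)} {t s : Tup I len} {x : Matrix I I ℂ}
    (hx : IsG D x) (hxs : gS x s = t) (hcom : ∀ z, At 2 z → opM D z * x = x * opM D z)
    (hmin : Minimal D s) (grp : ∀ γ ∈ Γ, IsG D γ) (gfix : ∀ γ ∈ Γ, ∀ L u, At L u → gT γ u = u)
    (hmem : ∀ i, At (len i) (t i)) {U : Submodule ℂ (I → ℂ)}
    (hU : ∀ A ∈ stab D t, ∀ v ∈ U, A.mulVec v ∈ U)
    (hE : ∀ z, At 2 z → ∀ v ∈ U, (opM D z).mulVec v ∈ U) : StabU D At Γ U := by
  obtain ⟨hxi, hx1, hx2⟩ := alg1.G_inv D x hx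
  have h0 : (U.map (Matrix.toLin' x⁻¹)).map (Matrix.toLin' x) = U := by
    rw [← Submodule.map_comp, ← Matrix.toLin'_mul, hx1, Matrix.toLin'_one, Submodule.map_id]
  have hcomi : ∀ z, At 2 z → opM D z * x⁻¹ = x⁻¹ * opM D z := by
    intro z hz
    have h1 := hcom z hz
    calc opM D z * x⁻¹ = (x⁻¹ * x) * opM D z * x⁻¹ := by rw [hx2, Matrix.one_mul]
      _ = x⁻¹ * (x * opM D z) * x⁻¹ := by noncomm_ring
      _ = x⁻¹ * (opM D z * x) * x⁻¹ := by rw [h1]
      _ = x⁻¹ * opM D z * (x * x⁻¹) := by noncomm_ring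
      _ = x⁻¹ * opM D z := by rw [hx1, Matrix.mul_one]
  have h1 := Hsix.stabU_map (Γ := Γ) hx1 hcom (U := U.map (Matrix.toLin' x⁻¹)) (by
      rintro z hz _ ⟨v, hv, rfl⟩
      refine ⟨(opM D z).mulVec v, hE z hz v hv, ?_⟩
      rw [Matrix.toLin'_apply, Matrix.toLin'_apply, Matrix.mulVec_mulVec, Matrix.mulVec_mulVec,
        hcomi z hz])
    (g4 D s (Hsix.conjS Γ x) hmin (Hsix.conjS_fix hx hxs grp gfix hmem) _ (by
      rintro A hA _ ⟨v, hv, rfl⟩
      refine ⟨(x * A * x⁻¹).mulVec v, hU _ (stab_cj hx hxs hA) v hv, ?_⟩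
      rw [Matrix.toLin'_apply, Matrix.toLin'_apply, Matrix.mulVec_mulVec, Matrix.mulVec_mulVec]
      congr 1
      rw [← Matrix.mul_assoc, ← Matrix.mul_assoc, hx2, Matrix.one_mul]))
  rwa [h0] at h1

variable {Bt : (L : ℕ) → Ten I L → Prop} {l : I → ℂ} {Γ : Set (Matrix I I ℂ)} {β : Type}
  [Fintype β] {lb : β → ℕ} {b : Tup I lb}

/-- no isotropic stable subspace, at the level of `s` -/
theorem iso_s (P : CSys D At Bt l Γ lb b)
    (h1 : ∀ U : Submodule ℂ (I → ℂ), StabU D At Γ U →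
      (∀ v ∈ U, ∀ w ∈ U, dotProduct v ((Psi D).mulVec w) = 0) → U = ⊥)
    {m : ℕ} (hm : 2 ≤ m) {t s : Tup I len} {x : Matrix I I ℂ} {k : I → ℂ}
    (h : LvlP D At l m len t s x k) (U : Submodule ℂ (I → ℂ))
    (hU : ∀ A ∈ stab D s, ∀ v ∈ U, A.mulVec v ∈ U)
    (hE : ∀ z, At 2 z → ∀ v ∈ U, (opM D z).mulVec v ∈ U)
    (hiso : ∀ v ∈ U, ∀ w ∈ U, dotProduct v ((Psi D).mulVec w) = 0) : U = ⊥ := by
  obtain ⟨hxi, hx1, hx2⟩ := alg1.G_inv D x h.lvl.grp
  have com := g4b D At Bt l Γ lb b P m hm len t s x k h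
  have h2 := h1 (U.map (Matrix.toLin' x)) (Hsix.stabU_map hx1 (fun z hz => (com z hz).2.2) hE
    (g4 D s (Hsix.conjS Γ x) h.lvl.min
      (Hsix.conjS_fix h.lvl.grp h.lvl.eq P.grp P.gfix h.lvl.mem) U hU)) (by
    rintro _ ⟨v, hv, rfl⟩ _ ⟨w, hw, rfl⟩
    rw [Matrix.toLin'_apply, Matrix.toLin'_apply, Hsix.psi_map h.lvl.grp]
    exact hiso v hv w hw)
  rw [eq_bot_iff]
  intro v hv
  have h3 : Matrix.toLin' x v ∈ U.map (Matrix.toLin' x) := ⟨v, hv, rfl⟩
  rw [h2, Submodule.mem_bot, Matrix.toLin'_apply] at h3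
  have h4 := congrArg (x⁻¹).mulVec h3
  rwa [Matrix.mulVec_mulVec, hx2, Matrix.one_mulVec, Matrix.mulVec_zero] at h4

/-- **Row R6b.** A subspace that is stable under the stabiliser of the minimal tuple and the
endomorphisms has finitely many images under `Γ`. -/
theorem stable_stabU (P : CSys D At Bt l Γ lb b)
    (h1 : ∀ U : Submodule ℂ (I → ℂ), StabU D At Γ U →
      (∀ v ∈ U, ∀ w ∈ U, dotProduct v ((Psi D).mulVec w) = 0) → U = ⊥)
    {m : ℕ} (hm : 2 ≤ m) {t s : Tup I len} {x : Matrix I I ℂ} {k : I → ℂ}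
    (h : LvlP D At l m len t s x k) {g : ℕ → Matrix I I ℂ} (hg : ∀ j, IsGb D b (g j))
    (hlim : Tendsto (fun j => gS (g j) t) atTop (𝓝 s)) {U : Submodule ℂ (I → ℂ)}
    (hU : ∀ A ∈ stab D s, ∀ v ∈ U, A.mulVec v ∈ U)
    (hE : ∀ z, At 2 z → ∀ v ∈ U, (opM D z).mulVec v ∈ U) : StabU D At Γ U := by
  have com := fun z hz => (g4b D At Bt l Γ lb b P m hm len t s x k h z hz).2.2
  have hfix : gS (Matrix.diagonal l) t = t := funext fun i => P.fix _ _ (h.lvl.mem i)
  obtain ⟨a, ha, -, hat⟩ := p3 D t l P.typ_eq P.odd P.tau P.ratio hfix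
  have hC := comS_eq h.lvl.grp h.lvl.eq com (fun i j hij => (ha i j).1 hij) hat
    (fun j => (hg j).1) (fun j => P.comm _ (hg j).1 (hg j).2) hlim
  exact stabU_of_t h.lvl.grp h.lvl.eq com h.lvl.min P.grp P.gfix h.lvl.mem
    (stab_t P.sys P.odd hC (iso_s P h1 hm h) hU hE) hE

end Pool.Agent.Lib.MP_361a6f_ag.FL.E.BR.R6b
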