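import Pool.Agent.Lib.MP_361a6f_ag.FL.E.BR.Defs
import Pool.Agent.Lib.MP_361a6f_ag.FL.E.BR.R6b
import Pool.Agent.Lib.MP_361a6f_ag.FL.E.H6

/-!
# Theorem BR, row R6: the assembly
-/

set_option autoImplicit false
set_option linter.unusedSectionVars false

open Filter Topology

namespace Pool.Agent.Lib.MP_361a6f_ag.FL.E.BR

namespace B6

variable {I Λ : Type} [Fintype I] [DecidableEq I] [DecidableEq Λ] {D : Dat I Λ}
  {At Bt : (L : ℕ) → Ten I L → Prop} {l : I → ℂ} {Γ : Set (Matrix I I ℂ)} {β : Type} [Fintype β]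
  {lb : β → ℕ} {b : Tup I lb} {N : Matrix I I ℂ}

/-- the entries of an element of the Lie algebra -/
theorem lie_entry (hN : IsLie D N) (i j : I) :
    N (D.τ j) i * D.s (D.τ j) + D.s i * N (D.τ i) j = 0 := by
  have h := congrFun (congrFun hN.2 i) j
  rw [Matrix.add_apply, Matrix.mul_apply, Matrix.mul_apply,
    Finset.sum_eq_single (D.τ j), Finset.sum_eq_single (D.τ i)] at h
  · rw [Matrix.transpose_apply] at h
    simp only [Psi, Matrix.of_apply, D.τ_τ, if_true, Matrix.zero_apply] at h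
    exact h
  · intro k _ hk
    simp only [Psi, Matrix.of_apply]
    rw [if_neg hk, zero_mul]
  · intro h'
    exact absurd (Finset.mem_univ _) h'
  · intro k _ hk
    simp only [Psi, Matrix.of_apply]
    rw [if_neg fun h' => hk (by rw [h', D.τ_τ]), mul_zero]
  · intro h'
    exact absurd (Finset.mem_univ _) h'

theorem s_ne (i : I) : D.s i ≠ 0 := fun h => by
  have h1 : D.s i * D.s i = 1 := Six.s_sq i
  rw [h, mul_zero] at h1
  exact zero_ne_one h1

theorem tau_ne (hN : IsLie D N) {i j : I} (h : N i j ≠ 0) : N (D.τ j) (D.τ i) ≠ 0 := by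
  intro h0
  have h1 := lie_entry hN (D.τ i) j
  rw [h0, zero_mul, zero_add, D.τ_τ] at h1
  rcases mul_eq_zero.1 h1 with h2 | h2
  · exact s_ne _ h2
  · exact h h2

theorem diag_tau {a : I → ℂ} (ha : IsLie D (Matrix.diagonal a)) (i : I) : a i + a (D.τ i) = 0 := by
  have h1 := lie_entry ha i (D.τ i)
  rw [D.τ_τ, Matrix.diagonal_apply_eq, Matrix.diagonal_apply_eq, mul_comm (D.s i), ← add_mul] at h1
  exact (mul_eq_zero.1 h1).resolve_right (s_ne i)

/-- the rows and columns of `N` belong to the eigenvalue `1` -/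
theorem one_of (tau : ∀ i, l (D.τ i) * l i = 1) (nlie : IsLie D N)
    (nl : Matrix.diagonal l * N = N) {i j : I} (h : N i j ≠ 0) : l i = 1 ∧ l j = 1 := by
  have h1 : ∀ i j, N i j ≠ 0 → l i = 1 := by
    intro i j hij
    have h2 := congrFun (congrFun nl i) j
    rw [Matrix.diagonal_mul] at h2
    exact mul_right_cancel₀ hij (by rw [h2, one_mul])
  refine ⟨h1 i j h, ?_⟩
  have h2 := h1 _ _ (tau_ne nlie h)
  have h3 := tau j
  rwa [h2, one_mul] at h3

theorem diag_mul (tau : ∀ i, l (D.τ i) * l i = 1) (nlie : IsLie D N)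
    (nl : Matrix.diagonal l * N = N) {a : I → ℂ} (ha : ∀ i j, a i = a j ↔ l i = l j)
    (haS : IsLie D (Matrix.diagonal a)) : Matrix.diagonal a * N = 0 := by
  ext i j
  rw [Matrix.diagonal_mul, Matrix.zero_apply]
  by_cases h : N i j = 0
  · rw [h, mul_zero]
  · have h1 := (one_of tau nlie nl h).1
    have h2 : l (D.τ i) = 1 := by
      have h3 := tau i
      rwa [h1, mul_one] at h3
    have h4 : a i = a (D.τ i) := (ha _ _).2 (by rw [h1, h2])
    have h5 := diag_tau haS i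
    rw [← h4] at h5
    have h6 : a i = 0 := by
      have h7 : (2 : ℂ) * a i = 0 := by rw [two_mul]; exact h5
      exact (mul_eq_zero.1 h7).resolve_left two_ne_zero
    rw [h6, zero_mul]

/-- everything about the situation at level `m` that the assembly needs -/
theorem core (g1 : R6aStatement) (p2 : P2Statement) (e2 : E2Statement) (p3 : P3Statement)
    (g4 : G4Statement) (g4b : G4bStatement) (hE : CSys D At Bt l Γ lb b)
    (h1 : ∀ U : Submodule ℂ (I → ℂ), StabU D At Γ U →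
      (∀ v ∈ U, ∀ w ∈ U, dotProduct v ((Psi D).mulVec w) = 0) → U = ⊥)
    (nlie : IsLie D N) (nfix : ∀ L u, At L u → aT N u = 0) (nl : Matrix.diagonal l * N = N)
    (m : ℕ) (hm : 2 ≤ m) :
    ∃ (ι : Type) (_ : Fintype ι) (len : ι → ℕ) (t s : Tup I len) (x : Matrix I I ℂ) (k a : I → ℂ),
      LvlP D At l m len t s x k ∧ (∀ i j, a i = a j ↔ l i = l j) ∧
      (∀ i, (starRingEnd ℂ) (a i) = a i) ∧ Matrix.diagonal a ∈ stab D s ∧
      (∀ z, At 2 z → (∀ A ∈ stab D s, opM D z * A = A * opM D z) ∧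
        opM D z * Matrix.diagonal k = Matrix.diagonal k * opM D z) ∧
      (∀ i, ‖k i‖ = 1) ∧ (∀ A ∈ stab D s, A.conjTranspose ∈ stab D s) ∧
      (∀ A ∈ stab D s,
        Matrix.diagonal k * A * Matrix.diagonal (fun i => (k i)⁻¹) ∈ stab D s) ∧
      (∀ U : Submodule ℂ (I → ℂ), (∀ A ∈ stab D s, ∀ v ∈ U, A.mulVec v ∈ U) →
        (∀ e ∈ {e | ∃ z, At 2 z ∧ e = opM D z}, ∀ v ∈ U, e.mulVec v ∈ U) →
        (∀ v ∈ U, ∀ w ∈ U, dotProduct v ((Psi D).mulVec w) = 0) → U = ⊥) ∧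
      (∀ U : Submodule ℂ (I → ℂ), (∀ A ∈ stab D s, ∀ v ∈ U, A.mulVec v ∈ U) →
        (∀ e ∈ {e | ∃ z, At 2 z ∧ e = opM D z}, ∀ v ∈ U, e.mulVec v ∈ U) →
        StabU D At Γ U) ∧
      N ∈ stab D s ∧ Matrix.diagonal a * N = 0 := by
  obtain ⟨ι, _, len, t, s, x, k, h, ⟨g, hg, hlim⟩, hNs⟩ := g1 D At Bt l Γ lb b hE m
  have hL := h.lvl
  obtain ⟨a, ha, har, haS⟩ := p3 D s l hE.typ_eq hE.odd hE.tau hE.ratio hL.fix
  have com := g4b D At Bt l Γ lb b hE _ hm len t s x k h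
  obtain ⟨hxi, hx1, hx2⟩ := alg1.G_inv D x hL.grp
  have hkn : ∀ i, ‖k i‖ = 1 := by
    intro i
    have h1 := congrFun (congrFun hL.cpt.2 i) i
    rw [Matrix.mul_diagonal, Matrix.conjTranspose_apply, Matrix.diagonal_apply_eq,
      Matrix.one_apply_eq] at h1
    have h2 : ((‖k i‖ ^ 2 : ℝ) : ℂ) = 1 := by
      rw [← h1, mul_comm, Complex.ofReal_pow]
      exact (Complex.mul_conj' (k i)).symm
    have h3 : ‖k i‖ ^ 2 = 1 := by exact_mod_cast h2
    have h4 : (0 : ℝ) ≤ ‖k i‖ := norm_nonneg _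
    nlinarith
  -- stable subspaces
  have hst : ∀ U : Submodule ℂ (I → ℂ), (∀ A ∈ stab D s, ∀ v ∈ U, A.mulVec v ∈ U) →
      (∀ e ∈ {e | ∃ z, At 2 z ∧ e = opM D z}, ∀ v ∈ U, e.mulVec v ∈ U) →
      StabU D At Γ (U.map (Matrix.toLin' x)) := by
    intro U h1 h2
    exact Hsix.stabU_map hx1 (fun z hz => (com z hz).2.2) (fun z hz => h2 _ ⟨z, hz, rfl⟩)
      (g4 D s (Hsix.conjS Γ x) hL.min
        (Hsix.conjS_fix hL.grp hL.eq hE.grp hE.gfix hL.mem) U h1)
  have hinj : Function.Injective (Matrix.toLin' x) := by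
    intro v w hvw
    have h1 := congrArg (Matrix.toLin' x⁻¹) hvw
    rwa [← LinearMap.comp_apply, ← LinearMap.comp_apply, ← Matrix.toLin'_mul, hx2,
      Matrix.toLin'_one, LinearMap.id_apply, LinearMap.id_apply] at h1
  have hbot : ∀ U : Submodule ℂ (I → ℂ), U.map (Matrix.toLin' x) = ⊥ → U = ⊥ := by
    intro U h1
    rw [eq_bot_iff]
    intro v hv
    have h2 : Matrix.toLin' x v ∈ U.map (Matrix.toLin' x) := ⟨v, hv, rfl⟩
    rw [h1, Submodule.mem_bot] at h2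
    rw [Submodule.mem_bot]
    exact hinj (by rw [h2, map_zero])
  have hiso : ∀ U : Submodule ℂ (I → ℂ), (∀ A ∈ stab D s, ∀ v ∈ U, A.mulVec v ∈ U) →
      (∀ e ∈ {e | ∃ z, At 2 z ∧ e = opM D z}, ∀ v ∈ U, e.mulVec v ∈ U) →
      (∀ v ∈ U, ∀ w ∈ U, dotProduct v ((Psi D).mulVec w) = 0) → U = ⊥ := by
    intro U h2 h3 h4
    have h5 := h1 (U.map (Matrix.toLin' x)) (hst U h2 h3) (by
      rintro _ ⟨v, hv, rfl⟩ _ ⟨w, hw, rfl⟩
      rw [Matrix.toLin'_apply, Matrix.toLin'_apply, Hsix.psi_map hL.grp]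
      exact h4 v hv w hw)
    exact hbot U h5
  have hNS : N ∈ stab D s := ⟨nlie, hNs N (fun i j hij => by
    obtain ⟨h1, h2⟩ := one_of hE.tau nlie nl hij
    rw [h1, h2]) nfix⟩
  refine ⟨ι, ‹_›, len, t, s, x, k, a, h, ha, har, haS, fun z hz => ⟨(com z hz).1, (com z hz).2.1⟩,
    hkn, p2 D s hL.min, e2 D s k hL.min hL.cpt hL.key, hiso, ?_, hNS,
    diag_mul hE.tau nlie nl ha haS.1⟩
  intro U hU1 hU2
  exact R6b.stable_stabU hE h1 hm h hg hlim hU1 fun z hz => hU2 _ ⟨z, hz, rfl⟩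

/-- the last step -/
theorem concl (hE : CSys D At Bt l Γ lb b) {m : ℕ} {ι : Type} [Fintype ι] {len : ι → ℕ}
    {t s : Tup I len} {x : Matrix I I ℂ} {k : I → ℂ} (h : LvlP D At l m len t s x k)
    (h5 : ∀ (L : ℕ) (u : Ten I L), Even L → (∀ A ∈ stab D s, aT A u = 0) →
      gT (Matrix.diagonal k) u = u) {L : ℕ} (hLm : L ≤ m) (u : Ten I L)
    (hu : u ∈ Submodule.span ℝ {u | At L u}) (hu0 : u ≠ 0) :
    ∃ r : ℝ, 0 < r ∧ psiT D u u = (r : ℂ) := by
  have hL := h.lvl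
  have hev := Six.even_of hE.odd hL.grp hL.eq fun i => hE.sys.even _ _ (hL.mem i)
  have hfix : gS (Matrix.diagonal k) s = s := by
    funext i
    change gT (Matrix.diagonal k) (s i) = s i
    rcases Nat.even_or_odd (len i) with he | hod
    · exact h5 (len i) (s i) he fun A hA => congrFun hA.2 i
    · rw [Six.odd_zero hE.odd hod (hev i), Six.gT_zero]
  exact Six.pos_tup alg1 hE.sys (hE.nd L) hL.mem (hL.span L hLm) hL.grp hL.eq
    (hL.key.symm.trans hfix) u hu hu0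

end B6

/-- Row R6. -/
theorem b6 : R6Statement := by
  intro g1 p2 e2 p3 g4 g4b h5 I Λ _ _ _ D At Bt l Γ β _ lb b N hE L u hu hu0
  obtain ⟨ι, _, len, t, s, x, k, a, h, ha, har, haS, com, hkn, hstar, hk, hiso, hst, hNS, haN⟩ :=
    B6.core g1 p2 e2 p3 g4 g4b hE.toCSys hE.h1 hE.nlie hE.nfix hE.nl (max L 2)
      (le_max_right L 2)
  refine B6.concl hE.toCSys h ?_ (le_max_left L 2) u hu hu0
  refine h5 (Six.stabS alg1 D s) {e | ∃ z, At 2 z ∧ e = opM D z} (Psi D)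
    (fun A hA B hB => Six.stab_br alg1 hA hB) hstar
    (by
      rintro _ ⟨z, hz, rfl⟩ A hA
      exact (com z hz).1 A hA)
    (fun A hA => hA.1.2) Hsix.psi_unit a har haS k hkn
    (fun i j hij => h.blk i j ((ha i j).1 hij))
    (by
      rintro _ ⟨z, hz, rfl⟩
      exact (com z hz).2)
    h.lvl.cpt.1.2 hk hiso N hNS hE.n2 haN
    (fun U h1 h2 h3 => hE.nst U (hst U h1 h2) h3)

end Pool.Agent.Lib.MP_361a6f_ag.FL.E.BR
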