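import Pool.Agent.Lib.MP_361a6f_ag.FL.E.DefsH
import Pool.Agent.Lib.MP_361a6f_ag.FL.E.LemR

/-!
# Theorem BR (finding 5391): one place of bad reduction. Data and rows

`S` is a Lie algebra of matrices closed under `*`, `A0 = diag a` a real element, `zen S A0` the
centre of the centraliser of `A0` in `S`. `N` is the monodromy: `N N = 0`, `A0 N = 0`.
-/

open Filter Topology MeasureTheory

namespace Pool.Agent.Lib.MP_361a6f_ag.FL.E.BR

/-- the centre of the centraliser of `A0` in `S` -/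
def zen {I : Type} [Fintype I] [DecidableEq I] (S : Submodule ℂ (Matrix I I ℂ))
    (A0 : Matrix I I ℂ) : Set (Matrix I I ℂ) :=
  {y | y ∈ S ∧ y * A0 = A0 * y ∧ ∀ A ∈ S, A * A0 = A0 * A → y * A = A * y}

/-- closed under commutators and conjugate transposition -/
structure LieStar {I : Type} [Fintype I] [DecidableEq I] (S : Submodule ℂ (Matrix I I ℂ)) :
    Prop where
  lie : ∀ A ∈ S, ∀ B ∈ S, A * B - B * A ∈ S
  star : ∀ A ∈ S, A.conjTranspose ∈ S

/-- the situation in a basis of joint eigenvectors of `zen` -/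
structure ZSit {I : Type} [Fintype I] [DecidableEq I] (S : Submodule ℂ (Matrix I I ℂ))
    (κ a : I → ℂ) : Prop extends LieStar S where
  ne : ∀ i, κ i ≠ 0
  ad : ∀ A ∈ S, Matrix.diagonal κ * A * Matrix.diagonal (fun i => (κ i)⁻¹) ∈ S
  mem : Matrix.diagonal a ∈ S
  real : ∀ i, (starRingEnd ℂ) (a i) = a i
  eq : ∀ i j, a i = a j → κ i = κ j
  dia : ∀ y ∈ zen S (Matrix.diagonal a), ∃ T, y = Matrix.diagonal T

/-- `x` is homogeneous of type `(α, c)` for `zen` and `κ` -/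
structure HomZ {I : Type} [Fintype I] [DecidableEq I] (S : Submodule ℂ (Matrix I I ℂ))
    (κ a : I → ℂ) (x : Matrix I I ℂ) (α : (I → ℂ) → ℂ) (c : ℂ) : Prop where
  mem : x ∈ S
  ne : x ≠ 0
  wt : ∀ i j, x i j ≠ 0 → ∀ T, Matrix.diagonal T ∈ zen S (Matrix.diagonal a) → T i - T j = α T
  kk : ∀ i j, x i j ≠ 0 → κ i = c * κ j

/-- the weights of `i` and `j` differ by a sum of types, and `κ i = (∏ c) κ j` -/
def ConnZ {I : Type} [Fintype I] [DecidableEq I] (S : Submodule ℂ (Matrix I I ℂ))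
    (κ a : I → ℂ) (i j : I) : Prop :=
  ∃ s : Multiset (LemR.Tri I), (∀ p ∈ s, HomZ S κ a p.1 p.2.1 p.2.2) ∧
    (∀ T, Matrix.diagonal T ∈ zen S (Matrix.diagonal a) →
      T i = T j + (s.map fun p => p.2.1 T).sum) ∧
    κ i = (s.map fun p => p.2.2).prod * κ j

/-- Row R1 (Lemma L): `LemR.prod_one` and `LemR.prod_eq` for the torus `zen`. -/
def R1Statement : Prop :=
  ∀ {I : Type} [Fintype I] [DecidableEq I] (S : Submodule ℂ (Matrix I I ℂ)) (κ a : I → ℂ),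
    ZSit S κ a → (∀ i, ConnZ S κ a i i) ∧
      (∀ i j l, ∀ A ∈ S, A i j ≠ 0 → ConnZ S κ a j l → ConnZ S κ a i l) ∧
      ∀ (n : ℕ) (w b : Fin n → I), (∀ j, ConnZ S κ a (w j) (b j)) →
        (∀ T, Matrix.diagonal T ∈ zen S (Matrix.diagonal a) →
          ∑ j, T (w j) = ∑ j, T (b j)) → ∏ j, κ (w j) = ∏ j, κ (b j)

/-- Row R2: the Moore-Penrose inverse `R` of `N`; `N R - R N` is in the Lie algebra. -/
def R2Statement : Prop :=
  ∀ {I : Type} [Fintype I] [DecidableEq I] (S : Submodule ℂ (Matrix I I ℂ)), LieStar S →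
    ∀ N ∈ S, N * N = 0 → ∃ R : Matrix I I ℂ, N * R * N = N ∧ R * N * R = R ∧ R * R = 0 ∧
      (N * R).conjTranspose = N * R ∧ (R * N).conjTranspose = R * N ∧ N * R - R * N ∈ S ∧
      ∀ y : Matrix I I ℂ, y * N = N * y → y * N.conjTranspose = N.conjTranspose * y →
        y * R = R * y

/-- Row R3: the top level lemma. `P - Q` is a grading of `S` with the values `1, 0, -1`. -/
def R3Statement : Prop :=
  ∀ {I : Type} [Fintype I] [DecidableEq I] (S : Submodule ℂ (Matrix I I ℂ)), LieStar S →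
    ∀ A0 P Q : Matrix I I ℂ, A0 ∈ S → A0.conjTranspose = A0 → P.conjTranspose = P →
      Q.conjTranspose = Q → P * P = P → Q * Q = Q → P * Q = 0 → Q * P = 0 → P - Q ∈ S →
      A0 * P = 0 → A0 * Q = 0 → ∀ y ∈ zen S A0, ∀ l : List (Matrix I I ℂ), (∀ A ∈ l, A ∈ S) →
      P * l.prod * P * y = y * (P * l.prod * P)

/-- Row R4: `zen` acts by `0` on the image of `N` and of `N*` (no isotropic stable subspace), and
the images of `N` and `N*` generate the space (no stable subspace is killed by `N`). -/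
def R4Statement : Prop :=
  ∀ {I : Type} [Fintype I] [DecidableEq I] (S : Submodule ℂ (Matrix I I ℂ))
    (E : Set (Matrix I I ℂ)) (P : Matrix I I ℂ), LieStar S →
    (∀ e ∈ E, ∀ A ∈ S, e * A = A * e) → (∀ A ∈ S, A.transpose * P + P * A = 0) → IsUnit P →
    ∀ A0 ∈ S, A0.conjTranspose = A0 →
    (∀ U : Submodule ℂ (I → ℂ), (∀ A ∈ S, ∀ v ∈ U, A.mulVec v ∈ U) →
      (∀ e ∈ E, ∀ v ∈ U, e.mulVec v ∈ U) →
      (∀ v ∈ U, ∀ w ∈ U, dotProduct v (P.mulVec w) = 0) → U = ⊥) →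
    ∀ N ∈ S, N * N = 0 → A0 * N = 0 →
    (∀ U : Submodule ℂ (I → ℂ), (∀ A ∈ S, ∀ v ∈ U, A.mulVec v ∈ U) →
      (∀ e ∈ E, ∀ v ∈ U, e.mulVec v ∈ U) → (∀ v ∈ U, N.mulVec v = 0) → U = ⊥) →
    (∀ y ∈ zen S A0, y * N = 0 ∧ y * N.conjTranspose = 0) ∧
      ∀ v : I → ℂ, v ∈ Submodule.span ℂ {v | ∃ l : List (Matrix I I ℂ), (∀ A ∈ l, A ∈ S) ∧
        ∃ w : I → ℂ, v = (l.prod * N).mulVec w ∨ v = (l.prod * N.conjTranspose).mulVec w}

/-- Row R5: `H5Statement` with the four pieces replaced by the monodromy `N`. -/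
def R5Statement : Prop :=
  ∀ {I : Type} [Fintype I] [DecidableEq I] (S : Submodule ℂ (Matrix I I ℂ))
    (E : Set (Matrix I I ℂ)) (P : Matrix I I ℂ),
    (∀ x ∈ S, ∀ y ∈ S, x * y - y * x ∈ S) → (∀ x ∈ S, x.conjTranspose ∈ S) →
    (∀ e ∈ E, ∀ A ∈ S, e * A = A * e) → (∀ A ∈ S, A.transpose * P + P * A = 0) → IsUnit P →
    ∀ a : I → ℂ, (∀ i, (starRingEnd ℂ) (a i) = a i) → Matrix.diagonal a ∈ S →
    ∀ k : I → ℂ, (∀ i, ‖k i‖ = 1) → (∀ i j, a i = a j → k i = k j) →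
    (∀ e ∈ E, e * Matrix.diagonal k = Matrix.diagonal k * e) →
    (Matrix.diagonal k).transpose * P * Matrix.diagonal k = P →
    (∀ A ∈ S, Matrix.diagonal k * A * Matrix.diagonal (fun i => (k i)⁻¹) ∈ S) →
    (∀ U : Submodule ℂ (I → ℂ), (∀ A ∈ S, ∀ v ∈ U, A.mulVec v ∈ U) →
      (∀ e ∈ E, ∀ v ∈ U, e.mulVec v ∈ U) →
      (∀ v ∈ U, ∀ w ∈ U, dotProduct v (P.mulVec w) = 0) → U = ⊥) →
    ∀ N ∈ S, N * N = 0 → Matrix.diagonal a * N = 0 →
    (∀ U : Submodule ℂ (I → ℂ), (∀ A ∈ S, ∀ v ∈ U, A.mulVec v ∈ U) →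
      (∀ e ∈ E, ∀ v ∈ U, e.mulVec v ∈ U) → (∀ v ∈ U, N.mulVec v = 0) → U = ⊥) →
    ∀ (L : ℕ) (u : Ten I L), Even L → (∀ A ∈ S, aT A u = 0) → gT (Matrix.diagonal k) u = u

/-- the data of Theorem BR: `HSys` with the four pieces replaced by the monodromy `N` -/
structure BSys {I Λ : Type} [Fintype I] [DecidableEq I] [DecidableEq Λ] (D : Dat I Λ)
    (At Bt : (L : ℕ) → Ten I L → Prop) (l : I → ℂ) (Γ : Set (Matrix I I ℂ)) {β : Type} [Fintype β]
    (lb : β → ℕ) (b : Tup I lb) (N : Matrix I I ℂ) : Prop extends CSys D At Bt l Γ lb b where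
  h1 : ∀ U : Submodule ℂ (I → ℂ), StabU D At Γ U →
    (∀ v ∈ U, ∀ w ∈ U, dotProduct v ((Psi D).mulVec w) = 0) → U = ⊥
  n2 : N * N = 0
  nlie : IsLie D N
  nfix : ∀ L u, At L u → aT N u = 0
  nl : Matrix.diagonal l * N = N
  nst : ∀ U : Submodule ℂ (I → ℂ), StabU D At Γ U → (∀ v ∈ U, N.mulVec v = 0) → U = ⊥

/-- THEOREM BR in coordinates: `ψ` is positive definite on the real span of the system. -/
def ThmBStatement : Prop :=
  ∀ {I Λ : Type} [Fintype I] [DecidableEq I] [DecidableEq Λ] (D : Dat I Λ)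
    (At Bt : (L : ℕ) → Ten I L → Prop) (l : I → ℂ) (Γ : Set (Matrix I I ℂ))
    {β : Type} [Fintype β] (lb : β → ℕ) (b : Tup I lb) (N : Matrix I I ℂ),
    BSys D At Bt l Γ lb b N → ∀ (L : ℕ) (u : Ten I L),
      u ∈ Submodule.span ℝ {u | At L u} → u ≠ 0 → ∃ r : ℝ, 0 < r ∧ psiT D u u = (r : ℂ)

/-- Row R6a: row G1 with the information that the tuple `s` is a limit of block scalar translates
of `t`; in particular a matrix that commutes with the block scalars and kills `t` kills `s`. -/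
def R6aStatement : Prop :=
  ∀ {I Λ : Type} [Fintype I] [DecidableEq I] [DecidableEq Λ] (D : Dat I Λ)
    (At Bt : (L : ℕ) → Ten I L → Prop) (l : I → ℂ) (Γ : Set (Matrix I I ℂ))
    {β : Type} [Fintype β] (lb : β → ℕ) (b : Tup I lb),
    CSys D At Bt l Γ lb b → ∀ m : ℕ, ∃ (ι : Type) (_ : Fintype ι) (len : ι → ℕ) (t s : Tup I len)
      (x : Matrix I I ℂ) (k : I → ℂ), LvlP D At l m len t s x k ∧
      (∃ g : ℕ → Matrix I I ℂ, (∀ j, IsGb D b (g j)) ∧
        Tendsto (fun j => gS (g j) t) atTop (𝓝 s)) ∧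
      ∀ N : Matrix I I ℂ, (∀ i j, N i j ≠ 0 → l i = l j) → (∀ L u, At L u → aT N u = 0) →
        aS N s = 0

/-- Row R6: the assembly (as `H6`). -/
def R6Statement : Prop :=
  R6aStatement → P2Statement → E2Statement → P3Statement → G4Statement → G4bStatement →
    R5Statement → ThmBStatement

end Pool.Agent.Lib.MP_361a6f_ag.FL.E.BR
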