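import Pool.Agent.Lib.MP_361a6f_ag.FL.E.BR.Defs

/-!
# Theorem BR+: at most two good pieces. Data and rows

The hypotheses `four` (Theorem E3) and `nst` (Theorem BR) are replaced by one: the space is not the
direct sum of four nonzero stable subspaces, three of which are killed by the monodromy `N`.
`N = 0` is allowed.
-/

open Filter Topology MeasureTheory

namespace Pool.Agent.Lib.MP_361a6f_ag.FL.E.BR

/-- Row R1m: the diagonal matrix dual to a type, in `zen`. -/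
def R1mStatement : Prop :=
  ∀ {I : Type} [Fintype I] [DecidableEq I] (S : Submodule ℂ (Matrix I I ℂ)) (κ a : I → ℂ),
    ZSit S κ a → ∀ (x : Matrix I I ℂ) (α : (I → ℂ) → ℂ) (c : ℂ), HomZ S κ a x α c →
      ∃ (m : I → ℝ) (d : ℝ), 0 < d ∧
        Matrix.diagonal (fun i => (m i : ℂ)) ∈ zen S (Matrix.diagonal a) ∧
        (∀ T, Matrix.diagonal T ∈ zen S (Matrix.diagonal a) →
          ∑ i, T i * (m i : ℂ) = (d : ℂ) * α T) ∧
        (∀ i, 0 < m i → ∃ y l, HomZ S κ a y α c ∧ y i l ≠ 0) ∧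
        (∀ i, m i < 0 → ∃ y l, HomZ S κ a y α c ∧ y l i ≠ 0)

/-- Row R4a: `zen` acts by `0` on the image of `N` and of `N*` (no isotropic stable subspace). -/
def R4aStatement : Prop :=
  ∀ {I : Type} [Fintype I] [DecidableEq I] (S : Submodule ℂ (Matrix I I ℂ))
    (E : Set (Matrix I I ℂ)) (P : Matrix I I ℂ), LieStar S →
    (∀ e ∈ E, ∀ A ∈ S, e * A = A * e) → (∀ A ∈ S, A.transpose * P + P * A = 0) → IsUnit P →
    ∀ A0 ∈ S, A0.conjTranspose = A0 →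
    (∀ U : Submodule ℂ (I → ℂ), (∀ A ∈ S, ∀ v ∈ U, A.mulVec v ∈ U) →
      (∀ e ∈ E, ∀ v ∈ U, e.mulVec v ∈ U) →
      (∀ v ∈ U, ∀ w ∈ U, dotProduct v (P.mulVec w) = 0) → U = ⊥) →
    ∀ N ∈ S, N * N = 0 → A0 * N = 0 →
    ∀ y ∈ zen S A0, y * N = 0 ∧ y * N.conjTranspose = 0

/-- Row R5p: `H5Statement` and `R5Statement` in one. -/
def R5pStatement : Prop :=
  ∀ {I : Type} [Fintype I] [DecidableEq I] (S : Submodule ℂ (Matrix I I ℂ))
    (E : Set (Matrix I I ℂ)) (P : Matrix I I ℂ),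
    (∀ x ∈ S, ∀ y ∈ S, x * y - y * x ∈ S) → (∀ x ∈ S, x.conjTranspose ∈ S) →
    (∀ e ∈ E, ∀ A ∈ S, e * A = A * e) → (∀ A ∈ S, A.transpose * P + P * A = 0) → IsUnit P →
    ∀ a : I → ℂ, (∀ i, (starRingEnd ℂ) (a i) = a i) → Matrix.diagonal a ∈ S →
    ∀ k : I → ℂ, (∀ i, ‖k i‖ = 1) → (∀ i j, a i = a j → k i = k j) →
    (∀ e ∈ E, e * Matrix.diagonal k = Matrix.diagonal k * e) →
    (Matrix.diagonal k).transpose * P * Matrix.diagonal k = P →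
    (∀ A ∈ S, Matrix.diagonal k * A * Matrix.diagonal (fun i => (k i)⁻¹) ∈ S) →
    (∀ U : Submodule ℂ (I → ℂ), (∀ A ∈ S, ∀ v ∈ U, A.mulVec v ∈ U) →
      (∀ e ∈ E, ∀ v ∈ U, e.mulVec v ∈ U) →
      (∀ v ∈ U, ∀ w ∈ U, dotProduct v (P.mulVec w) = 0) → U = ⊥) →
    ∀ N ∈ S, N * N = 0 → Matrix.diagonal a * N = 0 →
    (∀ U : Fin 4 → Submodule ℂ (I → ℂ), (∀ i, (∀ A ∈ S, ∀ v ∈ U i, A.mulVec v ∈ U i) ∧
      (∀ e ∈ E, ∀ v ∈ U i, e.mulVec v ∈ U i)) → (∀ i, U i ≠ ⊥) → iSupIndep U →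
      (⨆ i, U i) = ⊤ → (∀ i, i ≠ 0 → ∀ v ∈ U i, N.mulVec v = 0) → False) →
    ∀ (L : ℕ) (u : Ten I L), Even L → (∀ A ∈ S, aT A u = 0) → gT (Matrix.diagonal k) u = u

/-- the data of Theorem BR+ -/
structure PSysB {I Λ : Type} [Fintype I] [DecidableEq I] [DecidableEq Λ] (D : Dat I Λ)
    (At Bt : (L : ℕ) → Ten I L → Prop) (l : I → ℂ) (Γ : Set (Matrix I I ℂ)) {β : Type} [Fintype β]
    (lb : β → ℕ) (b : Tup I lb) (N : Matrix I I ℂ) : Prop extends CSys D At Bt l Γ lb b where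
  h1 : ∀ U : Submodule ℂ (I → ℂ), StabU D At Γ U →
    (∀ v ∈ U, ∀ w ∈ U, dotProduct v ((Psi D).mulVec w) = 0) → U = ⊥
  n2 : N * N = 0
  nlie : IsLie D N
  nfix : ∀ L u, At L u → aT N u = 0
  nl : Matrix.diagonal l * N = N
  h4 : ∀ U : Fin 4 → Submodule ℂ (I → ℂ), (∀ i, StabU D At Γ (U i)) → (∀ i, U i ≠ ⊥) →
    iSupIndep U → (⨆ i, U i) = ⊤ → (∀ i, i ≠ 0 → ∀ v ∈ U i, N.mulVec v = 0) → False

/-- THEOREM BR+ in coordinates: `ψ` is positive definite on the real span of the system. -/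
def ThmBpStatement : Prop :=
  ∀ {I Λ : Type} [Fintype I] [DecidableEq I] [DecidableEq Λ] (D : Dat I Λ)
    (At Bt : (L : ℕ) → Ten I L → Prop) (l : I → ℂ) (Γ : Set (Matrix I I ℂ))
    {β : Type} [Fintype β] (lb : β → ℕ) (b : Tup I lb) (N : Matrix I I ℂ),
    PSysB D At Bt l Γ lb b N → ∀ (L : ℕ) (u : Ten I L),
      u ∈ Submodule.span ℝ {u | At L u} → u ≠ 0 → ∃ r : ℝ, 0 < r ∧ psiT D u u = (r : ℂ)

end Pool.Agent.Lib.MP_361a6f_ag.FL.E.BR
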