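import Pool.Agent.Lib.MP_361a6f_ag.FL.E.DefsK
import Pool.Agent.Lib.MP_361a6f_ag.FL.E.BR.DefsP

/-!
# Theorem KB: Theorem K and Theorem BR+ in one. Data and rows

As Theorem K; in the condition on the parities the decomposition has at most one piece which is not
killed by the monodromy `N`. `N = 0` is allowed.
-/

open Filter Topology

namespace Pool.Agent.Lib.MP_361a6f_ag.FL.E.BR

/-- the condition on the parities in length `L` for the decompositions with at most one piece which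
is not killed by `N` -/
def KCondB {I Λ : Type} [Fintype I] [DecidableEq I] (D : Dat I Λ)
    (At : (L : ℕ) → Ten I L → Prop) (Γ : Set (Matrix I I ℂ)) (N : Matrix I I ℂ) (L : ℕ) : Prop :=
  ∃ M : ℕ, ∀ (B : Type) [Fintype B] [DecidableEq B] (π : B → Matrix I I ℂ), Dec D At Γ π →
    (∀ b b', N * π b ≠ 0 → N * π b' ≠ 0 → b = b') →
    (∀ L', L' ≤ M → ∀ (c : Fin L' → B) (u : Ten I L'), At L' u →
      Rot.slT (fun j => π (c j)) u ≠ 0 → (odds c).card ≠ 2) →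
    ∀ (c : Fin L → B) (u : Ten I L), At L u → Rot.slT (fun j => π (c j)) u ≠ 0 → odds c = ∅

/-- the data of Theorem KB -/
structure KSysB {I Λ : Type} [Fintype I] [DecidableEq I] [DecidableEq Λ] (D : Dat I Λ)
    (At Bt : (L : ℕ) → Ten I L → Prop) (l : I → ℂ) (Γ : Set (Matrix I I ℂ)) {β : Type} [Fintype β]
    (lb : β → ℕ) (b : Tup I lb) (N : Matrix I I ℂ) : Prop extends CSys D At Bt l Γ lb b where
  h1 : ∀ U : Submodule ℂ (I → ℂ), StabU D At Γ U →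
    (∀ v ∈ U, ∀ w ∈ U, dotProduct v ((Psi D).mulVec w) = 0) → U = ⊥
  n2 : N * N = 0
  nlie : IsLie D N
  nfix : ∀ L u, At L u → aT N u = 0
  nl : Matrix.diagonal l * N = N

/-- THEOREM KB in coordinates: `ψ` is positive definite on the real span of the tensors of length
`L` of the system. -/
def ThmKBStatement : Prop :=
  ∀ {I Λ : Type} [Fintype I] [DecidableEq I] [DecidableEq Λ] (D : Dat I Λ)
    (At Bt : (L : ℕ) → Ten I L → Prop) (l : I → ℂ) (Γ : Set (Matrix I I ℂ))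
    {β : Type} [Fintype β] (lb : β → ℕ) (b : Tup I lb) (N : Matrix I I ℂ),
    KSysB D At Bt l Γ lb b N → ∀ L : ℕ, KCondB D At Γ N L → ∀ u : Ten I L,
      u ∈ Submodule.span ℝ {u | At L u} → u ≠ 0 → ∃ r : ℝ, 0 < r ∧ psiT D u u = (r : ℂ)

/-- Row K1z: `K1Statement` with the monodromy `N`; at most one class is not killed by `N`. -/
def K1zStatement : Prop :=
  ∀ {I : Type} [Fintype I] [DecidableEq I] (S : Submodule ℂ (Matrix I I ℂ))
    (E : Set (Matrix I I ℂ)) (P : Matrix I I ℂ),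
    (∀ x ∈ S, ∀ y ∈ S, x * y - y * x ∈ S) → (∀ x ∈ S, x.conjTranspose ∈ S) →
    (∀ e ∈ E, ∀ A ∈ S, e * A = A * e) → (∀ A ∈ S, A.transpose * P + P * A = 0) → IsUnit P →
    ∀ a : I → ℂ, (∀ i, (starRingEnd ℂ) (a i) = a i) → Matrix.diagonal a ∈ S →
    ∀ k : I → ℂ, (∀ i, ‖k i‖ = 1) → (∀ i j, a i = a j → k i = k j) →
    (∀ e ∈ E, e * Matrix.diagonal k = Matrix.diagonal k * e) →
    (Matrix.diagonal k).transpose * P * Matrix.diagonal k = P →
    (∀ A ∈ S, Matrix.diagonal k * A * Matrix.diagonal (fun i => (k i)⁻¹) ∈ S) →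
    (∀ U : Submodule ℂ (I → ℂ), (∀ A ∈ S, ∀ v ∈ U, A.mulVec v ∈ U) →
      (∀ e ∈ E, ∀ v ∈ U, e.mulVec v ∈ U) →
      (∀ v ∈ U, ∀ w ∈ U, dotProduct v (P.mulVec w) = 0) → U = ⊥) →
    ∀ N ∈ S, N * N = 0 → Matrix.diagonal a * N = 0 →
    ∃ (B : Type) (_ : Fintype B) (_ : DecidableEq B) (π : B → Matrix I I ℂ), ∑ b, π b = 1 ∧
      (∀ b b', π b * π b' = if b = b' then π b else 0) ∧
      (∀ b, (∀ A ∈ S, A * π b = π b * A) ∧ ∀ e ∈ E, e * π b = π b * e) ∧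
      (∀ b b', N * π b ≠ 0 → N * π b' ≠ 0 → b = b') ∧
      ∀ (L : ℕ) (u : Ten I L), (∀ A ∈ S, aT A u = 0) →
        (∀ c : Fin L → B, Rot.slT (fun j => π (c j)) u ≠ 0 → (odds c).card ≠ 2) ∧
        ((∀ c : Fin L → B, Rot.slT (fun j => π (c j)) u ≠ 0 → odds c = ∅) →
          gT (Matrix.diagonal k) u = u)

/-- Row K2z: the assembly (as R6 and K2). -/
def K2zStatement : Prop :=
  R6aStatement → P2Statement → E2Statement → P3Statement → G4Statement → G4bStatement →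
    K1zStatement → ThmKBStatement

/-- Let `𝓛` be a family of subsets with an even number of elements of the set `R` that is closed
under symmetric differences and under the automorphisms of `ℂ`. It is contained in every family `𝓜`
that contains `∅` and the pairs of elements of `T`, is closed under symmetric differences, and
contains the symmetric difference of a member of `𝓛` and a member of `𝓜` if it has two elements. -/
def GalB (R T : Set ℂ) : Prop :=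
  ∀ 𝓛 : Set (Set ℂ), (∀ S ∈ 𝓛, S ⊆ R ∧ Even S.ncard) →
    (∀ S ∈ 𝓛, ∀ S' ∈ 𝓛, symmDiff S S' ∈ 𝓛) → (∀ S ∈ 𝓛, ∀ γ : ℂ ≃+* ℂ, γ '' S ∈ 𝓛) →
    ∀ 𝓜 : Set (Set ℂ), ∅ ∈ 𝓜 → (∀ S ∈ 𝓜, ∀ S' ∈ 𝓜, symmDiff S S' ∈ 𝓜) →
      (∀ S ∈ 𝓛, ∀ S' ∈ 𝓜, (symmDiff S S').ncard = 2 → symmDiff S S' ∈ 𝓜) →
      (∀ a ∈ T, ∀ b ∈ T, a ≠ b → {a, b} ∈ 𝓜) → 𝓛 ⊆ 𝓜

/-- Row K3z: as row K3, with a set `T` of eigenvalues on whose eigenspaces `N` is not zero. -/
def K3zStatement : Prop :=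
  ∀ {I Λ : Type} [Fintype I] [DecidableEq I] [DecidableEq Λ] (D : Dat I Λ)
    (At : (L : ℕ) → Ten I L → Prop) (Γ : Set (Matrix I I ℂ)) (N : Matrix I I ℂ), ASys D At →
    (∀ i j, D.typ i = D.typ j) → (∀ i, D.odd (D.typ i)) → (∀ x ∈ Γ, IsG D x) →
    (∀ x ∈ Γ, ∀ L u, At L u → gT x u = u) →
    (∀ L, ∀ u ∈ Submodule.span ℂ {u | At L u}, u ≠ 0 →
      ∃ v ∈ Submodule.span ℂ {u | At L u}, psiT D u v ≠ 0) →
    ∀ z : Ten I 2, At 2 z → (∀ z', At 2 z' → opM D z * opM D z' = opM D z' * opM D z) →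
    ∀ R : Finset ℂ, (∀ γ : ℂ ≃+* ℂ, ∀ a ∈ R, γ a ∈ R) →
    (∀ v : I → ℂ, v ∈ Submodule.span ℂ {v | ∃ a ∈ R, (opM D z).mulVec v = a • v}) →
    (∀ a ∈ R, ∀ U : Submodule ℂ (I → ℂ), StabU D At Γ U →
      (∀ v ∈ U, (opM D z).mulVec v = a • v) → U ≠ ⊥ →
      ∀ v, (opM D z).mulVec v = a • v → v ∈ U) →
    ∀ T : Set ℂ, T ⊆ (R : Set ℂ) →
    (∀ a ∈ T, ∃ v, (opM D z).mulVec v = a • v ∧ N.mulVec v ≠ 0) →
    GalB (R : Set ℂ) T → ∀ L, KCondB D At Γ N L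

end Pool.Agent.Lib.MP_361a6f_ag.FL.E.BR
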