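import Pool.Agent.Lib.MP_361a6f_ag.FL.E.NSysH
import Pool.Agent.Lib.MP_361a6f_ag.FL.E.BR.Defs
import Pool.Agent.Lib.MP_361a6f_ag.FL.Al1b

/-!
# Theorem BR for the data as they come from geometry

`ofB` transports `ThmBStatement` to the data `NSys` in an arbitrary adapted basis. The monodromy is
given by a matrix `M` of the group with `(M - 1)^2 = 0` that fixes the members of `At`.
-/

open Filter Topology MeasureTheory

set_option autoImplicit false
set_option linter.unusedSectionVars false

namespace Pool.Agent.Lib.MP_361a6f_ag.FL.E.BR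

open Pool.Agent.Lib.MP_361a6f_ag.FL.E.QS

variable {I Λ : Type} [Fintype I] [DecidableEq I] [DecidableEq Λ]

/-- `exists_core` with the information that the columns of `Y` are eigenvectors of `F` -/
theorem exists_coreB (hY : YStatement) (a1 : Alg1) (a2 : Alg2) {D : Dat I Λ}
    {At Ct : (L : ℕ) → Ten I L → Prop} {F : Matrix I I ℂ} {Γ : Set (Matrix I I ℂ)}
    (S : NSys D At Ct F Γ) :
    ∃ (Y : Matrix I I ℂ) (l : I → ℂ) (β : Type) (_ : Fintype β) (lb : β → ℕ) (b : Tup I lb),
      IsG D Y ∧ F * Y = Y * Matrix.diagonal l ∧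
      NCore D (fun L u => At L (gT Y u)) (fun L u => Rsp.Bt Ct L (gT Y u)) l
        {x' | ∃ x ∈ Γ, x' = Y⁻¹ * x * Y} lb b := by
  classical
  obtain ⟨Y, l, hG, hFY, hn, hτ, hj⟩ := rea hY a1 S.odd S.typ_eq S.csys S.pos S.frob S.mten
  obtain ⟨hY1, hY2, hY3⟩ := a1.G_inv D Y hG
  -- the base tuple
  obtain ⟨B, hB1, hB2, hB3⟩ := exists_linearIndependent ℂ {u : Ten I 2 | Ct 2 u}
  have hBfin : B.Finite := hB3.setFinite
  have : Fintype B := hBfin.fintype
  let lb : Option B → ℕ := fun i => i.elim 0 (fun _ => 2)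
  let b : Tup I lb := fun i => match i with
    | none => fun _ => 1
    | some x => gT Y⁻¹ x.1
  have hFl : ∀ i, Module.End.HasEigenvalue (Matrix.toLin' F) (l i) := by
    intro i
    refine Module.End.hasEigenvalue_of_hasEigenvector (x := fun a => Y a i) ?_
    rw [Module.End.hasEigenvector_iff, Module.End.mem_eigenspace_iff]
    constructor
    · funext a
      have h1 := congrFun (congrFun hFY a) i
      rw [Matrix.mul_diagonal] at h1
      rw [Matrix.toLin'_apply, Pi.smul_apply, smul_eq_mul, mul_comm, ← h1]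
      rfl
    · intro h0
      have h1 := congrFun (congrFun hY3 i) i
      rw [Matrix.one_apply_eq, Matrix.mul_apply, Finset.sum_eq_zero] at h1
      · exact zero_ne_one h1
      · intro a _
        have h2 : Y a i = 0 := congrFun h0 a
        rw [h2, mul_zero]
  refine ⟨Y, l, Option B, inferInstance, lb, b, hG, hFY, ?_⟩
  exact
    { sys := asys a1 a2 S.odd hG S.sys
      typ_eq := S.typ_eq
      odd := S.odd
      norm := hn
      tau := hτ
      ratio := fun i j hij n hn => S.ratio _ _ (hFl i) (hFl j) hij n hn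
      fix := by
        intro L u hu
        apply inj a1 hG
        rw [← a1.gT_mul, ← hFY, a1.gT_mul]
        exact S.fix L _ hu
      rsys := rsys a1 a2 hG (Rsp.rsys D S.csys)
      sub := fun L u hu => Submodule.subset_span (S.sub L _ hu)
      bmem := by
        intro i
        match i with
        | none =>
          show Rsp.Bt Ct 0 (gT Y (fun _ => 1))
          rw [gT_const]
          exact Submodule.subset_span S.csys.one
        | some x =>
          show Rsp.Bt Ct 2 (gT Y (gT Y⁻¹ x.1))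
          rw [psi_outer_gT a1 hG]
          exact Submodule.subset_span (hB1 x.2)
      base := by
        refine ⟨?_, none, rfl, fun _ => rfl⟩
        funext i
        match i with
        | none =>
          funext w
          show sg D (D.τ ∘ w) * (starRingEnd ℂ) 1 = 1
          rw [map_one, mul_one, sg]
          exact Fin.prod_univ_zero _
        | some x =>
          exact hj x.1 (Submodule.subset_span (hB1 x.2))
      comm := by
        intro x hx hxb
        have h1 : ∀ u ∈ B, gT (Y * x * Y⁻¹) u = u := by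
          intro u hu
          have h2 : gT x (gT Y⁻¹ u) = gT Y⁻¹ u := congrFun hxb (some ⟨u, hu⟩)
          rw [a1.gT_mul, a1.gT_mul, h2, psi_outer_gT a1 hG]
        have hx' : IsG D (Y * x * Y⁻¹) := a1.G_mul D _ _ (a1.G_mul D _ _ hG hx) hY1
        obtain ⟨-, h3, h4⟩ := a1.G_inv D _ hx'
        have h5 : ∀ u ∈ B, (Y * x * Y⁻¹) * opM D u = opM D u * (Y * x * Y⁻¹) := by
          intro u hu
          have h6 := opM_gT S.odd a1 hx' u
          rw [h1 u hu] at h6
          conv_rhs => rw [h6]
          rw [Matrix.mul_assoc (Y * x * Y⁻¹ * opM D u), h4, Matrix.mul_one]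
        have h7 := S.comm (Y * x * Y⁻¹) fun u hu =>
          comm_span h5 (by rw [hB2]; exact Submodule.subset_span hu)
        obtain ⟨z, hz, hz'⟩ := adjoin_diag hY3 hY2 hFY h7
        refine ⟨z, hz, ?_⟩
        rw [← hz']
        have : Y⁻¹ * (Y * x * Y⁻¹) * Y = (Y⁻¹ * Y) * x * (Y⁻¹ * Y) := by
          simp only [Matrix.mul_assoc]
        rw [this, hY3, Matrix.one_mul, Matrix.mul_one]
      grp := by
        rintro _ ⟨x, hx, rfl⟩
        exact a1.G_mul D _ _ (a1.G_mul D _ _ hY1 (S.grp x hx)) hG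
      gfix := by
        rintro _ ⟨x, hx, rfl⟩ L u hu
        apply inj a1 hG
        rw [a1.gT_mul, a1.gT_mul, psi_outer_gT a1 hG]
        exact S.gfix x hx L _ hu
      nd := by
        intro L u hu hu0
        have h1 : gT Y u ∈ Submodule.span ℂ {u | At L u} := by
          rw [← spanC a1 hG At L]
          exact ⟨u, hu, rfl⟩
        have h2 : gT Y u ≠ 0 := fun h => hu0 (inj a1 hG (h.trans (gT_zero a1 Y).symm))
        obtain ⟨v, hv, hv0⟩ := S.nd L _ h1 h2
        rw [← spanC a1 hG At L] at hv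
        obtain ⟨v', hv', rfl⟩ := hv
        refine ⟨v', hv', ?_⟩
        rw [← a1.psiT_gT D Y u v' hG]
        exact hv0 }

/-! ### From the group to the Lie algebra -/

/-- the entries of `gT (1 + t N) u` are polynomials in `t` -/
theorem gT_poly (N : Matrix I I ℂ) {L : ℕ} (u : Ten I L) (w : Fin L → I) :
    ∃ p : Polynomial ℂ, ∀ t : ℂ, p.eval t = gT (1 + t • N) u w := by
  refine ⟨∑ w', (∏ i, (Polynomial.C ((1 : Matrix I I ℂ) (w i) (w' i)) +
    Polynomial.X * Polynomial.C (N (w i) (w' i)))) * Polynomial.C (u w'), fun t => ?_⟩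
  rw [Polynomial.eval_finsetSum]
  unfold gT
  refine Finset.sum_congr rfl fun w' _ => ?_
  rw [Polynomial.eval_mul, Polynomial.eval_C, Polynomial.eval_prod]
  congr 1
  refine Finset.prod_congr rfl fun i _ => ?_
  rw [Polynomial.eval_add, Polynomial.eval_mul, Polynomial.eval_C, Polynomial.eval_C,
    Polynomial.eval_X, Matrix.add_apply, Matrix.smul_apply, smul_eq_mul]

variable {N : Matrix I I ℂ} (n2 : N * N = 0)

include n2 in
theorem pow_one_add (n : ℕ) : (1 + N) ^ n = 1 + (n : ℂ) • N := by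
  induction n with
  | zero => simp
  | succ n ih =>
    rw [pow_succ, ih, Matrix.add_mul, Matrix.mul_add, Matrix.mul_add, Matrix.smul_mul,
      Matrix.smul_mul, n2, Matrix.mul_one, Matrix.mul_one, Matrix.one_mul, Nat.cast_succ,
      add_smul, one_smul, smul_zero, add_zero]
    abel

include n2 in
theorem exp_eq (t : ℂ) : NormedSpace.exp (t • N) = 1 + t • N := by
  have h : (t • N) * (t • N) = 0 := by rw [Matrix.smul_mul, Matrix.mul_smul, n2, smul_zero,
    smul_zero]
  have h1 : ∀ n : ℕ, 2 ≤ n → (t • N) ^ n = 0 := by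
    intro n hn
    obtain ⟨m, rfl⟩ := Nat.exists_eq_add_of_le hn
    rw [pow_add, pow_two, h, Matrix.zero_mul]
  rw [NormedSpace.exp_eq_tsum ℂ]
  show ∑' n : ℕ, ((n.factorial : ℂ)⁻¹) • (t • N) ^ n = _
  rw [tsum_eq_sum (s := Finset.range 2)]
  · simp [Finset.sum_range_succ]
  · intro n hn
    rw [h1 n (by have := Finset.mem_range.not.1 hn; omega), smul_zero]

include n2 in
/-- what is fixed by `1 + N` is killed by `N` -/
theorem kill_of_fix (a1 : Alg1) {L : ℕ} {u : Ten I L} (hu : gT (1 + N) u = u) : aT N u = 0 := by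
  have h1 : ∀ n : ℕ, gT (1 + (n : ℂ) • N) u = u := by
    intro n
    rw [← pow_one_add n2]
    induction n with
    | zero => rw [pow_zero, a1.gT_one]
    | succ n ih => rw [pow_succ, a1.gT_mul, hu, ih]
  have h2 : ∀ t : ℂ, gT (1 + t • N) u = u := by
    intro t
    funext w
    obtain ⟨p, hp⟩ := gT_poly N u w
    have h3 : p - Polynomial.C (u w) = 0 := by
      refine Polynomial.eq_zero_of_infinite_isRoot _ ?_
      refine (Set.infinite_range_of_injective (f := fun n : ℕ => (n : ℂ))
        Nat.cast_injective).mono ?_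
      rintro _ ⟨n, rfl⟩
      show Polynomial.IsRoot _ _
      rw [Polynomial.IsRoot, Polynomial.eval_sub, Polynomial.eval_C, hp, h1 n, sub_self]
    have h4 := congrArg (Polynomial.eval t) h3
    rw [Polynomial.eval_sub, Polynomial.eval_C, hp, Polynomial.eval_zero] at h4
    exact sub_eq_zero.1 h4
  have h5 := AL1B.hasDerivAt_gT_exp N u (0 : ℂ)
  have h6 : (fun t : ℂ => gT (NormedSpace.exp (t • N)) u) = fun _ => u :=
    funext fun t => by rw [exp_eq n2]; exact h2 t
  rw [h6, exp_eq n2, h2 (0 : ℂ)] at h5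
  exact h5.unique (hasDerivAt_const (0 : ℂ) u)

include n2 in
/-- the logarithm of a unipotent element of the group belongs to the Lie algebra -/
theorem lie_of_G (a1 : Alg1) {D : Dat I Λ} (hG : IsG D (1 + N)) : IsLie D N := by
  have hG2 := a1.G_mul D _ _ hG hG
  constructor
  · intro i j hij
    have h := hG.1 i j hij
    rw [Matrix.add_apply, Matrix.one_apply_ne (fun e => hij (congrArg _ e)), zero_add] at h
    exact h
  · have e1 := hG.2
    have e2 := hG2.2
    have h2 : (1 + N) * (1 + N) = 1 + (2 : ℂ) • N := by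
      have := pow_one_add n2 2
      rw [pow_two] at this
      rw [this]
      norm_num
    rw [h2] at e2
    rw [Matrix.transpose_add, Matrix.transpose_one, Matrix.add_mul, Matrix.one_mul,
      Matrix.mul_add, Matrix.mul_one] at e1
    rw [Matrix.transpose_add, Matrix.transpose_one, Matrix.transpose_smul, Matrix.add_mul,
      Matrix.one_mul, Matrix.mul_add, Matrix.mul_one, Matrix.smul_mul, Matrix.mul_smul] at e2
    simp only [Matrix.add_mul, Matrix.smul_mul] at e1 e2
    ext i j
    have f1 := congrFun (congrFun e1 i) j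
    have f2 := congrFun (congrFun e2 i) j
    simp only [Matrix.add_apply, Matrix.smul_apply, smul_eq_mul, Matrix.zero_apply] at f1 f2 ⊢
    linear_combination (2 : ℂ) * f1 - (1 / 2 : ℂ) * f2

/-! ### Transport -/

/-- **Theorem BR for the data from geometry.** -/
theorem ofB (hY : YStatement) (a1 : Alg1) (a2 : Alg2) (hB : ThmBStatement) {D : Dat I Λ}
    {At Ct : (L : ℕ) → Ten I L → Prop} {F : Matrix I I ℂ} {Γ : Set (Matrix I I ℂ)}
    (S : NSys D At Ct F Γ)
    (h1 : ∀ U : Submodule ℂ (I → ℂ), StabU D At Γ U →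
      (∀ v ∈ U, ∀ w ∈ U, dotProduct v ((Psi D).mulVec w) = 0) → U = ⊥)
    (N : Matrix I I ℂ) (n2 : N * N = 0) (hNG : IsG D (1 + N))
    (hNfix : ∀ L u, At L u → gT (1 + N) u = u) (hNF : F * N = N)
    (nst : ∀ U : Submodule ℂ (I → ℂ), StabU D At Γ U → (∀ v ∈ U, N.mulVec v = 0) → U = ⊥)
    (L : ℕ) (u : Ten I L) (hu : u ∈ Submodule.span ℝ {u | At L u}) (hu0 : u ≠ 0) :
    ∃ r : ℝ, 0 < r ∧ psiT D u u = (r : ℂ) := by
  obtain ⟨Y, l, β, _, lb, b, hG, hFY, C⟩ := exists_coreB hY a1 a2 S
  obtain ⟨hY1, hY2, hY3⟩ := a1.G_inv D Y hG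
  have hconj : ∀ A B : Matrix I I ℂ, Y⁻¹ * A * Y * (Y⁻¹ * B * Y) = Y⁻¹ * (A * B) * Y := by
    intro A B
    have : Y⁻¹ * A * Y * (Y⁻¹ * B * Y) = Y⁻¹ * (A * (Y * Y⁻¹) * B) * Y := by
      simp only [Matrix.mul_assoc]
    rw [this, hY2, Matrix.mul_one]
  have hn2 : Y⁻¹ * N * Y * (Y⁻¹ * N * Y) = 0 := by
    rw [hconj, n2, Matrix.mul_zero, Matrix.zero_mul]
  have h1N : 1 + Y⁻¹ * N * Y = Y⁻¹ * (1 + N) * Y := by
    rw [Matrix.mul_add, Matrix.mul_one, Matrix.add_mul, hY3]
  have hBS : BSys D (fun L u => At L (gT Y u)) (fun L u => Rsp.Bt Ct L (gT Y u)) l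
      {x' | ∃ x ∈ Γ, x' = Y⁻¹ * x * Y} lb b (Y⁻¹ * N * Y) :=
    { toCSys := C.toCSys
      h1 := by
        intro U hU hiso
        have h3 := h1 _ (orb S.odd a1 hG hU.1 hU.2) (by
          rintro _ ⟨v, hv, rfl⟩ _ ⟨w, hw, rfl⟩
          rw [Matrix.toLin'_apply, Matrix.toLin'_apply, iso_G hG]
          exact hiso v hv w hw)
        rw [← map_back a1 hG U, h3, Submodule.map_bot]
      n2 := hn2
      nlie := by
        refine lie_of_G hn2 a1 ?_
        rw [h1N]
        exact a1.G_mul D _ _ (a1.G_mul D _ _ hY1 hNG) hG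
      nfix := by
        intro L u hu
        refine kill_of_fix hn2 a1 ?_
        rw [h1N]
        apply inj a1 hG
        rw [a1.gT_mul, a1.gT_mul, psi_outer_gT a1 hG]
        exact hNfix L _ hu
      nl := by
        have h3 : Matrix.diagonal l = Y⁻¹ * F * Y := by
          rw [Matrix.mul_assoc, hFY, ← Matrix.mul_assoc, hY3, Matrix.one_mul]
        rw [h3, hconj, hNF]
      nst := by
        intro U hU hN
        have h3 := nst _ (orb S.odd a1 hG hU.1 hU.2) (by
          rintro _ ⟨v, hv, rfl⟩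
          have h4 := congrArg (Matrix.mulVec Y) (hN v hv)
          rw [Matrix.mulVec_mulVec, Matrix.mulVec_zero, ← Matrix.mul_assoc, ← Matrix.mul_assoc,
            hY2, Matrix.one_mul] at h4
          rw [Matrix.toLin'_apply, Matrix.mulVec_mulVec]
          exact h4)
        rw [← map_back a1 hG U, h3, Submodule.map_bot] }
  rw [← spanR a1 hG At L] at hu
  obtain ⟨u', hu', rfl⟩ := hu
  have h4 := hB D _ _ _ _ _ _ _ hBS L u' hu' (fun h => hu0 (by rw [h, map_zero]))
  obtain ⟨r, hr, h5⟩ := h4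
  refine ⟨r, hr, ?_⟩
  rw [← h5]
  exact a1.psiT_gT D Y u' u' hG

end Pool.Agent.Lib.MP_361a6f_ag.FL.E.BR
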