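import Pool.Agent.Lib.MP_361a6f_ag.FL.E.StatH

/-!
# Theorem BR: at most three pieces, or one place of bad reduction
-/

open CategoryTheory AlgebraicGeometry MonoidalCategory CartesianMonoidalCategory

universe u v w w'

namespace Pool.Agent.Lib.MP_361a6f_ag.FL

open Pool.Agent.Lib.MP_361a6f_ag.H3 Pool.Agent.Lib.MP_361a6f_ag.SQ

section defs

variable {k : Type u} [Field k] {k' : Type v} [Field k'] {W : CohomologyData.{u, 0, w} k ℂ}
  {W' : CohomologyData.{v, 0, w'} k' ℂ}

/-- The map `T - 1` on `H^*(X)`. -/
def EQ.sub1 {X : Sch k} (T : ∀ P : Prd 1, W.coh (EQ.pw X P) → W.coh (EQ.pw X P))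
    (x : W.coh X) : W.coh X :=
  let y : W.coh X := T (.leaf 0) x
  y - x

/-- The place of the specialisation is a place of bad reduction: there is a symmetry `T` of the
cohomology of the powers of `X` (a local monodromy operator) such that `(T - 1)^2 = 0` on `H^1(X)`,
`F^*` is the multiplication by the square root of `q` on the specialisation of `(T - 1) H^1(X)`, and
`T` is not the identity on a stable subspace different from `0`. (For abelian varieties: no simple
factor of `X` has potentially good reduction at the place.) -/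
def EQ.BadPlace (D : EQ.Data W W') : Prop :=
  ∃ T : ∀ P : Prd 1, W.coh (EQ.pw D.X P) → W.coh (EQ.pw D.X P), EQ.IsSym W D.X T ∧
    (∀ x, W.Deg D.X 1 x → EQ.sub1 (X := D.X) T (EQ.sub1 (X := D.X) T x) = 0) ∧
    (∀ x, W.Deg D.X 1 x → W'.pb D.F (D.s (.leaf 0) (EQ.sub1 (X := D.X) T x)) =
      W'.scal ((Real.sqrt D.q : ℝ) : ℂ) (D.s (.leaf 0) (EQ.sub1 (X := D.X) T x))) ∧
    ∀ U, EQ.Stable W D.X D.g U → (∀ x ∈ U, EQ.sub1 (X := D.X) T x = 0) → U = ⊥

/-- No stable subspace of `H^1(X)` except `0` is isotropic for the form `Tr(ξ^(n-1) x y)`, and: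
either `H^1(X)` is not the direct sum of four stable subspaces different from `0`, or the place of
the specialisation is a place of bad reduction. (For abelian varieties: the centre of the
endomorphism algebra is a product of totally real fields, and either it has dimension at most `3`
over `ℚ`, or all simple factors have bad reduction at the place, also over finite extensions.) -/
structure EQ.FewOrBad (D : EQ.Data W W') : Prop where
  iso : ∀ U, EQ.Stable W D.X D.g U →
    (∀ x ∈ U, ∀ y ∈ U, W.Tr (W.cup (D.ξ ^ (D.g - 1)) (W.cup x y)) = 0) → U = ⊥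
  alt : (∀ U : Fin 4 → Submodule ℂ (W.coh D.X), (∀ i, EQ.Stable W D.X D.g (U i)) →
    (∀ i, U i ≠ ⊥) → iSupIndep U → ⨆ i, U i ≠ W.gr D.X 1) ∨ EQ.BadPlace D

end defs

/-- **Theorem BR.** If `H^1(X)` has no isotropic stable subspace except `0`, and is not the direct
sum of four stable subspaces different from `0` or the place of the specialisation is a place of bad
reduction, then `Q1` holds for all algebraic classes on all powers of `X`, and numerical equivalence
is homological equivalence. -/
def ThmBRGeoStatement : Prop :=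
  ∀ {k : Type u} [Field k] (W : CohomologyData.{u, 0, w} k ℂ) (𝒱 : VarietyClass k)
    (_ : IsWeilCohomology W 𝒱) {k' : Type v} [Field k'] (W' : CohomologyData.{v, 0, w'} k' ℂ)
    (𝒱' : VarietyClass k') (_ : IsWeilCohomology W' 𝒱') (D : EQ.Data W W') (_ : EQ.Hyp 𝒱 𝒱' D)
    (_ : EQ.FewOrBad D)
    (P : Prd 1) (η : W.coh (EQ.pw D.X P)) (_ : IsPol W (fun _ => D.ξ) P η),
    EQ.Q1 W (EQ.pw D.X P) (P.dim fun _ => D.g) η ∧ EQ.NumHom W (EQ.pw D.X P)

end Pool.Agent.Lib.MP_361a6f_ag.FL
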