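import Pool.Agent.Lib.MP_361a6f_ag.FL.E.Fin
import Pool.Agent.Lib.MP_361a6f_ag.FL.E.BR.NSysB
import Pool.Agent.Lib.MP_361a6f_ag.FL.E.BR.StatB

/-!
# Theorem BR from Theorem BR in coordinates
-/

open CategoryTheory AlgebraicGeometry MonoidalCategory CartesianMonoidalCategory

universe u v w w'

set_option autoImplicit false

namespace Pool.Agent.Lib.MP_361a6f_ag.FL.E.BR

open Pool.Agent.Lib.MP_361a6f_ag.H3 Pool.Agent.Lib.MP_361a6f_ag.SQ
  Pool.Agent.Lib.MP_361a6f_ag.PP Pool.Agent.Lib.MP_361a6f_ag.FL.E.Orb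

section orb

variable {k : Type u} [Field k] {W : CohomologyData.{u, 0, w} k ℂ} {𝒱 : VarietyClass k}
  {X : Sch k} {g : ℕ} {ξ : W.coh X} (c : Hst.Core W X g ξ) (hW : IsWeilCohomology W 𝒱)
  (hX : 𝒱.mem X g) (hξ : ξ ∈ W.alg X 1)
  (Γ : Set (Matrix c.I c.I ℂ)) (hΓ : ∀ M ∈ Γ, ∀ i j, c.D.typ i ≠ c.D.typ j → M i j = 0)
  (hsym : ∀ T, EQ.IsSym W X T → ∃ M ∈ Γ, ∀ z : W.coh X,
    (c.host hW hX hξ).tc (.leaf 0) (T (.leaf 0) z) = gT M ((c.host hW hX hξ).tc (.leaf 0) z))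

theorem bot_of_map (U : Submodule ℂ (Sub c.D (lt 1) → ℂ))
    (hb : U.map (cl1 c hW hX hξ) = ⊥) : U = ⊥ := by
  rw [eq_bot_iff]
  intro v hv
  have h1 : cl1 c hW hX hξ v ∈ U.map (cl1 c hW hX hξ) := ⟨v, hv, rfl⟩
  rw [hb, Submodule.mem_bot] at h1
  exact cls_inj (H := c.host hW hX hξ) (ge _) (h1.trans (map_zero _).symm)

include hΓ hsym in
/-- the condition (h1) -/
theorem h1_iso (hpos : PositiveDivisor W X g ξ) (iso : ∀ U, EQ.Stable W X g U →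
      (∀ x ∈ U, ∀ y ∈ U, W.Tr (W.cup (ξ ^ (g - 1)) (W.cup x y)) = 0) → U = ⊥)
    (U : Submodule ℂ (Sub c.D (lt 1) → ℂ))
    (hU : StabU (subD c.D (lt 1)) (atS c.D (lt 1) fun L u => u ∈ (c.host hW hX hξ).At L)
      (blk '' Γ) U)
    (h0 : ∀ v ∈ U, ∀ w ∈ U, dotProduct v ((Psi (subD c.D (lt 1))).mulVec w) = 0) : U = ⊥ := by
  have hS := stable_core c hW hX hξ Γ hΓ hsym hU
  refine bot_of_map c hW hX hξ U ?_
  rcases Nat.eq_zero_or_pos g with hg | hg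
  · rw [eq_bot_iff]
    intro x hx
    exact hW.top_gr hX (hS.le hx) (by omega)
  · refine iso _ hS ?_
    rintro _ ⟨v, hv, rfl⟩ _ ⟨w, hw, rfl⟩
    have h1 := psi_one hW hX hpos c.lam hg (cl1 c hW hX hξ v) (w := cl1 c hW hX hξ w)
      (cls_gr (H := c.host hW hX hξ) w)
    rw [psi_cl1, h0 v hv w hw] at h1
    have h2 : ((g - 1).factorial : ℂ)⁻¹ ≠ 0 :=
      inv_ne_zero (Nat.cast_ne_zero.2 (Nat.factorial_ne_zero _))
    have h3 := (mul_eq_zero.1 h1.symm).resolve_left h2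
    exact neg_eq_zero.1 h3

/-- the matrix of `T - 1` on `H^1(X)` -/
theorem sub1_cl1 {M : Matrix c.I c.I ℂ} (hM : ∀ i j, c.D.typ i ≠ c.D.typ j → M i j = 0)
    {T : ∀ P : Prd 1, W.coh (EQ.pw X P) → W.coh (EQ.pw X P)}
    (hT : ∀ z : W.coh X, (c.host hW hX hξ).tc (.leaf 0) (T (.leaf 0) z) =
      gT M ((c.host hW hX hξ).tc (.leaf 0) z)) (v : Sub c.D (lt 1) → ℂ) :
    EQ.sub1 T (cl1 c hW hX hξ v) = cl1 c hW hX hξ ((blk M - 1).mulVec v) := by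
  have h := map_cls (H := c.host hW hX hξ) (d := 1) (ge _) hM
    (T := fun z : W.coh X => (T (.leaf 0) z : W.coh X)) hT v
  have h1 : EQ.sub1 T (cl1 c hW hX hξ v) =
      cl1 c hW hX hξ ((blk M).mulVec v) - cl1 c hW hX hξ v :=
    congrArg (fun y : W.coh X => y - cl1 c hW hX hξ v) h
  rw [h1, Matrix.sub_mulVec, Matrix.one_mulVec, map_sub]

end orb

section hyp

variable {k : Type u} [Field k] {k' : Type v} [Field k'] {W : CohomologyData.{u, 0, w} k ℂ}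
  {𝒱 : VarietyClass k} {W' : CohomologyData.{v, 0, w'} k' ℂ} {𝒱' : VarietyClass k'}
  (hW : IsWeilCohomology W 𝒱) (hW' : IsWeilCohomology W' 𝒱') {D : EQ.Data W W'}
  (h : EQ.Hyp 𝒱 𝒱' D) (c : Hst.Core W D.X D.g D.ξ)

/-- the classes of degree `1` on `X'` -/
theorem vec1_host2 (v : Sub c.D (lt 1) → ℂ) :
    (vec1 (host2 (hst hW h c) (spcOf h.spec D.ξ) hW' h.mem') v : W'.coh D.X') =
      D.s (.leaf 0) (cl1 c hW h.mem h.div.1 v) := by
  have h1 : (spcOf h.spec D.ξ).s0 (cl1 c hW h.mem h.div.1 v) =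
      ∑ i, v i • (spcOf h.spec D.ξ).s0 (c.e i.1) := by
    change (spcOf h.spec D.ξ).s0 (∑ i : Sub c.D (lt 1), v i • c.e i.1) = _
    rw [map_sum]
    refine Finset.sum_congr rfl fun i _ => ?_
    rw [map_smul]
  exact h1.symm

/-- Frobenius on the classes of degree `1` on `X'` -/
theorem pull_vec1 (v : Sub c.D (lt 1) → ℂ) :
    W'.pull D.F (D.s (.leaf 0) (cl1 c hW h.mem h.div.1 v)) =
      sq D.q • D.s (.leaf 0) (cl1 c hW h.mem h.div.1
        ((FM (hst hW h c) (spcOf h.spec D.ξ) hW' h.mem' D.F D.q).mulVec v)) := by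
  have h1 := frob_vec1 (host2 (hst hW h c) (spcOf h.spec D.ξ) hW' h.mem') (sq_ne h.pos)
    (symH (hst hW h c) (spcOf h.spec D.ξ) hW' h.mem' h.conn h.div (pull_xi h))
    (FrH (hst hW h c) (spcOf h.spec D.ξ) hW' h.mem' D.F (.leaf 0)) rfl v
  rw [Matrix.smul_mulVec, map_smul] at h1
  have h2 := vec1_host2 hW hW' h c v
  have h3 := vec1_host2 hW hW' h c
    ((FM (hst hW h c) (spcOf h.spec D.ξ) hW' h.mem' D.F D.q).mulVec v)
  rw [← h2, ← h3]
  exact h1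

include hW' in
/-- positivity -/
theorem pos1_bad (thmB : ThmBStatement) {Γ : Set (Matrix c.I c.I ℂ)} (hΓ : IsMats hW h c Γ)
    (iso : ∀ U, EQ.Stable W D.X D.g U →
      (∀ x ∈ U, ∀ y ∈ U, W.Tr (W.cup (D.ξ ^ (D.g - 1)) (W.cup x y)) = 0) → U = ⊥)
    (bad : EQ.BadPlace D) : EndE.Pos1 (hst hW h c) := by
  have grp : ∀ x ∈ (E.blk '' Γ : Set (Matrix (Sub c.D (0, 1)) (Sub c.D (0, 1)) ℂ)),
      IsG (subD c.D (0, 1)) x := by
    rintro _ ⟨M, hM, rfl⟩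
    exact isG_blk (hΓ.grp M hM)
  have gfix : ∀ x ∈ (E.blk '' Γ : Set (Matrix (Sub c.D (0, 1)) (Sub c.D (0, 1)) ℂ)),
      ∀ L u, At1 (hst hW h c) L u → gT x u = u := by
    rintro _ ⟨M, hM, rfl⟩ L u hu
    exact fix_sub (hΓ.blk M hM) (At := fun L u => u ∈ (hst hW h c).At L)
      (fun L u hu => hΓ.fix M hM L u hu) L u hu
  have h1 := h1_iso c hW h.mem h.div.1 Γ hΓ.blk hΓ.sym h.div iso
  have odd : ∀ i : Sub c.D (0, 1), (subD c.D (0, 1)).odd ((subD c.D (0, 1)).typ i) := by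
    intro i
    show c.D.odd (c.D.typ i.1)
    rw [i.2]
    exact Hst.odd_one (hst hW h c) 0
  have nd := Nd.nd_of_h1 (aSys_sub (α := ((0, 1) : Fin 1 × ℕ)) (aSys_at (at_ (hst hW h c)))) odd
    (fun i j => i.2.trans j.2.symm) _ grp gfix h1
  have S := nsys_hyp hW hW' h c _ grp gfix nd
  -- the monodromy
  obtain ⟨T, hT, hT2, hTF, hTU⟩ := bad
  obtain ⟨M, hM, hTM⟩ := hΓ.sym T hT
  have hbM := hΓ.blk M hM
  have hsub := sub1_cl1 c hW h.mem h.div.1 hbM hTM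
  have hinj : Function.Injective (cl1 c hW h.mem h.div.1) :=
    cls_inj (H := hst hW h c) (d := 1) (ge _)
  have hgr : ∀ v, cl1 c hW h.mem h.div.1 v ∈ W.gr D.X 1 := fun v =>
    cls_gr (H := hst hW h c) v
  have hN : (1 : Matrix (Sub c.D (0, 1)) (Sub c.D (0, 1)) ℂ) + (blk M - 1) = blk M := by
    abel
  have n2 : (blk M - 1 : Matrix (Sub c.D (0, 1)) (Sub c.D (0, 1)) ℂ) * (blk M - 1) = 0 := by
    refine Matrix.mulVec_injective (funext fun v => ?_)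
    have h2 := hT2 _ (hgr v)
    rw [hsub, hsub] at h2
    rw [← Matrix.mulVec_mulVec, Matrix.zero_mulVec]
    exact hinj (h2.trans (map_zero _).symm)
  have hNF : ∀ F' : Matrix (Sub c.D (0, 1)) (Sub c.D (0, 1)) ℂ,
      F' = FM (hst hW h c) (spcOf h.spec D.ξ) hW' h.mem' D.F D.q →
      F' * (blk M - 1) = blk M - 1 := by
    intro F' hF'
    refine Matrix.mulVec_injective (funext fun v => ?_)
    have h2 := hTF _ (hgr v)
    rw [hsub] at h2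
    have h3 := pull_vec1 hW hW' h c ((blk M - 1).mulVec v)
    have h4 : sq D.q • D.s (.leaf 0) (cl1 c hW h.mem h.div.1
        ((FM (hst hW h c) (spcOf h.spec D.ξ) hW' h.mem' D.F D.q).mulVec
          ((blk M - 1).mulVec v))) =
        sq D.q • D.s (.leaf 0) (cl1 c hW h.mem h.div.1 ((blk M - 1).mulVec v)) :=
      h3.symm.trans h2
    have h5 := smul_right_injective _ (sq_ne h.pos) h4
    have h6 := hinj (h.spec.bij.1 h5)
    rw [← Matrix.mulVec_mulVec, hF']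
    exact h6
  have nst : ∀ U : Submodule ℂ (Sub c.D (0, 1) → ℂ),
      StabU (subD c.D (0, 1)) (At1 (hst hW h c)) (E.blk '' Γ) U →
      (∀ v ∈ U, (blk M - 1 : Matrix (Sub c.D (0, 1)) (Sub c.D (0, 1)) ℂ).mulVec v = 0) →
      U = ⊥ := by
    intro U hU hv
    refine bot_of_map c hW h.mem h.div.1 U ?_
    refine hTU _ (stable_core c hW h.mem h.div.1 Γ hΓ.blk hΓ.sym hU) ?_
    rintro _ ⟨v, hvU, rfl⟩
    rw [hsub, hv v hvU, map_zero]
  exact EndE.pos1_of _ fun L u hu h0 =>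
    ofB mainY alg1 alg2 thmB S h1 (blk M - 1) n2 (by rw [hN]; exact grp _ ⟨M, hM, rfl⟩)
      (by rw [hN]; exact gfix _ ⟨M, hM, rfl⟩) (hNF _ rfl) nst L u (Submodule.subset_span hu) h0

end hyp

/-- **Theorem BR** from Theorem BR in coordinates. -/
theorem thmBRGeo_of (thmB : ThmBStatement) : ThmBRGeoStatement.{u, v, w, w'} := by
  intro k _ W 𝒱 hW k' _ W' 𝒱' hW' D h few P η hη
  rcases few.alt with h4 | bad
  · exact thmE3Geo W 𝒱 hW W' 𝒱' hW' D h ⟨few.iso, h4⟩ P η hη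
  · obtain ⟨c⟩ := Hst.exists_core_hyp hW h
    obtain ⟨Γ, hΓ⟩ := symMats hW h c
    exact of_pos1 hW h c (pos1_bad hW hW' h c thmB hΓ few.iso bad) P η hη

end Pool.Agent.Lib.MP_361a6f_ag.FL.E.BR
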