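import Pool.Agent.Lib.MP_361a6f_ag.FL.E.BR.Defs

/-!
# Theorem BR, row R2: the Moore-Penrose inverse of the monodromy

`N` in a Lie algebra `S` of matrices closed under `*`, `N N = 0`. The inverse `R = r N*`, where
`r` is a polynomial in `G = N* N`, and `N R - R N = [N r, N*]` is in `S` because
`[[N, N*], N G^i] = 2 N G^(i+1)`.
-/

open Matrix Polynomial
open scoped ComplexOrder

namespace Pool.Agent.Lib.MP_361a6f_ag.FL.E.BR.Gra

variable {ι : Type} [Fintype ι] [DecidableEq ι]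

theorem pow_mul_zero {G : Matrix ι ι ℂ} (hG : Gᴴ = G) (M : Matrix ι ι ℂ) :
    ∀ k : ℕ, G ^ k * M = 0 → G * M = 0
  | 0, h => by
    rw [pow_zero, one_mul] at h
    rw [h, mul_zero]
  | 1, h => by rwa [pow_one] at h
  | k + 2, h => by
    refine pow_mul_zero hG M (k + 1) ?_
    have h1 : Gᴴ * G * (G ^ k * M) = 0 := by
      rw [hG, ← h, pow_succ' G (k + 1), pow_succ' G k]
      simp only [mul_assoc]
    rw [Matrix.conjTranspose_mul_self_mul_eq_zero] at h1
    rw [pow_succ' G k, mul_assoc]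
    exact h1

/-- A polynomial `p` with `x² p(x) = x` on the spectrum of a hermitian matrix. -/
theorem exists_inv {G : Matrix ι ι ℂ} (hG : Gᴴ = G) :
    ∃ p : ℂ[X], G * (G * aeval G p) = G := by
  have hne : minpoly ℂ G ≠ 0 := minpoly.ne_zero (Matrix.isIntegral G)
  obtain ⟨q, hq1, hq2⟩ := Polynomial.exists_eq_pow_rootMultiplicity_mul_and_not_dvd
    (minpoly ℂ G) hne 0
  rw [C_0, sub_zero] at hq1 hq2
  have hq0 : q.coeff 0 ≠ 0 := fun h => hq2 (X_dvd_iff.2 h)
  have h1 : aeval G (minpoly ℂ G) = 0 := minpoly.aeval ℂ G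
  rw [hq1, map_mul, map_pow, aeval_X] at h1
  have h2 := pow_mul_zero hG _ _ h1
  have h3 : aeval G q = G * aeval G q.divX + algebraMap ℂ _ (q.coeff 0) := by
    conv_lhs => rw [← X_mul_divX_add q]
    rw [map_add, map_mul, aeval_X, aeval_C]
  refine ⟨C (-(q.coeff 0)⁻¹) * q.divX, ?_⟩
  rw [h3, mul_add, Algebra.algebraMap_eq_smul_one, mul_smul_comm, mul_one] at h2
  rw [map_mul, aeval_C, Algebra.algebraMap_eq_smul_one, smul_one_mul, mul_smul_comm,
    mul_smul_comm, eq_neg_of_add_eq_zero_left h2, smul_neg, neg_smul, neg_neg, smul_smul,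
    inv_mul_cancel₀ hq0, one_smul]

theorem commute_aeval {G y : Matrix ι ι ℂ} (h : y * G = G * y) (p : ℂ[X]) :
    y * aeval G p = aeval G p * y := by
  have hp : ∀ i : ℕ, y * G ^ i = G ^ i * y := fun i =>
    (Commute.pow_right (show Commute y G from h) i).eq
  rw [aeval_eq_sum_range, Finset.mul_sum, Finset.sum_mul]
  refine Finset.sum_congr rfl fun i _ => ?_
  rw [mul_smul_comm, smul_mul_assoc, hp]

theorem pen : R2Statement := by
  intro ι _ _ S hL N h1 hN
  have hS := hL.lie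
  have h2 : Nᴴ ∈ S := hL.star _ h1
  obtain ⟨G, hG⟩ : ∃ G, G = Nᴴ * N := ⟨_, rfl⟩
  have hGh : Gᴴ = G := by
    rw [hG, conjTranspose_mul, conjTranspose_conjTranspose]
  have hN' : Nᴴ * Nᴴ = 0 := by
    rw [← conjTranspose_mul, hN, conjTranspose_zero]
  obtain ⟨p, hp⟩ := exists_inv hGh
  have hGN : G * N = 0 := by rw [hG, mul_assoc, hN, mul_zero]
  have hNG : Nᴴ * G = 0 := by rw [hG, ← mul_assoc, hN', zero_mul]
  have hcom : G * aeval G p = aeval G p * G := commute_aeval rfl p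
  -- the powers
  have hpow : ∀ i : ℕ, N * G ^ i ∈ S := by
    intro i
    induction i with
    | zero => rwa [pow_zero, mul_one]
    | succ i ih =>
      have h3 := hS _ (hS _ h1 _ h2) _ ih
      have h4 : (N * Nᴴ - Nᴴ * N) * (N * G ^ i) - N * G ^ i * (N * Nᴴ - Nᴴ * N) =
          (2 : ℂ) • (N * G ^ (i + 1)) := by
        have a1 : Nᴴ * N * (N * G ^ i) = 0 := by
          rw [mul_assoc Nᴴ, ← mul_assoc N, hN, zero_mul, mul_zero]
        have a2 : N * G ^ i * (N * Nᴴ) = 0 := by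
          cases i with
          | zero => rw [pow_zero, mul_one, ← mul_assoc, hN, zero_mul]
          | succ i => rw [pow_succ, mul_assoc, mul_assoc, ← mul_assoc G, hGN, zero_mul, mul_zero,
              mul_zero]
        have a3 : N * Nᴴ * (N * G ^ i) = N * G ^ (i + 1) := by
          rw [pow_succ', hG]
          simp only [mul_assoc]
        have a4 : N * G ^ i * (Nᴴ * N) = N * G ^ (i + 1) := by
          rw [← hG, pow_succ, mul_assoc]
        rw [sub_mul, mul_sub, a1, a2, a3, a4, two_smul, sub_zero, zero_sub, sub_neg_eq_add]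
      rw [h4] at h3
      have h5 := S.smul_mem (2 : ℂ)⁻¹ h3
      rwa [smul_smul, inv_mul_cancel₀ two_ne_zero, one_smul] at h5
  have hpol : N * aeval G p ∈ S := by
    rw [aeval_eq_sum_range, Finset.mul_sum]
    refine S.sum_mem fun i _ => ?_
    rw [mul_smul_comm]
    exact S.smul_mem _ (hpow i)
  have hcy : ∀ y : Matrix ι ι ℂ, y * N = N * y → y * Nᴴ = Nᴴ * y →
      y * aeval G p = aeval G p * y := by
    intro y hy1 hy2
    refine commute_aeval ?_ p
    rw [hG, ← mul_assoc, hy2, mul_assoc, hy1, ← mul_assoc]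
  obtain ⟨r, hr⟩ : ∃ r, r = aeval G p := ⟨_, rfl⟩
  rw [← hr] at hp hcom hpol hcy
  obtain ⟨Q, hQ⟩ : ∃ Q, Q = G * r := ⟨_, rfl⟩
  have hQ' : Q = r * G := by rw [hQ]; exact hcom
  have hGQ : G * Q = G := by rw [hQ]; exact hp
  have hQhG : Qᴴ * G = G := by
    have h := congrArg conjTranspose hGQ
    rwa [conjTranspose_mul, hGh] at h
  have hQQ' : Qᴴ * Q = Q := by
    conv_rhs => rw [hQ, ← hQhG, mul_assoc, ← hQ]
  have hQh : Qᴴ = Q := by
    have h := congrArg conjTranspose hQQ'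
    rw [conjTranspose_mul, conjTranspose_conjTranspose, hQQ'] at h
    exact h.symm
  rw [hQh] at hQQ' hQhG
  -- `N Q = N`
  have hNQ : N * Q = N := by
    have h : (N - N * Q)ᴴ * (N - N * Q) = 0 := by
      rw [conjTranspose_sub, conjTranspose_mul, hQh, sub_mul, mul_sub, mul_sub, ← hG,
        ← mul_assoc, ← hG, hGQ, mul_assoc Q, ← hG, hQhG, mul_assoc Q, ← mul_assoc Nᴴ, ← hG, hGQ,
        hQhG, sub_self]
    rw [Matrix.conjTranspose_mul_self_eq_zero] at h
    exact (sub_eq_zero.1 h).symm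
  have hQN' : Q * Nᴴ = Nᴴ := by
    have h := congrArg conjTranspose hNQ
    rwa [conjTranspose_mul, hQh] at h
  have hRN : r * Nᴴ * N = Q := by rw [mul_assoc, ← hG, ← hQ']
  have hQr : Q * r = r * Q := by rw [hQ, ← mul_assoc r, ← hcom]
  have hPP : N * (r * Nᴴ) * (N * (r * Nᴴ))ᴴ = (N * (r * Nᴴ))ᴴ := by
    rw [conjTranspose_mul, conjTranspose_mul, conjTranspose_conjTranspose]
    have h : N * (r * Nᴴ) * (N * rᴴ * Nᴴ) = N * (r * Nᴴ * N) * (rᴴ * Nᴴ) := by
      simp only [mul_assoc]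
    rw [h, hRN, hNQ, mul_assoc]
  have hP : (N * (r * Nᴴ))ᴴ = N * (r * Nᴴ) := by
    have h := congrArg conjTranspose hPP
    rw [conjTranspose_mul, conjTranspose_conjTranspose, hPP] at h
    exact h
  refine ⟨r * Nᴴ, ?_, ?_, ?_, hP, ?_, ?_, ?_⟩
  · rw [mul_assoc, hRN, hNQ]
  · rw [hRN, ← mul_assoc, hQr, mul_assoc, hQN']
  · have h6 : Nᴴ * (r * Nᴴ) = 0 := by
      have h8 : r * Nᴴ = G * r * r * Nᴴ := by rw [← hQ, hQr, mul_assoc, hQN']
      have h7 : Nᴴ * (G * r * r * Nᴴ) = Nᴴ * G * (r * r * Nᴴ) := by simp only [mul_assoc]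
      rw [h8, h7, hNG, zero_mul]
    rw [mul_assoc, h6, mul_zero]
  · rw [hRN, hQh]
  · have h := hS _ hpol _ h2
    rw [hRN, hQ, ← mul_assoc N]
    have h6 : Nᴴ * (N * r) = G * r := by rw [← mul_assoc, ← hG]
    rwa [h6] at h
  · intro y hy1 hy2
    rw [← mul_assoc, hcy y hy1 hy2, mul_assoc, hy2, mul_assoc]

end Pool.Agent.Lib.MP_361a6f_ag.FL.E.BR.Gra
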