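import Pool.Agent.Lib.MP_361a6f_ag.FL.E.BR.Gra

/-!
# Theorem BR, row R4: the centre of the centraliser kills the toric part

`y` in `zen S A0` hermitian with an eigenvector `v`, `P_+ v = v`, `y v = λ v`, `λ ≠ 0`: the vectors
`A_1 .. A_n v` span a stable isotropic subspace.
-/

open Matrix
open scoped ComplexOrder

namespace Pool.Agent.Lib.MP_361a6f_ag.FL.E.BR.Iso

variable {I : Type} [Fintype I] [DecidableEq I]

theorem zen_star {S : Submodule ℂ (Matrix I I ℂ)} (hL : LieStar S) {A0 : Matrix I I ℂ}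
    (hA0 : A0ᴴ = A0) {y : Matrix I I ℂ} (hy : y ∈ zen S A0) : yᴴ ∈ zen S A0 := by
  obtain ⟨h1, h2, h3⟩ := hy
  refine ⟨hL.star y h1, ?_, fun A hA hAA => ?_⟩
  · have h := congrArg conjTranspose h2
    rw [conjTranspose_mul, conjTranspose_mul, hA0] at h
    exact h.symm
  · have hA' : Aᴴ * A0 = A0 * Aᴴ := by
      have h := congrArg conjTranspose hAA
      rw [conjTranspose_mul, conjTranspose_mul, hA0] at h
      exact h.symm
    have h := congrArg conjTranspose (h3 _ (hL.star A hA) hA')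
    rw [conjTranspose_mul, conjTranspose_mul, conjTranspose_conjTranspose] at h
    exact h.symm

theorem zen_add {S : Submodule ℂ (Matrix I I ℂ)} {A0 y z : Matrix I I ℂ}
    (hy : y ∈ zen S A0) (hz : z ∈ zen S A0) : y + z ∈ zen S A0 := by
  refine ⟨S.add_mem hy.1 hz.1, ?_, fun A hA hAA => ?_⟩
  · rw [add_mul, mul_add, hy.2.1, hz.2.1]
  · rw [add_mul, mul_add, hy.2.2 A hA hAA, hz.2.2 A hA hAA]

theorem zen_smul {S : Submodule ℂ (Matrix I I ℂ)} {A0 y : Matrix I I ℂ} (c : ℂ)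
    (hy : y ∈ zen S A0) : c • y ∈ zen S A0 := by
  refine ⟨S.smul_mem c hy.1, ?_, fun A hA hAA => ?_⟩
  · rw [smul_mul_assoc, mul_smul_comm, hy.2.1]
  · rw [smul_mul_assoc, mul_smul_comm, hy.2.2 A hA hAA]

omit [DecidableEq I] in
/-- Skewness for the form of matrix `P`. -/
theorem skew {P A : Matrix I I ℂ} (h : Aᵀ * P + P * A = 0) (v w : I → ℂ) :
    (A *ᵥ v) ⬝ᵥ (P *ᵥ w) = -(v ⬝ᵥ (P *ᵥ (A *ᵥ w))) := by
  have h1 : (A *ᵥ v) ⬝ᵥ (P *ᵥ w) = v ⬝ᵥ ((Aᵀ * P) *ᵥ w) := by
    rw [← Matrix.vecMul_transpose, ← Matrix.dotProduct_mulVec, Matrix.mulVec_mulVec]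
  rw [h1, eq_neg_of_add_eq_zero_left h, Matrix.neg_mulVec, dotProduct_neg, ← Matrix.mulVec_mulVec]

/-- The hermitian case. -/
theorem herm (h3 : R3Statement) (S : Submodule ℂ (Matrix I I ℂ))
    (E : Set (Matrix I I ℂ)) (P : Matrix I I ℂ) (hL : LieStar S)
    (hE : ∀ e ∈ E, ∀ A ∈ S, e * A = A * e) (hP : ∀ A ∈ S, Aᵀ * P + P * A = 0)
    (A0 : Matrix I I ℂ) (hA0 : A0 ∈ S) (hA0h : A0ᴴ = A0)
    (iso : ∀ U : Submodule ℂ (I → ℂ), (∀ A ∈ S, ∀ v ∈ U, A *ᵥ v ∈ U) →
      (∀ e ∈ E, ∀ v ∈ U, e *ᵥ v ∈ U) →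
      (∀ v ∈ U, ∀ w ∈ U, v ⬝ᵥ (P *ᵥ w) = 0) → U = ⊥)
    (N : Matrix I I ℂ) (hN : N ∈ S) (hNN : N * N = 0) (hAN : A0 * N = 0) (hNA : N * A0 = 0)
    (y : Matrix I I ℂ) (hy : y ∈ zen S A0) (hyh : yᴴ = y) : y * N = 0 := by
  obtain ⟨R, hR1, hR2, hR3, hR4, hR5, hR6, hR7⟩ := Gra.pen S hL N hN hNN
  have hNh : Nᴴ ∈ S := hL.star _ hN
  have hANh : A0 * Nᴴ = 0 := by
    have h := congrArg conjTranspose hNA
    rwa [conjTranspose_mul, hA0h, conjTranspose_zero] at h
  have hNhA : Nᴴ * A0 = 0 := by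
    have h := congrArg conjTranspose hAN
    rwa [conjTranspose_mul, hA0h, conjTranspose_zero] at h
  have hyN : y * N = N * y := hy.2.2 N hN (by rw [hNA, hAN])
  have hyNh : y * Nᴴ = Nᴴ * y := hy.2.2 _ hNh (by rw [hNhA, hANh])
  have hyR := hR7 y hyN hyNh
  have hAP : A0 * (N * R) = 0 := by rw [← mul_assoc, hAN, zero_mul]
  have hAQ : A0 * (R * N) = 0 := by
    rw [← hR5, conjTranspose_mul, ← mul_assoc, hANh, zero_mul]
  have hPP : N * R * (N * R) = N * R := by rw [← mul_assoc, hR1]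
  have hQQ : R * N * (R * N) = R * N := by rw [← mul_assoc, hR2]
  have hPQ : N * R * (R * N) = 0 := by
    rw [mul_assoc, ← mul_assoc R, hR3, zero_mul, mul_zero]
  have hQP : R * N * (N * R) = 0 := by
    rw [mul_assoc, ← mul_assoc N, hNN, zero_mul, mul_zero]
  have top := h3 S hL A0 (N * R) (R * N) hA0 hA0h hR4 hR5 hPP hQQ hPQ hQP hR6 hAP hAQ y hy
  have hyP : y * (N * R) = N * R * y := by
    rw [← mul_assoc, hyN, mul_assoc, hyR, mul_assoc]
  by_contra hne
  have hM : y * (N * R) ≠ 0 := by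
    intro h0
    refine hne ?_
    calc y * N = y * (N * R * N) := by rw [hR1]
      _ = y * (N * R) * N := (mul_assoc _ _ _).symm
      _ = 0 := by rw [h0, zero_mul]
  have hMh : (y * (N * R)).IsHermitian := by
    show (y * (N * R))ᴴ = y * (N * R)
    rw [conjTranspose_mul, hR4, hyh, hyP]
  obtain ⟨v, t, ht, hv, hMv⟩ := hMh.exists_eigenvector_of_ne_zero hM
  have hMv' : (y * (N * R)) *ᵥ v = (t : ℂ) • v := by
    rw [hMv]; rfl
  have ht' : (t : ℂ) ≠ 0 := by exact_mod_cast ht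
  -- `v` is in the image of `N R` and an eigenvector of `y`
  have hPv : (N * R) *ᵥ v = v := by
    have h1 : (N * R) *ᵥ ((t : ℂ) • v) = (t : ℂ) • v := by
      rw [← hMv', mulVec_mulVec, ← mul_assoc, ← hyP, mul_assoc, hPP]
    rw [mulVec_smul] at h1
    exact smul_right_injective _ ht' h1
  have hyv : y *ᵥ v = (t : ℂ) • v := by
    rw [← hMv', ← mulVec_mulVec, hPv]
  -- the eigenspace
  obtain ⟨W, hW⟩ : ∃ W : Submodule ℂ (I → ℂ), ∀ x, x ∈ W ↔
      (N * R) *ᵥ x = x ∧ y *ᵥ x = (t : ℂ) • x := by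
    refine ⟨{ carrier := {x | (N * R) *ᵥ x = x ∧ y *ᵥ x = (t : ℂ) • x}
              add_mem' := ?_, zero_mem' := ?_, smul_mem' := ?_ }, fun x => Iff.rfl⟩
    · rintro a b ⟨h1, h2⟩ ⟨h3, h4⟩
      exact ⟨by rw [mulVec_add, h1, h3], by rw [mulVec_add, h2, h4, smul_add]⟩
    · exact ⟨by rw [mulVec_zero], by rw [mulVec_zero, smul_zero]⟩
    · rintro c a ⟨h1, h2⟩
      exact ⟨by rw [mulVec_smul, h1], by rw [mulVec_smul, h2, smul_comm]⟩
  obtain ⟨U, hU⟩ : ∃ U : Submodule ℂ (I → ℂ), U = Submodule.span ℂ {x | ∃ l : List (Matrix I I ℂ),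
    (∀ A ∈ l, A ∈ S) ∧ ∃ w ∈ W, x = l.prod *ᵥ w} := ⟨_, rfl⟩
  have hUS : ∀ A ∈ S, ∀ x ∈ U, A *ᵥ x ∈ U := by
    intro A hA x hx
    rw [hU] at hx ⊢
    induction hx using Submodule.span_induction with
    | mem x hx =>
      obtain ⟨l, hl, w, hw, rfl⟩ := hx
      refine Submodule.subset_span ⟨A :: l, ?_, w, hw, ?_⟩
      · intro B hB
        rcases List.mem_cons.1 hB with rfl | hB
        · exact hA
        · exact hl B hB
      · rw [List.prod_cons, mulVec_mulVec]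
    | zero => rw [mulVec_zero]; exact zero_mem _
    | add a b _ _ ha hb => rw [mulVec_add]; exact add_mem ha hb
    | smul c a _ ha => rw [mulVec_smul]; exact Submodule.smul_mem _ _ ha
  have hcomm : ∀ e : Matrix I I ℂ, (∀ A ∈ S, e * A = A * e) → ∀ l : List (Matrix I I ℂ),
      (∀ A ∈ l, A ∈ S) → e * l.prod = l.prod * e := by
    intro e he l
    induction l with
    | nil => intro _; rw [List.prod_nil, mul_one, one_mul]
    | cons A l ih =>
      intro hl
      rw [List.prod_cons, ← mul_assoc, he A (hl A List.mem_cons_self), mul_assoc,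
        ih fun B hB => hl B (List.mem_cons_of_mem _ hB), mul_assoc]
  have hUE : ∀ e ∈ E, ∀ x ∈ U, e *ᵥ x ∈ U := by
    intro e he x hx
    have heR : e * R = R * e := hR7 e (hE e he N hN) (hE e he _ hNh)
    rw [hU] at hx ⊢
    induction hx using Submodule.span_induction with
    | mem x hx =>
      obtain ⟨l, hl, w, hw, rfl⟩ := hx
      refine Submodule.subset_span ⟨l, hl, e *ᵥ w, (hW _).2 ?_, ?_⟩
      · obtain ⟨h1, h2⟩ := (hW _).1 hw
        constructor
        · have h4 : N * R * e = e * (N * R) := by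
            rw [mul_assoc, ← heR, ← mul_assoc, ← hE e he N hN, mul_assoc]
          rw [mulVec_mulVec, h4, ← mulVec_mulVec, h1]
        · rw [mulVec_mulVec, ← hE e he y hy.1, ← mulVec_mulVec, h2, mulVec_smul]
      · rw [mulVec_mulVec, hcomm e (hE e he) l hl, mulVec_mulVec]
    | zero => rw [mulVec_zero]; exact zero_mem _
    | add a b _ _ ha hb => rw [mulVec_add]; exact add_mem ha hb
    | smul c a _ ha => rw [mulVec_smul]; exact Submodule.smul_mem _ _ ha
  -- the top level lemma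
  have hUW : ∀ x ∈ U, (N * R) *ᵥ x ∈ W := by
    intro x hx
    rw [hU] at hx
    induction hx using Submodule.span_induction with
    | mem x hx =>
      obtain ⟨l, hl, w, hw, rfl⟩ := hx
      obtain ⟨h1, h2⟩ := (hW _).1 hw
      have h4 : (N * R) *ᵥ (l.prod *ᵥ w) = (N * R * l.prod * (N * R)) *ᵥ w := by
        conv_lhs => rw [← h1]
        simp only [mulVec_mulVec, mul_assoc]
      refine (hW _).2 ⟨?_, ?_⟩
      · rw [mulVec_mulVec, hPP]
      · rw [h4, mulVec_mulVec, ← top l hl, ← mulVec_mulVec, h2, mulVec_smul]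
    | zero => rw [mulVec_zero]; exact zero_mem _
    | add a b _ _ ha hb => rw [mulVec_add]; exact add_mem ha hb
    | smul c a _ ha => rw [mulVec_smul]; exact Submodule.smul_mem _ _ ha
  have hbase : ∀ w ∈ W, ∀ u ∈ U, w ⬝ᵥ (P *ᵥ u) = 0 := by
    intro w hw u hu
    obtain ⟨h1, h2⟩ := (hW _).1 hw
    have hw1 : w = N *ᵥ (R *ᵥ w) := by rw [mulVec_mulVec, h1]
    have hNu : N *ᵥ u ∈ W := by
      have h4 := hUW _ (hUS N hN u hu)
      rwa [mulVec_mulVec, hR1] at h4
    have hyw : y *ᵥ (R *ᵥ w) = (t : ℂ) • (R *ᵥ w) := by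
      rw [mulVec_mulVec, hyR, ← mulVec_mulVec, h2, mulVec_smul]
    have h5 := skew (hP y hy.1) (R *ᵥ w) (N *ᵥ u)
    rw [hyw, ((hW _).1 hNu).2, smul_dotProduct, mulVec_smul, dotProduct_smul, smul_eq_mul] at h5
    have h6 : (R *ᵥ w) ⬝ᵥ (P *ᵥ (N *ᵥ u)) = 0 := by
      have h7 : (2 * (t : ℂ)) * ((R *ᵥ w) ⬝ᵥ (P *ᵥ (N *ᵥ u))) = 0 := by linear_combination h5
      exact (mul_eq_zero.1 h7).resolve_left (mul_ne_zero two_ne_zero ht')
    rw [hw1, skew (hP N hN), h6, neg_zero]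
  have hiso : ∀ x ∈ U, ∀ u ∈ U, x ⬝ᵥ (P *ᵥ u) = 0 := by
    intro x hx
    rw [hU] at hx
    induction hx using Submodule.span_induction with
    | mem x hx =>
      obtain ⟨l, hl, w, hw, rfl⟩ := hx
      induction l with
      | nil =>
        intro u hu
        rw [List.prod_nil, one_mulVec]
        exact hbase w hw u hu
      | cons A l ih =>
        intro u hu
        rw [List.prod_cons, ← mulVec_mulVec, skew (hP A (hl A List.mem_cons_self)),
          ih (fun B hB => hl B (List.mem_cons_of_mem _ hB)) _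
            (hUS A (hl A List.mem_cons_self) u hu), neg_zero]
    | zero => intro u _; rw [zero_dotProduct]
    | add a b _ _ ha hb => intro u hu; rw [add_dotProduct, ha u hu, hb u hu, add_zero]
    | smul c a _ ha => intro u hu; rw [smul_dotProduct, ha u hu, smul_zero]
  have hU0 := iso U hUS hUE hiso
  have hvU : v ∈ U := by
    rw [hU]
    refine Submodule.subset_span ⟨[], by simp, v, (hW _).2 ⟨hPv, hyv⟩, ?_⟩
    rw [List.prod_nil, one_mulVec]
  rw [hU0, Submodule.mem_bot] at hvU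
  exact hv hvU

/-- Row R4a: `zen` acts by `0` on the image of `N` and of `N*`. -/
theorem zero (h3 : R3Statement) (S : Submodule ℂ (Matrix I I ℂ))
    (E : Set (Matrix I I ℂ)) (P : Matrix I I ℂ) (hL : LieStar S)
    (hE : ∀ e ∈ E, ∀ A ∈ S, e * A = A * e) (hP : ∀ A ∈ S, Aᵀ * P + P * A = 0) (hPu : IsUnit P)
    (A0 : Matrix I I ℂ) (hA0 : A0 ∈ S) (hA0h : A0ᴴ = A0)
    (iso : ∀ U : Submodule ℂ (I → ℂ), (∀ A ∈ S, ∀ v ∈ U, A *ᵥ v ∈ U) →
      (∀ e ∈ E, ∀ v ∈ U, e *ᵥ v ∈ U) →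
      (∀ v ∈ U, ∀ w ∈ U, v ⬝ᵥ (P *ᵥ w) = 0) → U = ⊥)
    (N : Matrix I I ℂ) (hN : N ∈ S) (hNN : N * N = 0) (hAN : A0 * N = 0) :
    ∀ y ∈ zen S A0, y * N = 0 ∧ y * Nᴴ = 0 := by
  have hNA : N * A0 = 0 := by
    have h1 : P * (N * A0) = 0 := by
      have e1 : P * N = -(Nᵀ * P) := eq_neg_of_add_eq_zero_right (hP N hN)
      have e2 : P * A0 = -(A0ᵀ * P) := eq_neg_of_add_eq_zero_right (hP A0 hA0)
      have e3 : Nᵀ * A0ᵀ = 0 := by rw [← transpose_mul, hAN, transpose_zero]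
      rw [← mul_assoc, e1, neg_mul, mul_assoc, e2, mul_neg, neg_neg, ← mul_assoc, e3, zero_mul]
    exact (hPu.mul_right_eq_zero).1 h1
  have key : ∀ y ∈ zen S A0, y * N = 0 := by
    intro y hy
    have h1 := herm h3 S E P hL hE hP A0 hA0 hA0h iso N hN hNN hAN hNA (y + yᴴ)
      (zen_add hy (zen_star hL hA0h hy)) (by
        rw [conjTranspose_add, conjTranspose_conjTranspose, add_comm])
    have h2 := herm h3 S E P hL hE hP A0 hA0 hA0h iso N hN hNN hAN hNA
      (Complex.I • (y + (-1 : ℂ) • yᴴ))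
      (zen_smul _ (zen_add hy (zen_smul _ (zen_star hL hA0h hy)))) (by
        rw [conjTranspose_smul, conjTranspose_add, conjTranspose_smul,
          conjTranspose_conjTranspose]
        simp only [star_neg, star_one, Complex.star_def, Complex.conj_I]
        module)
    rw [smul_mul_assoc] at h2
    have h4 := (smul_eq_zero.1 h2).resolve_left Complex.I_ne_zero
    rw [add_mul, smul_mul_assoc] at h4
    rw [add_mul] at h1
    have h5 : (2 : ℂ) • (y * N) = 0 := by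
      calc (2 : ℂ) • (y * N) = (y * N + yᴴ * N) + (y * N + (-1 : ℂ) • (yᴴ * N)) := by module
        _ = 0 := by rw [h1, h4, add_zero]
    exact (smul_eq_zero.1 h5).resolve_left two_ne_zero
  intro y hy
  refine ⟨key y hy, ?_⟩
  have h1 := key _ (zen_star hL hA0h hy)
  have hNy : N * yᴴ = 0 := by
    rw [← (zen_star hL hA0h hy).2.2 N hN (by rw [hNA, hAN]), h1]
  have h2 := congrArg conjTranspose hNy
  rwa [conjTranspose_mul, conjTranspose_conjTranspose, conjTranspose_zero] at h2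

/-- The images of `N` and `N*` generate the space. -/
theorem gen (S : Submodule ℂ (Matrix I I ℂ)) (E : Set (Matrix I I ℂ)) (hL : LieStar S)
    (hE : ∀ e ∈ E, ∀ A ∈ S, e * A = A * e) (N : Matrix I I ℂ) (hN : N ∈ S)
    (nst : ∀ U : Submodule ℂ (I → ℂ), (∀ A ∈ S, ∀ v ∈ U, A *ᵥ v ∈ U) →
      (∀ e ∈ E, ∀ v ∈ U, e *ᵥ v ∈ U) → (∀ v ∈ U, N *ᵥ v = 0) → U = ⊥) (v : I → ℂ) :
    v ∈ Submodule.span ℂ {v | ∃ l : List (Matrix I I ℂ), (∀ A ∈ l, A ∈ S) ∧
        ∃ w : I → ℂ, v = (l.prod * N) *ᵥ w ∨ v = (l.prod * Nᴴ) *ᵥ w} := by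
  obtain ⟨W, hW⟩ : ∃ W : Submodule ℂ (I → ℂ), W = Submodule.span ℂ {v |
      ∃ l : List (Matrix I I ℂ), (∀ A ∈ l, A ∈ S) ∧
        ∃ w : I → ℂ, v = (l.prod * N) *ᵥ w ∨ v = (l.prod * Nᴴ) *ᵥ w} := ⟨_, rfl⟩
  rw [← hW]
  have hNh : Nᴴ ∈ S := hL.star _ hN
  have hWS : ∀ A ∈ S, ∀ x ∈ W, A *ᵥ x ∈ W := by
    intro A hA x hx
    rw [hW] at hx ⊢
    induction hx using Submodule.span_induction with
    | mem x hx =>
      obtain ⟨l, hl, w, hw⟩ := hx
      refine Submodule.subset_span ⟨A :: l, ?_, w, ?_⟩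
      · intro B hB
        rcases List.mem_cons.1 hB with rfl | hB
        · exact hA
        · exact hl B hB
      · rcases hw with rfl | rfl
        · left; rw [List.prod_cons, mulVec_mulVec, mul_assoc]
        · right; rw [List.prod_cons, mulVec_mulVec, mul_assoc]
    | zero => rw [mulVec_zero]; exact zero_mem _
    | add a b _ _ ha hb => rw [mulVec_add]; exact add_mem ha hb
    | smul c a _ ha => rw [mulVec_smul]; exact Submodule.smul_mem _ _ ha
  have hcomm : ∀ e : Matrix I I ℂ, (∀ A ∈ S, e * A = A * e) → ∀ l : List (Matrix I I ℂ),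
      (∀ A ∈ l, A ∈ S) → e * l.prod = l.prod * e := by
    intro e he l
    induction l with
    | nil => intro _; rw [List.prod_nil, mul_one, one_mul]
    | cons A l ih =>
      intro hl
      rw [List.prod_cons, ← mul_assoc, he A (hl A List.mem_cons_self), mul_assoc,
        ih fun B hB => hl B (List.mem_cons_of_mem _ hB), mul_assoc]
  have hWE : ∀ e : Matrix I I ℂ, (∀ A ∈ S, e * A = A * e) → ∀ x ∈ W, e *ᵥ x ∈ W := by
    intro e he x hx
    rw [hW] at hx ⊢
    induction hx using Submodule.span_induction with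
    | mem x hx =>
      obtain ⟨l, hl, w, hw⟩ := hx
      refine Submodule.subset_span ⟨l, hl, e *ᵥ w, ?_⟩
      rcases hw with rfl | rfl
      · left
        rw [mulVec_mulVec, ← mul_assoc, hcomm e he l hl, mul_assoc, he N hN, ← mul_assoc,
          mulVec_mulVec]
      · right
        rw [mulVec_mulVec, ← mul_assoc, hcomm e he l hl, mul_assoc, he _ hNh, ← mul_assoc,
          mulVec_mulVec]
    | zero => rw [mulVec_zero]; exact zero_mem _
    | add a b _ _ ha hb => rw [mulVec_add]; exact add_mem ha hb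
    | smul c a _ ha => rw [mulVec_smul]; exact Submodule.smul_mem _ _ ha
  -- the hermitian complement
  obtain ⟨U, hU⟩ : ∃ U : Submodule ℂ (I → ℂ), ∀ x, x ∈ U ↔ ∀ w ∈ W, star w ⬝ᵥ x = 0 := by
    refine ⟨{ carrier := {x | ∀ w ∈ W, star w ⬝ᵥ x = 0}
              add_mem' := ?_, zero_mem' := ?_, smul_mem' := ?_ }, fun x => Iff.rfl⟩
    · intro a b h1 h2 w hw
      rw [dotProduct_add, h1 w hw, h2 w hw, add_zero]
    · intro w _
      rw [dotProduct_zero]
    · intro c a h1 w hw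
      rw [dotProduct_smul, h1 w hw, smul_zero]
  have adj : ∀ (A : Matrix I I ℂ) (w x : I → ℂ), star w ⬝ᵥ (A *ᵥ x) = star (Aᴴ *ᵥ w) ⬝ᵥ x := by
    intro A w x
    rw [star_mulVec, conjTranspose_conjTranspose, dotProduct_mulVec]
  have hU0 : U = ⊥ := by
    refine nst U ?_ ?_ ?_
    · intro A hA x hx
      rw [hU] at hx ⊢
      intro w hw
      rw [adj]
      exact hx _ (hWS _ (hL.star A hA) w hw)
    · intro e he x hx
      rw [hU] at hx ⊢
      intro w hw
      rw [adj]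
      refine hx _ (hWE _ (fun A hA => ?_) w hw)
      have h := congrArg conjTranspose (hE e he _ (hL.star A hA))
      rw [conjTranspose_mul, conjTranspose_mul, conjTranspose_conjTranspose] at h
      exact h.symm
    · intro x hx
      rw [hU] at hx
      have h1 : Nᴴ *ᵥ (N *ᵥ x) ∈ W := by
        rw [hW]
        refine Submodule.subset_span ⟨[], by simp, N *ᵥ x, Or.inr ?_⟩
        rw [List.prod_nil, one_mul]
      have h2 := hx _ h1
      rw [← adj] at h2
      exact dotProduct_star_self_eq_zero.1 h2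
  by_contra hv
  obtain ⟨f, hf1, hf2⟩ := Submodule.exists_le_ker_of_lt_top W (lt_top_iff_ne_top.2 fun h =>
    hv (h ▸ Submodule.mem_top))
  refine hf1 ?_
  have hfe : ∀ x : I → ℂ, f x = x ⬝ᵥ (fun i => f fun j => if i = j then 1 else 0) := by
    intro x
    rw [LinearMap.pi_apply_eq_sum_univ f x]
    rfl
  have hmem : star (fun i => f fun j => if i = j then 1 else 0) ∈ U := by
    rw [hU]
    intro w hw
    have h1 : f w = 0 := hf2 hw
    rw [hfe] at h1
    rw [star_dotProduct_star, dotProduct_comm, h1, star_zero]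
  rw [hU0, Submodule.mem_bot, star_eq_zero] at hmem
  refine LinearMap.ext fun x => ?_
  rw [hfe, hmem, dotProduct_zero, LinearMap.zero_apply]

/-- Row R4. -/
theorem iso4 (h3 : R3Statement) : R4Statement := by
  intro I _ _ S E P hL hE hP hPu A0 hA0 hA0h iso N hN hNN hAN nst
  exact ⟨zero h3 S E P hL hE hP hPu A0 hA0 hA0h iso N hN hNN hAN, gen S E hL hE N hN nst⟩

end Pool.Agent.Lib.MP_361a6f_ag.FL.E.BR.Iso
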