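import Pool.Agent.Lib.MP_361a6f_ag.FL.E.BR.DefsP
import Pool.Agent.Lib.MP_361a6f_ag.FL.E.BR.Iso

/-! # Theorem BR+, row R4a -/

namespace Pool.Agent.Lib.MP_361a6f_ag.FL.E.BR.Iso

/-- Row R4a. -/
theorem iso4a (h3 : R3Statement) : R4aStatement := by
  intro I _ _ S E P hL hE hP hPu A0 hA0 hA0h iso N hN hNN hAN
  exact zero h3 S E P hL hE hP hPu A0 hA0 hA0h iso N hN hNN hAN

end Pool.Agent.Lib.MP_361a6f_ag.FL.E.BR.Iso
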