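import Pool.Agent.Lib.MP_361a6f_ag.FL.E.BR.Defs

/-!
# Theorem BR, row R1 (Lemma L)

`LemR.prod_one` and `LemR.prod_eq` for the centre of the centraliser of a real element in place of
the diagonal elements: the diagonal matrix `[x, x*]` is replaced by the sum of the `[x_b, x_b*]` over
an orthonormal basis of the space of all elements of one type.
-/

set_option maxHeartbeats 400000

open Matrix

namespace Pool.Agent.Lib.MP_361a6f_ag.FL.E.BR.LemL

set_option linter.unusedSectionVars false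

open LemR (nrm nrm_nonneg nrm_pos trace_self mult exists_bump Tri)

variable {I : Type} [Fintype I] [DecidableEq I]

/-- matrices as vectors of a Euclidean space -/
noncomputable def ev : Matrix I I ℂ ≃ₗ[ℂ] EuclideanSpace ℂ (I × I) where
  toFun A := WithLp.toLp 2 fun p => A p.1 p.2
  invFun v := Matrix.of fun i j => v (i, j)
  map_add' _ _ := rfl
  map_smul' _ _ := rfl
  left_inv _ := rfl
  right_inv _ := rfl

theorem ev_inner (A B : Matrix I I ℂ) : inner ℂ (ev A) (ev B) = (Aᴴ * B).trace := by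
  rw [PiLp.inner_apply, Fintype.sum_prod_type, Finset.sum_comm]
  simp only [Matrix.trace, Matrix.diag_apply, Matrix.mul_apply, Matrix.conjTranspose_apply]
  refine Finset.sum_congr rfl fun j _ => Finset.sum_congr rfl fun i _ => ?_
  rw [RCLike.inner_apply, mul_comm]
  rfl

/-- an orthonormal basis of a space of matrices -/
theorem onb (Y : Submodule ℂ (Matrix I I ℂ)) : ∃ (d : ℕ) (x : Fin d → Matrix I I ℂ),
    (∀ a, x a ∈ Y) ∧ (∀ a, ((x a)ᴴ * x a).trace = 1) ∧
    ∀ y ∈ Y, y = ∑ a, ((x a)ᴴ * y).trace • x a := by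
  set Y' : Submodule ℂ (EuclideanSpace ℂ (I × I)) := Y.map (ev (I := I)).toLinearMap with hY'
  let b := stdOrthonormalBasis ℂ Y'
  have hx : ∀ a, ev ((ev (I := I)).symm (b a : EuclideanSpace ℂ (I × I))) =
      (b a : EuclideanSpace ℂ (I × I)) := fun a => LinearEquiv.apply_symm_apply _ _
  refine ⟨_, fun a => (ev (I := I)).symm (b a : EuclideanSpace ℂ (I × I)), fun a => ?_,
    fun a => ?_, fun y hy => ?_⟩
  · obtain ⟨y, hy, h1⟩ := Submodule.mem_map.1 (b a).2
    have h2 : (ev (I := I)).symm (b a : EuclideanSpace ℂ (I × I)) = y := by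
      rw [LinearEquiv.symm_apply_eq]
      exact h1.symm
    show (ev (I := I)).symm (b a : EuclideanSpace ℂ (I × I)) ∈ Y
    rw [h2]
    exact hy
  · rw [← ev_inner, hx]
    have h1 := b.orthonormal.1 a
    rw [inner_self_eq_norm_sq_to_K]
    have h2 : ‖(b a : EuclideanSpace ℂ (I × I))‖ = 1 := h1
    rw [h2]
    simp
  · have h1 := b.sum_repr' ⟨ev y, Submodule.mem_map_of_mem hy⟩
    have h2 := congrArg (fun v : Y' => (ev (I := I)).symm (v : EuclideanSpace ℂ (I × I))) h1
    simp only [Submodule.coe_sum, Submodule.coe_smul, map_sum, map_smul] at h2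
    have h3 : (ev (I := I)).symm (ev y) = y := LinearEquiv.symm_apply_apply _ _
    rw [h3] at h2
    rw [← h2]
    refine Finset.sum_congr rfl fun a _ => ?_
    congr 1
    rw [← ev_inner, hx, h2]
    rfl

theorem entry_comm {A : Matrix I I ℂ} {T : I → ℂ} (h : A * diagonal T = diagonal T * A)
    {i j : I} (hij : A i j ≠ 0) : T i = T j := by
  have h1 := congrFun (congrFun h i) j
  rw [Matrix.mul_diagonal, Matrix.diagonal_mul, mul_comm] at h1
  exact (mul_right_cancel₀ hij h1).symm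

section

variable {S : Submodule ℂ (Matrix I I ℂ)} {κ a : I → ℂ}

theorem a_mem (Z : ZSit S κ a) : diagonal a ∈ zen S (diagonal a) :=
  ⟨Z.mem, rfl, fun _ _ h => h.symm⟩

theorem conj_a (Z : ZSit S κ a) : (diagonal a)ᴴ = diagonal a := by
  rw [Matrix.diagonal_conjTranspose]
  congr 1
  funext i
  exact Z.real i

/-- the space of all elements of type `(α, c)` -/
def YS (S : Submodule ℂ (Matrix I I ℂ)) (κ a : I → ℂ) (α : (I → ℂ) → ℂ) (c : ℂ) :
    Submodule ℂ (Matrix I I ℂ) where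
  carrier := {y | y ∈ S ∧ ∀ i j, y i j ≠ 0 →
    (∀ T, diagonal T ∈ zen S (diagonal a) → T i - T j = α T) ∧ κ i = c * κ j}
  add_mem' := by
    rintro x y ⟨hx, hx'⟩ ⟨hy, hy'⟩
    refine ⟨S.add_mem hx hy, fun i j hij => ?_⟩
    by_cases h0 : x i j = 0
    · refine hy' i j fun h1 => hij ?_
      rw [Matrix.add_apply, h0, h1, add_zero]
    · exact hx' i j h0
  zero_mem' := ⟨S.zero_mem, fun i j hij => absurd rfl hij⟩
  smul_mem' := by
    rintro r x ⟨hx, hx'⟩
    refine ⟨S.smul_mem r hx, fun i j hij => hx' i j fun h0 => hij ?_⟩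
    rw [Matrix.smul_apply, h0, smul_zero]

/-- the centraliser of `diag a` acts on the elements of one type -/
theorem ys_act (Z : ZSit S κ a) {α : (I → ℂ) → ℂ} {c : ℂ} {A y : Matrix I I ℂ} (hA : A ∈ S)
    (hAa : A * diagonal a = diagonal a * A) (hy : y ∈ YS S κ a α c) :
    A * y - y * A ∈ YS S κ a α c := by
  have hT : ∀ T, diagonal T ∈ zen S (diagonal a) → ∀ i j, A i j ≠ 0 → T i = T j :=
    fun T hT i j hij => entry_comm (hT.2.2 A hA hAa).symm hij
  have hκ : ∀ i j, A i j ≠ 0 → κ i = κ j := fun i j hij => Z.eq i j (entry_comm hAa hij)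
  refine ⟨Z.lie _ hA _ hy.1, fun i j hij => ?_⟩
  obtain ⟨k, hk⟩ : ∃ k, (A i k ≠ 0 ∧ y k j ≠ 0) ∨ (y i k ≠ 0 ∧ A k j ≠ 0) := by
    by_contra hc
    push Not at hc
    apply hij
    simp only [Matrix.sub_apply, Matrix.mul_apply]
    have h1 : ∀ k, A i k * y k j = 0 := by
      intro k
      by_cases h0 : A i k = 0
      · simp [h0]
      · rw [(hc k).1 h0, mul_zero]
    have h2 : ∀ k, y i k * A k j = 0 := by
      intro k
      by_cases h0 : y i k = 0
      · simp [h0]
      · rw [(hc k).2 h0, mul_zero]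
    simp only [h1, h2, Finset.sum_const_zero, sub_zero]
  rcases hk with ⟨h1, h2⟩ | ⟨h1, h2⟩
  · obtain ⟨h3, h4⟩ := hy.2 k j h2
    refine ⟨fun T hT' => ?_, ?_⟩
    · rw [hT T hT' i k h1]
      exact h3 T hT'
    · rw [hκ i k h1]
      exact h4
  · obtain ⟨h3, h4⟩ := hy.2 i k h1
    refine ⟨fun T hT' => ?_, ?_⟩
    · rw [← hT T hT' k j h2]
      exact h3 T hT'
    · rw [← hκ k j h2]
      exact h4

/-- the sum of the `[x_b, x_b*]` over an orthonormal basis commutes with everything that acts on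
the space together with its adjoint -/
theorem comm_M {Y : Submodule ℂ (Matrix I I ℂ)} {d : ℕ} {x : Fin d → Matrix I I ℂ}
    (hY : ∀ b, x b ∈ Y) (hx : ∀ y ∈ Y, y = ∑ b, ((x b)ᴴ * y).trace • x b) {A : Matrix I I ℂ}
    (h1 : ∀ y ∈ Y, A * y - y * A ∈ Y) (h2 : ∀ y ∈ Y, Aᴴ * y - y * Aᴴ ∈ Y) :
    A * (∑ b, (x b * (x b)ᴴ - (x b)ᴴ * x b)) = (∑ b, (x b * (x b)ᴴ - (x b)ᴴ * x b)) * A := by
  let c : Fin d → Fin d → ℂ := fun b b' => ((x b')ᴴ * (A * x b - x b * A)).trace
  have e1 : ∀ b, A * x b - x b * A = ∑ b', c b b' • x b' := fun b => hx _ (h1 _ (hY b))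
  have e2 : ∀ b, (x b)ᴴ * A - A * (x b)ᴴ = ∑ b', c b' b • (x b')ᴴ := by
    intro b
    have h3 := congrArg Matrix.conjTranspose (hx _ (h2 _ (hY b)))
    rw [Matrix.conjTranspose_sub, Matrix.conjTranspose_mul, Matrix.conjTranspose_mul,
      Matrix.conjTranspose_conjTranspose, Matrix.conjTranspose_sum] at h3
    rw [h3]
    refine Finset.sum_congr rfl fun b' _ => ?_
    rw [Matrix.conjTranspose_smul]
    congr 1
    rw [← Matrix.trace_conjTranspose, Matrix.conjTranspose_mul, Matrix.conjTranspose_sub,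
      Matrix.conjTranspose_mul, Matrix.conjTranspose_mul, Matrix.conjTranspose_conjTranspose,
      Matrix.conjTranspose_conjTranspose]
    show (((x b)ᴴ * A - A * (x b)ᴴ) * x b').trace = ((x b)ᴴ * (A * x b' - x b' * A)).trace
    rw [Matrix.sub_mul, Matrix.mul_sub, Matrix.trace_sub, Matrix.trace_sub, Matrix.mul_assoc,
      Matrix.mul_assoc A, Matrix.trace_mul_comm A, Matrix.mul_assoc]
  have p12 : ∑ b, (A * x b - x b * A) * (x b)ᴴ = ∑ b, x b * ((x b)ᴴ * A - A * (x b)ᴴ) := by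
    have l1 : ∑ b, (A * x b - x b * A) * (x b)ᴴ = ∑ b, ∑ b', c b b' • (x b' * (x b)ᴴ) := by
      refine Finset.sum_congr rfl fun b _ => ?_
      rw [e1, Finset.sum_mul]
      exact Finset.sum_congr rfl fun b' _ => Matrix.smul_mul _ _ _
    have l2 : ∑ b, x b * ((x b)ᴴ * A - A * (x b)ᴴ) = ∑ b, ∑ b', c b' b • (x b * (x b')ᴴ) := by
      refine Finset.sum_congr rfl fun b _ => ?_
      rw [e2, Finset.mul_sum]
      exact Finset.sum_congr rfl fun b' _ => Matrix.mul_smul _ _ _
    rw [l1, l2, Finset.sum_comm]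
  have p34 : ∑ b, (x b)ᴴ * (A * x b - x b * A) = ∑ b, ((x b)ᴴ * A - A * (x b)ᴴ) * x b := by
    have l1 : ∑ b, (x b)ᴴ * (A * x b - x b * A) = ∑ b, ∑ b', c b b' • ((x b)ᴴ * x b') := by
      refine Finset.sum_congr rfl fun b _ => ?_
      rw [e1, Finset.mul_sum]
      exact Finset.sum_congr rfl fun b' _ => Matrix.mul_smul _ _ _
    have l2 : ∑ b, ((x b)ᴴ * A - A * (x b)ᴴ) * x b = ∑ b, ∑ b', c b' b • ((x b')ᴴ * x b) := by
      refine Finset.sum_congr rfl fun b _ => ?_
      rw [e2, Finset.sum_mul]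
      exact Finset.sum_congr rfl fun b' _ => Matrix.smul_mul _ _ _
    rw [l1, l2, Finset.sum_comm]
  rw [← sub_eq_zero, Finset.mul_sum, Finset.sum_mul, ← Finset.sum_sub_distrib]
  have key : ∑ b, (A * (x b * (x b)ᴴ - (x b)ᴴ * x b) - (x b * (x b)ᴴ - (x b)ᴴ * x b) * A) =
      (∑ b, (A * x b - x b * A) * (x b)ᴴ - ∑ b, x b * ((x b)ᴴ * A - A * (x b)ᴴ)) -
      (∑ b, (x b)ᴴ * (A * x b - x b * A) - ∑ b, ((x b)ᴴ * A - A * (x b)ᴴ) * x b) := by
    rw [← Finset.sum_sub_distrib, ← Finset.sum_sub_distrib, ← Finset.sum_sub_distrib]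
    refine Finset.sum_congr rfl fun b _ => ?_
    noncomm_ring
  rw [key, p12, p34, sub_self, sub_self, sub_self]

theorem ys_comm {α : (I → ℂ) → ℂ} {c : ℂ} {y : Matrix I I ℂ} (hy : y ∈ YS S κ a α c) {T : I → ℂ}
    (hT : diagonal T ∈ zen S (diagonal a)) : diagonal T * y - y * diagonal T = α T • y := by
  ext i j
  simp only [Matrix.sub_apply, Matrix.diagonal_mul, Matrix.mul_diagonal, Matrix.smul_apply,
    smul_eq_mul]
  by_cases hij : y i j = 0
  · simp [hij]
  · rw [← (hy.2 i j hij).1 T hT]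
    ring

/-- the real element `M = ∑ [x_b, x_b*]` of the centre -/
theorem exists_M (Z : ZSit S κ a) (α : (I → ℂ) → ℂ) (c : ℂ) :
    ∃ (d : ℕ) (x : Fin d → Matrix I I ℂ) (T0 : I → ℂ),
      (∀ b, x b ∈ YS S κ a α c) ∧ (∑ b, (x b * (x b)ᴴ - (x b)ᴴ * x b)) = diagonal T0 ∧
      diagonal T0 ∈ zen S (diagonal a) ∧
      (∀ T, diagonal T ∈ zen S (diagonal a) → ∑ i, T i * T0 i = α T * d) ∧
      (∀ y ∈ YS S κ a α c, y ≠ 0 → 0 < d) ∧ ∀ i, ∃ r : ℝ, T0 i = r := by
  obtain ⟨d, x, hY, hn, hx⟩ := onb (YS S κ a α c)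
  have hmem : (∑ b, (x b * (x b)ᴴ - (x b)ᴴ * x b)) ∈ S :=
    S.sum_mem fun b _ => Z.lie _ (hY b).1 _ (Z.star _ (hY b).1)
  have hcomm : ∀ A ∈ S, A * diagonal a = diagonal a * A →
      A * (∑ b, (x b * (x b)ᴴ - (x b)ᴴ * x b)) =
        (∑ b, (x b * (x b)ᴴ - (x b)ᴴ * x b)) * A := by
    intro A hA hAa
    refine comm_M hY hx (fun y hy => ys_act Z hA hAa hy)
      (fun y hy => ys_act Z (Z.star _ hA) ?_ hy)
    have h1 := congrArg Matrix.conjTranspose hAa
    rw [Matrix.conjTranspose_mul, Matrix.conjTranspose_mul, conj_a Z] at h1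
    exact h1.symm
  have hzen : (∑ b, (x b * (x b)ᴴ - (x b)ᴴ * x b)) ∈ zen S (diagonal a) :=
    ⟨hmem, (hcomm _ Z.mem rfl).symm, fun A hA hAa => (hcomm A hA hAa).symm⟩
  obtain ⟨T0, hT0⟩ := Z.dia _ hzen
  refine ⟨d, x, T0, hY, hT0, hT0 ▸ hzen, fun T hT => ?_, fun y hy hy0 => ?_, fun i => ?_⟩
  · have h1 : ∑ i, T i * T0 i = (diagonal T * diagonal T0).trace := by
      rw [Matrix.diagonal_mul_diagonal, Matrix.trace_diagonal]
    have h2 : ∀ b, (diagonal T * (x b * (x b)ᴴ - (x b)ᴴ * x b)).trace = α T := by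
      intro b
      have h3 : (diagonal T * (x b * (x b)ᴴ - (x b)ᴴ * x b)).trace =
          ((diagonal T * x b - x b * diagonal T) * (x b)ᴴ).trace := by
        rw [Matrix.mul_sub, Matrix.sub_mul, Matrix.trace_sub, Matrix.trace_sub,
          ← Matrix.mul_assoc, ← Matrix.mul_assoc, Matrix.trace_mul_comm (diagonal T * (x b)ᴴ),
          ← Matrix.mul_assoc]
      rw [h3, ys_comm (hY b) hT, Matrix.smul_mul, Matrix.trace_smul, Matrix.trace_mul_comm, hn,
        smul_eq_mul, mul_one]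
    rw [h1, ← hT0, Finset.mul_sum, Matrix.trace_sum, Finset.sum_congr rfl fun b _ => h2 b,
      Finset.sum_const, Finset.card_univ, Fintype.card_fin, nsmul_eq_mul, mul_comm]
  · rcases Nat.eq_zero_or_pos d with h0 | h0
    · subst h0
      exact absurd (by simpa using hx y hy) hy0
    · exact h0
  · have h1 : (diagonal T0)ᴴ = diagonal T0 := by
      rw [← hT0, Matrix.conjTranspose_sum]
      refine Finset.sum_congr rfl fun b _ => ?_
      rw [Matrix.conjTranspose_sub, Matrix.conjTranspose_mul, Matrix.conjTranspose_mul,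
        Matrix.conjTranspose_conjTranspose]
    have h2 := congrFun (congrFun h1 i) i
    rw [Matrix.conjTranspose_apply, Matrix.diagonal_apply_eq] at h2
    obtain ⟨r, hr⟩ := Complex.conj_eq_iff_real.1 h2
    exact ⟨r, hr⟩

/-- the trace identity for commuting `x`, `z` -/
theorem tr_comm {x z : Matrix I I ℂ} (hc : x * z = z * x) :
    (((x * xᴴ - xᴴ * x) * z - z * (x * xᴴ - xᴴ * x)) * zᴴ).trace =
      (nrm (xᴴ * z - z * xᴴ) : ℂ) := by
  have hc' : xᴴ * zᴴ = zᴴ * xᴴ := by
    have := congrArg Matrix.conjTranspose hc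
    rw [Matrix.conjTranspose_mul, Matrix.conjTranspose_mul] at this
    exact this.symm
  rw [← trace_self]
  have hyH : (xᴴ * z - z * xᴴ)ᴴ = zᴴ * x - x * zᴴ := by
    rw [Matrix.conjTranspose_sub, Matrix.conjTranspose_mul, Matrix.conjTranspose_mul,
      Matrix.conjTranspose_conjTranspose]
  rw [hyH]
  have e1 : (xᴴ * z * (zᴴ * x)).trace = (x * xᴴ * z * zᴴ).trace := by
    rw [show xᴴ * z * (zᴴ * x) = (xᴴ * z * zᴴ) * x by noncomm_ring, Matrix.trace_mul_comm]
    congr 1
    noncomm_ring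
  have e2 : (xᴴ * z * (x * zᴴ)).trace = (xᴴ * x * z * zᴴ).trace := by
    rw [show xᴴ * z * (x * zᴴ) = xᴴ * (z * x) * zᴴ by noncomm_ring, ← hc]
    congr 1
    noncomm_ring
  have e3 : (z * xᴴ * (zᴴ * x)).trace = (z * (x * xᴴ) * zᴴ).trace := by
    rw [show z * xᴴ * (zᴴ * x) = z * (xᴴ * zᴴ) * x by noncomm_ring, Matrix.trace_mul_comm,
      show x * (z * (xᴴ * zᴴ)) = (x * z) * (xᴴ * zᴴ) by noncomm_ring, hc]
    congr 1
    noncomm_ring
  have e4 : (z * xᴴ * (x * zᴴ)).trace = (z * (xᴴ * x) * zᴴ).trace := by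
    congr 1
    noncomm_ring
  simp only [sub_mul, mul_sub, Matrix.trace_sub]
  rw [e1, e2, e3, e4]
  ring

/-- the value of `α` at `M` is a positive real number unless `α` is zero -/
theorem pos_M {α : (I → ℂ) → ℂ} {d : ℕ} {T0 : I → ℂ} (hd : 0 < d)
    (h0 : diagonal T0 ∈ zen S (diagonal a))
    (hs : ∀ T, diagonal T ∈ zen S (diagonal a) → ∑ i, T i * T0 i = α T * d)
    (hr : ∀ i, ∃ r : ℝ, T0 i = r) {T : I → ℂ} (hT : diagonal T ∈ zen S (diagonal a))
    (ha : α T ≠ 0) : 0 < (α T0).re := by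
  choose r hr using hr
  have hd' : (0 : ℝ) < d := by exact_mod_cast hd
  have h4 : ∑ i, T0 i * T0 i = ((∑ i, r i * r i : ℝ) : ℂ) := by
    push_cast
    refine Finset.sum_congr rfl fun i _ => ?_
    rw [hr]
  have h5 : (∑ i, r i * r i : ℝ) = (α T0).re * d := by
    have h6 := congrArg Complex.re (h4.symm.trans (hs T0 h0))
    rw [Complex.ofReal_re, ← Complex.ofReal_natCast, Complex.re_mul_ofReal] at h6
    exact h6
  have h7 : 0 < ∑ i, r i * r i := by
    obtain ⟨i, hi⟩ : ∃ i, r i ≠ 0 := by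
      by_contra hc
      push Not at hc
      apply ha
      have h8 : α T * (d : ℂ) = 0 := by
        rw [← hs T hT]
        refine Finset.sum_eq_zero fun i _ => ?_
        rw [hr, hc i]
        simp
      rcases mul_eq_zero.1 h8 with h9 | h9
      · exact h9
      · exact absurd (Nat.cast_eq_zero.1 h9) hd.ne'
    have h8 : 0 < r i * r i := mul_self_pos.2 hi
    have h9 : r i * r i ≤ ∑ i, r i * r i :=
      Finset.single_le_sum (f := fun i => r i * r i) (fun _ _ => mul_self_nonneg _)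
        (Finset.mem_univ i)
    linarith
  rw [h5] at h7
  exact (pos_iff_pos_of_mul_pos h7).2 hd'

theorem ys_of_hom {x : Matrix I I ℂ} {α : (I → ℂ) → ℂ} {c : ℂ} (hx : HomZ S κ a x α c) :
    x ∈ YS S κ a α c :=
  ⟨hx.mem, fun i j hij => ⟨fun T hT => hx.wt i j hij T hT, hx.kk i j hij⟩⟩

theorem hom_of_ys {x : Matrix I I ℂ} {α : (I → ℂ) → ℂ} {c : ℂ} (hx : x ∈ YS S κ a α c)
    (h0 : x ≠ 0) : HomZ S κ a x α c :=
  ⟨hx.1, h0, fun i j hij T hT => (hx.2 i j hij).1 T hT, fun i j hij => (hx.2 i j hij).2⟩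

/-- some element of the basis does not commute with an element of negative type -/
theorem comm_ne {d : ℕ} {x : Fin d → Matrix I I ℂ} {T0 : I → ℂ}
    (hM : (∑ b, (x b * (x b)ᴴ - (x b)ᴴ * x b)) = diagonal T0)
    (h0 : diagonal T0 ∈ zen S (diagonal a)) {z : Matrix I I ℂ} {β : (I → ℂ) → ℂ} {c : ℂ}
    (hz : HomZ S κ a z β c) (hneg : (β T0).re < 0) : ∃ b, x b * z - z * x b ≠ 0 := by
  by_contra hc
  push Not at hc
  have h1 : ((diagonal T0 * z - z * diagonal T0) * zᴴ).trace =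
      ((∑ b, nrm ((x b)ᴴ * z - z * (x b)ᴴ) : ℝ) : ℂ) := by
    rw [← hM, Finset.sum_mul, Finset.mul_sum, ← Finset.sum_sub_distrib, Finset.sum_mul,
      Matrix.trace_sum]
    push_cast
    exact Finset.sum_congr rfl fun b _ => tr_comm (sub_eq_zero.1 (hc b))
  rw [ys_comm (ys_of_hom hz) h0, Matrix.smul_mul, Matrix.trace_smul, trace_self,
    smul_eq_mul] at h1
  have h3 := congrArg Complex.re h1
  rw [Complex.ofReal_re, Complex.re_mul_ofReal] at h3
  have h4 : 0 ≤ ∑ b, nrm ((x b)ᴴ * z - z * (x b)ᴴ) := Finset.sum_nonneg fun b _ => nrm_nonneg _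
  have h5 := nrm_pos hz.ne
  have h6 := mul_neg_of_neg_of_pos hneg h5
  linarith

/-- the commutator of two homogeneous elements is homogeneous or zero -/
theorem hom_comm (Z : ZSit S κ a) {x z : Matrix I I ℂ} {α β : (I → ℂ) → ℂ} {c d : ℂ}
    (hx : HomZ S κ a x α c) (hz : HomZ S κ a z β d) (hne : x * z - z * x ≠ 0) :
    HomZ S κ a (x * z - z * x) (fun T => α T + β T) (c * d) := by
  have key : ∀ i j, (x * z - z * x) i j ≠ 0 →
      ∃ k, (x i k ≠ 0 ∧ z k j ≠ 0) ∨ (z i k ≠ 0 ∧ x k j ≠ 0) := by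
    intro i j hij
    by_contra hc
    push Not at hc
    apply hij
    simp only [Matrix.sub_apply, Matrix.mul_apply]
    have h1 : ∀ k, x i k * z k j = 0 := by
      intro k
      by_cases h0 : x i k = 0
      · simp [h0]
      · rw [(hc k).1 h0, mul_zero]
    have h2 : ∀ k, z i k * x k j = 0 := by
      intro k
      by_cases h0 : z i k = 0
      · simp [h0]
      · rw [(hc k).2 h0, mul_zero]
    simp only [h1, h2, Finset.sum_const_zero, sub_zero]
  refine ⟨Z.lie _ hx.mem _ hz.mem, hne, ?_, ?_⟩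
  · intro i j hij T hT
    obtain ⟨k, ⟨h1, h2⟩ | ⟨h1, h2⟩⟩ := key i j hij
    · linear_combination hx.wt i k h1 T hT + hz.wt k j h2 T hT
    · linear_combination hz.wt i k h1 T hT + hx.wt k j h2 T hT
  · intro i j hij
    obtain ⟨k, ⟨h1, h2⟩ | ⟨h1, h2⟩⟩ := key i j hij
    · rw [hx.kk i k h1, hz.kk k j h2]
      ring
    · rw [hz.kk i k h1, hx.kk k j h2]
      ring

/-- homogeneous elements whose types add up to zero have product of ratios one -/
theorem prod_one (Z : ZSit S κ a) : ∀ (n : ℕ) (s : Multiset (Tri I)), Multiset.card s = n →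
    (∀ p ∈ s, HomZ S κ a p.1 p.2.1 p.2.2) →
    (∀ T, diagonal T ∈ zen S (diagonal a) → (s.map fun p => p.2.1 T).sum = 0) →
    (s.map fun p => p.2.2).prod = 1 := by
  intro n
  induction n with
  | zero =>
    intro s hs _ _
    rw [Multiset.card_eq_zero.1 hs]
    simp
  | succ n ih =>
    intro s hs hp hsum
    obtain ⟨p, hps⟩ : ∃ p, p ∈ s := by
      apply Multiset.exists_mem_of_ne_zero
      intro h0
      rw [h0] at hs
      simp at hs
    obtain ⟨s1, rfl⟩ := Multiset.exists_cons_of_mem hps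
    have hs1 : Multiset.card s1 = n := by
      rw [Multiset.card_cons] at hs
      omega
    have hP := hp p (Multiset.mem_cons_self p s1)
    have hp1 : ∀ q ∈ s1, HomZ S κ a q.1 q.2.1 q.2.2 :=
      fun q hq => hp q (Multiset.mem_cons_of_mem hq)
    by_cases ha : ∀ T, diagonal T ∈ zen S (diagonal a) → p.2.1 T = 0
    · -- the element commutes with `diag a`
      obtain ⟨i, j, hij⟩ : ∃ i j, p.1 i j ≠ 0 := by
        by_contra hc
        push Not at hc
        exact hP.ne (by ext i j; simpa using hc i j)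
      have h2 : a i = a j :=
        sub_eq_zero.1 ((hP.wt i j hij a (a_mem Z)).trans (ha a (a_mem Z)))
      have h3 : p.2.2 = 1 := by
        have h4 := hP.kk i j hij
        rw [Z.eq i j h2] at h4
        exact (mul_right_cancel₀ (Z.ne j) (by rw [one_mul]; exact h4)).symm
      rw [Multiset.map_cons, Multiset.prod_cons, h3, one_mul]
      refine ih s1 hs1 hp1 fun T hT => ?_
      have h5 := hsum T hT
      rw [Multiset.map_cons, Multiset.sum_cons, ha T hT, zero_add] at h5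
      exact h5
    · push Not at ha
      obtain ⟨T, hmem, ha⟩ := ha
      obtain ⟨d, x, T0, hY, hM, h0, hs0, hd, hr⟩ := exists_M Z p.2.1 p.2.2
      have h1 := pos_M (hd _ (ys_of_hom hP) hP.ne) h0 hs0 hr hmem ha
      have h2 := hsum _ h0
      rw [Multiset.map_cons, Multiset.sum_cons] at h2
      obtain ⟨q, hq, hneg⟩ : ∃ q : Tri I, q ∈ s1 ∧ (q.2.1 T0).re < 0 := by
        by_contra hc
        push Not at hc
        have h3 := congrArg Complex.re h2
        rw [Complex.add_re, Complex.zero_re] at h3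
        have h4 : ((s1.map fun q : Tri I => q.2.1 T0).sum).re
            = (s1.map fun q : Tri I => (q.2.1 T0).re).sum := by
          have h5 := Multiset.sum_hom (s1.map fun q : Tri I => q.2.1 T0) Complex.reAddGroupHom
          rw [Multiset.map_map] at h5
          exact h5.symm
        have h5 : 0 ≤ (s1.map fun q : Tri I => (q.2.1 T0).re).sum := by
          apply Multiset.sum_nonneg
          intro r hr
          obtain ⟨q, hq, rfl⟩ := Multiset.mem_map.1 hr
          exact hc q hq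
        rw [h4] at h3
        linarith
      obtain ⟨s2, rfl⟩ := Multiset.exists_cons_of_mem hq
      have hQ := hp1 q (Multiset.mem_cons_self q s2)
      obtain ⟨b, hne⟩ := comm_ne hM h0 hQ hneg
      have hXb : HomZ S κ a (x b) p.2.1 p.2.2 := hom_of_ys (hY b) fun h3 => hne (by
        rw [h3, zero_mul, mul_zero, sub_zero])
      have hPQ := hom_comm Z hXb hQ hne
      have h6 := ih ((x b * q.1 - q.1 * x b, (fun T => p.2.1 T + q.2.1 T), p.2.2 * q.2.2) ::ₘ s2)
        (by rw [Multiset.card_cons]; rw [Multiset.card_cons] at hs1; exact hs1) ?_ ?_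
      · rw [Multiset.map_cons, Multiset.prod_cons] at h6
        rw [Multiset.map_cons, Multiset.prod_cons, Multiset.map_cons, Multiset.prod_cons,
          ← mul_assoc]
        exact h6
      · intro r hr
        rcases Multiset.mem_cons.1 hr with rfl | hr
        · exact hPQ
        · exact hp1 r (Multiset.mem_cons_of_mem hr)
      · intro T hT
        have h7 := hsum T hT
        rw [Multiset.map_cons, Multiset.sum_cons, Multiset.map_cons, Multiset.sum_cons,
          ← add_assoc] at h7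
        rw [Multiset.map_cons, Multiset.sum_cons]
        exact h7

theorem mult_T (Z : ZSit S κ a) {T : I → ℂ} (hT : diagonal T ∈ zen S (diagonal a)) :
    (fun p : I × I => T p.1 - T p.2) ∈ mult S := by
  intro x hx
  refine (congrArg (· ∈ S) ?_).mp (Z.lie _ hT.1 x hx)
  ext i j
  simp [Matrix.diagonal_mul, Matrix.mul_diagonal]
  ring

theorem mult_k (Z : ZSit S κ a) : (fun p : I × I => κ p.1 * (κ p.2)⁻¹) ∈ mult S := by
  intro x hx
  refine (congrArg (· ∈ S) ?_).mp (Z.ad x hx)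
  ext i j
  simp [Matrix.diagonal_mul, Matrix.mul_diagonal]
  ring

/-- every entry of an element of `S` is an entry of a homogeneous element -/
theorem exists_hom (Z : ZSit S κ a) {x : Matrix I I ℂ} (hx : x ∈ S) {i j : I}
    (hij : x i j ≠ 0) : ∃ y, HomZ S κ a y (fun T => T i - T j) (κ i * (κ j)⁻¹) ∧ y i j ≠ 0 := by
  obtain ⟨e, he, he1, he2⟩ := exists_bump (mult S) (i, j)
  have hy : (Matrix.of fun i j => e (i, j) * x i j) i j ≠ 0 := by
    simpa [he1] using hij
  refine ⟨Matrix.of fun i j => e (i, j) * x i j, ⟨he x hx, ?_, ?_, ?_⟩, hy⟩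
  · intro h0
    rw [h0] at hy
    exact hy rfl
  · intro k l hkl T hT
    have h1 : e (k, l) ≠ 0 := by
      intro h0
      apply hkl
      simp [h0]
    exact he2 (k, l) h1 _ (mult_T Z hT)
  · intro k l hkl
    have h1 : e (k, l) ≠ 0 := by
      intro h0
      apply hkl
      simp [h0]
    have h2 : κ k * (κ l)⁻¹ = κ i * (κ j)⁻¹ := he2 (k, l) h1 _ (mult_k Z)
    have h3 := Z.ne l
    rw [← h2, mul_assoc, inv_mul_cancel₀ h3, mul_one]

theorem conn_step (Z : ZSit S κ a) {i j k : I} {A : Matrix I I ℂ} (hA : A ∈ S)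
    (hij : A i j ≠ 0) (hjk : ConnZ S κ a j k) : ConnZ S κ a i k := by
  obtain ⟨y, hy, -⟩ := exists_hom Z hA hij
  obtain ⟨s, h1, h2, h3⟩ := hjk
  refine ⟨(y, (fun T => T i - T j), κ i * (κ j)⁻¹) ::ₘ s, ?_, ?_, ?_⟩
  · intro p hp
    rcases Multiset.mem_cons.1 hp with rfl | hp
    · exact hy
    · exact h1 p hp
  · intro T hT
    rw [Multiset.map_cons, Multiset.sum_cons]
    have h4 := h2 T hT
    linear_combination h4
  · rw [Multiset.map_cons, Multiset.prod_cons]
    have h4 := Z.ne j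
    have h5 : κ i * (κ j)⁻¹ * κ j = κ i := by
      rw [mul_assoc, inv_mul_cancel₀ h4, mul_one]
    rw [mul_assoc, ← h3]
    exact h5.symm

/-- two words with connected letters and equal weights -/
theorem prod_eq (Z : ZSit S κ a) {ι : Type} [Fintype ι] (w b : ι → I)
    (hc : ∀ j, ConnZ S κ a (w j) (b j))
    (hw : ∀ T, diagonal T ∈ zen S (diagonal a) → ∑ j, T (w j) = ∑ j, T (b j)) :
    ∏ j, κ (w j) = ∏ j, κ (b j) := by
  choose s h1 h2 h3 using hc
  have h4 := prod_one Z (Multiset.card (∑ j, s j)) (∑ j, s j) rfl ?_ ?_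
  · have h5 : ((∑ j, s j).map fun p => p.2.2).prod = ∏ j, ((s j).map fun p => p.2.2).prod := by
      rw [← Multiset.coe_mapAddMonoidHom, map_sum, Multiset.prod_sum]
    rw [h5] at h4
    calc ∏ j, κ (w j) = ∏ j, (((s j).map fun p => p.2.2).prod * κ (b j)) :=
          Finset.prod_congr rfl fun j _ => h3 j
      _ = ∏ j, κ (b j) := by rw [Finset.prod_mul_distrib, h4, one_mul]
  · intro p hp
    rw [Multiset.mem_sum] at hp
    obtain ⟨j, -, hj⟩ := hp
    exact h1 j p hj
  · intro T hT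
    have h5 : ((∑ j, s j).map fun p => p.2.1 T).sum = ∑ j, ((s j).map fun p => p.2.1 T).sum := by
      rw [← Multiset.coe_mapAddMonoidHom, map_sum, Multiset.sum_sum]
    rw [h5]
    have h6 : ∀ j, ((s j).map fun p => p.2.1 T).sum = T (w j) - T (b j) := by
      intro j
      linear_combination -(h2 j T hT)
    simp only [h6]
    rw [Finset.sum_sub_distrib, hw T hT, sub_self]

end

/-- the entries of `M` -/
theorem M_entry {d : ℕ} {x : Fin d → Matrix I I ℂ} {T0 : I → ℂ}
    (hM : (∑ b, (x b * (x b)ᴴ - (x b)ᴴ * x b)) = diagonal T0) (i : I) :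
    T0 i = ((∑ b, ∑ l, (‖x b i l‖ ^ 2 - ‖x b l i‖ ^ 2) : ℝ) : ℂ) := by
  have h1 := congrFun (congrFun hM i) i
  rw [Matrix.diagonal_apply_eq, Matrix.sum_apply] at h1
  rw [← h1]
  push_cast
  refine Finset.sum_congr rfl fun b _ => ?_
  have h2 := LemR.tt_eq (x b) i
  unfold LemR.tt at h2
  rw [h2]
  push_cast
  rfl

/-- Row R1m: the lemma on `M`, for the entries. -/
theorem exists_m {S : Submodule ℂ (Matrix I I ℂ)} {κ a : I → ℂ} (Z : ZSit S κ a)
    {x : Matrix I I ℂ} {α : (I → ℂ) → ℂ} {c : ℂ} (hx : HomZ S κ a x α c) :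
    ∃ (m : I → ℝ) (d : ℝ), 0 < d ∧ diagonal (fun i => (m i : ℂ)) ∈ zen S (diagonal a) ∧
      (∀ T, diagonal T ∈ zen S (diagonal a) → ∑ i, T i * (m i : ℂ) = d * α T) ∧
      (∀ i, 0 < m i → ∃ y l, HomZ S κ a y α c ∧ y i l ≠ 0) ∧
      (∀ i, m i < 0 → ∃ y l, HomZ S κ a y α c ∧ y l i ≠ 0) := by
  obtain ⟨d, y, T0, hY, hM, h0, hs0, hd, -⟩ := exists_M Z α c
  have hm := M_entry hM
  have hT0 : T0 = fun i => ((∑ b, ∑ l, (‖y b i l‖ ^ 2 - ‖y b l i‖ ^ 2) : ℝ) : ℂ) := funext hm
  refine ⟨fun i => ∑ b, ∑ l, (‖y b i l‖ ^ 2 - ‖y b l i‖ ^ 2), d, ?_, ?_, fun T hT => ?_,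
    fun i hi => ?_, fun i hi => ?_⟩
  · exact_mod_cast hd _ (ys_of_hom hx) hx.ne
  · rw [← hT0]
    exact h0
  · have h1 := hs0 T hT
    rw [hT0] at h1
    rw [h1, mul_comm]
    push_cast
    rfl
  · by_contra hc
    push Not at hc
    refine absurd hi (not_lt.2 (Finset.sum_nonpos fun b _ => Finset.sum_nonpos fun l _ => ?_))
    have h1 : y b i l = 0 := by
      by_contra h2
      exact h2 (hc (y b) l (hom_of_ys (hY b) fun h3 => h2 (by rw [h3]; rfl)))
    rw [h1, norm_zero]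
    have := sq_nonneg ‖y b l i‖
    linarith
  · by_contra hc
    push Not at hc
    refine absurd hi (not_lt.2 (Finset.sum_nonneg fun b _ => Finset.sum_nonneg fun l _ => ?_))
    have h1 : y b l i = 0 := by
      by_contra h2
      exact h2 (hc (y b) l (hom_of_ys (hY b) fun h3 => h2 (by rw [h3]; rfl)))
    rw [h1, norm_zero]
    have := sq_nonneg ‖y b i l‖
    linarith

/-- **Row R1.** -/
theorem lemL : R1Statement := by
  intro I _ _ S κ a Z
  exact ⟨fun i => ⟨0, by simp, by simp, by simp⟩, fun i j l A hA hij h => conn_step Z hA hij h,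
    fun n w b hc hw => prod_eq Z w b hc hw⟩

end Pool.Agent.Lib.MP_361a6f_ag.FL.E.BR.LemL
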