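import Pool.Agent.Lib.MP_361a6f_ag.FL.E.BR.Defs
import Pool.Agent.Lib.MP_361a6f_ag.FL.E.E1L
import Pool.Agent.Lib.MP_361a6f_ag.FL.E.G1

/-!
# Theorem BR, row R6a: a matrix that commutes with the block scalars and kills the members of the
system kills the minimal tuple
-/

set_option autoImplicit false
set_option linter.unusedSectionVars false

open Filter Topology MeasureTheory

namespace Pool.Agent.Lib.MP_361a6f_ag.FL.E.BR

namespace R6a

variable {I : Type} [Fintype I] [DecidableEq I]

theorem aT_zero (N : Matrix I I ℂ) {L : ℕ} : aT N (0 : Ten I L) = 0 := by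
  have h := alg1.aT_smul N 0 (0 : Ten I L)
  rwa [zero_smul, zero_smul] at h

theorem gT_zero (g : Matrix I I ℂ) {L : ℕ} : gT g (0 : Ten I L) = 0 := by
  have h := alg1.gT_smul g 0 (0 : Ten I L)
  rwa [zero_smul, zero_smul] at h

/-- the action of a matrix as a derivation is continuous -/
theorem aT_cont (N : Matrix I I ℂ) (L : ℕ) : Continuous fun u : Ten I L => aT N u := by
  let f : Ten I L →ₗ[ℂ] Ten I L :=
    { toFun := fun u => aT N u
      map_add' := fun u v => alg1.aT_add N u v
      map_smul' := fun c u => alg1.aT_smul N c u }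
  exact f.continuous_of_finiteDimensional

/-- a matrix that respects the blocks commutes with the block scalars -/
theorem blk_comm {l z : I → ℂ} {N : Matrix I I ℂ} (hN : ∀ i j, N i j ≠ 0 → l i = l j)
    (hz : ∀ i j, l i = l j → z i = z j) :
    Matrix.diagonal z * N = N * Matrix.diagonal z := by
  ext i j
  rw [Matrix.diagonal_mul, Matrix.mul_diagonal]
  by_cases h : N i j = 0
  · rw [h, mul_zero, zero_mul]
  · rw [hz i j (hN i j h), mul_comm]

/-- a commuting matrix kills the image of a tensor it kills -/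
theorem kill {g N : Matrix I I ℂ} (hg : g * g⁻¹ = 1) (hc : g * N = N * g) {L : ℕ} {u : Ten I L}
    (hu : aT N u = 0) : aT N (gT g u) = 0 := by
  have h1 := alg1.gT_aT g N u hg
  have h2 : g * N * g⁻¹ = N := by rw [hc, Matrix.mul_assoc, hg, Matrix.mul_one]
  rw [h2, hu, gT_zero] at h1
  exact h1.symm

end R6a

open R6a in
/-- **Row R6a.** -/
theorem r6a : R6aStatement := by
  intro I Λ _ _ _ D At Bt l Γ β _ lb b P m
  obtain ⟨ι, hι, len, t, s, x, k, hlvl, hkl, g, hg, hlim⟩ := E1L.e1l (D := D) (At := At) (Bt := Bt)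
    (l := l) (b := b) P.sys P.norm P.tau P.fix P.rsys P.sub P.base P.bmem
    (fun x hx hxb i j => by
      obtain ⟨z, hz, rfl⟩ := P.comm x hx hxb
      refine ⟨fun hij => Matrix.diagonal_apply_ne _ hij, fun hij => ?_⟩
      rw [Matrix.diagonal_apply_eq, Matrix.diagonal_apply_eq, hz i j hij])
    P.nd m
  refine ⟨ι, hι, len, t, s, x, k, ⟨hlvl, hkl, fun i hi => ?_⟩, ⟨g, hg, hlim⟩, fun N hN hk => ?_⟩
  · have h1 : Tendsto (fun j => gT (g j) (t i)) atTop (𝓝 (s i)) := (tendsto_pi_nhds.mp hlim) i
    have h2 : (fun j => gT (g j) (t i)) = fun _ => t i := by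
      funext j
      obtain ⟨z, hz, hz'⟩ := P.comm (g j) (hg j).1 (hg j).2
      rw [hz']
      exact G1.two_fix P.tau hz (by rw [← hz']; exact (hg j).1) hi (P.fix _ _ (hlvl.mem i))
    rw [h2] at h1
    exact tendsto_nhds_unique h1 tendsto_const_nhds
  · funext i
    change aT N (s i) = 0
    have h1 : Tendsto (fun j => gT (g j) (t i)) atTop (𝓝 (s i)) := (tendsto_pi_nhds.mp hlim) i
    have h2 : Tendsto (fun j => aT N (gT (g j) (t i))) atTop (𝓝 (aT N (s i))) :=
      ((aT_cont N _).tendsto _).comp h1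
    have h3 : (fun j => aT N (gT (g j) (t i))) = fun _ => 0 := by
      funext j
      obtain ⟨z, hz, hz'⟩ := P.comm (g j) (hg j).1 (hg j).2
      refine kill (alg1.G_inv D _ (hg j).1).2.1 ?_ (hk _ _ (hlvl.mem i))
      rw [hz']
      exact blk_comm hN hz
    rw [h3] at h2
    exact tendsto_nhds_unique h2 tendsto_const_nhds

end Pool.Agent.Lib.MP_361a6f_ag.FL.E.BR
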