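import Pool.Agent.Lib.MP_361a6f_ag.FL.E.BR.DefsP

/-!
# Theorem BR+: letters in different classes share a weight, at the level of `zen`

The rows R1 and R1m give the statements of `FL/E/Share.lean` for the torus `zen`.
-/

set_option autoImplicit false
set_option linter.unusedSectionVars false

open Matrix

namespace Pool.Agent.Lib.MP_361a6f_ag.FL.E.BR.ShZ

open LemR (Tri)

variable {I : Type} [Fintype I] [DecidableEq I]

variable {S : Submodule ℂ (Matrix I I ℂ)} {κ a : I → ℂ}

/-- the diagonal elements of `zen` -/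
abbrev Zt (S : Submodule ℂ (Matrix I I ℂ)) (a T : I → ℂ) : Prop :=
  diagonal T ∈ zen S (diagonal a)

/-- types of total weight zero -/
theorem prod_one (r1 : R1Statement) (hS : ZSit S κ a) (s : Multiset (Tri I))
    (hs : ∀ p ∈ s, HomZ S κ a p.1 p.2.1 p.2.2)
    (h : ∀ T, Zt S a T → (s.map fun p => p.2.1 T).sum = 0) :
    (s.map fun p => p.2.2).prod = 1 := by
  obtain ⟨-, -, hprod⟩ := r1 S κ a hS
  induction s using Quotient.inductionOn with
  | h l =>
  have hs' : ∀ p ∈ l, HomZ S κ a p.1 p.2.1 p.2.2 := hs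
  have hne : ∀ i : Fin l.length, ∃ e : I × I, (l.get i).1 e.1 e.2 ≠ 0 := by
    intro i
    by_contra hc
    push Not at hc
    exact (hs' _ (List.get_mem l i)).ne (by ext x y; simpa using hc (x, y))
  choose e he using hne
  have hH : ∀ i : Fin l.length, HomZ S κ a (l.get i).1 (l.get i).2.1 (l.get i).2.2 := fun i =>
    hs' _ (List.get_mem l i)
  have h1 := hprod l.length (fun i => (e i).1) (fun i => (e i).2) (fun i =>
    ⟨{l.get i}, by
      intro p hp
      rw [Multiset.mem_singleton] at hp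
      rw [hp]
      exact hH i, by
      intro T hT
      rw [Multiset.map_singleton, Multiset.sum_singleton, ← (hH i).wt _ _ (he i) T hT]
      ring, by
      rw [Multiset.map_singleton, Multiset.prod_singleton]
      exact (hH i).kk _ _ (he i)⟩) (fun T hT => by
      have h2 := h T hT
      have h3 : ∑ i : Fin l.length, (l.get i).2.1 T = 0 := by
        have h4 : ∑ i : Fin l.length, (l.get i).2.1 T = (l.map fun p => p.2.1 T).sum :=
          Fin.sum_univ_fun_getElem l fun p => p.2.1 T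
        rw [h4]
        exact h2
      have h5 : ∑ i : Fin l.length, (T (e i).1 - T (e i).2) = 0 := by
        rw [← h3]
        exact Finset.sum_congr rfl fun i _ => (hH i).wt _ _ (he i) T hT
      rw [Finset.sum_sub_distrib] at h5
      exact sub_eq_zero.1 h5)
  have h2 : ∏ i : Fin l.length, κ (e i).1 =
      (∏ i : Fin l.length, (l.get i).2.2) * ∏ i : Fin l.length, κ (e i).2 := by
    rw [← Finset.prod_mul_distrib]
    exact Finset.prod_congr rfl fun i _ => (hH i).kk _ _ (he i)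
  have h3 : ∏ i : Fin l.length, (l.get i).2.2 = (l.map fun p => p.2.2).prod :=
    Fin.prod_univ_fun_getElem l fun p => p.2.2
  have h4 : (∏ i : Fin l.length, κ (e i).2) ≠ 0 :=
    Finset.prod_ne_zero_iff.2 fun i _ => hS.ne _
  rw [h1] at h2
  have h5 : (l.map fun p => p.2.2).prod = 1 := by
    rw [← h3]
    exact (mul_right_cancel₀ h4 ((one_mul _).trans h2)).symm
  exact h5

/-- the elements of the lattice generated by the types, with the value of `κ` -/
def QZ (S : Submodule ℂ (Matrix I I ℂ)) (κ a : I → ℂ) (β : (I → ℂ) → ℂ) (z : ℂˣ) : Prop :=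
  ∃ s : Multiset (Tri I), (∀ p ∈ s, HomZ S κ a p.1 p.2.1 p.2.2) ∧
    (∀ T, Zt S a T → β T = (s.map fun p => p.2.1 T).sum) ∧
    (z : ℂ) = (s.map fun p => p.2.2).prod

theorem QZ.zero {β : (I → ℂ) → ℂ} (h : ∀ T, Zt S a T → β T = 0) : QZ S κ a β 1 :=
  ⟨0, by simp, fun T hT => by simpa using h T hT, by simp⟩

theorem QZ.congr {β β' : (I → ℂ) → ℂ} {z z' : ℂˣ} (h : QZ S κ a β z)
    (h1 : ∀ T, Zt S a T → β' T = β T) (h2 : z' = z) : QZ S κ a β' z' := by
  subst h2
  obtain ⟨s, hs1, hs2, hs3⟩ := h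
  exact ⟨s, hs1, fun T hT => (h1 T hT).trans (hs2 T hT), hs3⟩

theorem QZ.add {β β' : (I → ℂ) → ℂ} {z z' : ℂˣ} (h : QZ S κ a β z) (h' : QZ S κ a β' z') :
    QZ S κ a (fun T => β T + β' T) (z * z') := by
  obtain ⟨s, hs1, hs2, hs3⟩ := h
  obtain ⟨s', hs1', hs2', hs3'⟩ := h'
  refine ⟨s + s', ?_, ?_, ?_⟩
  · intro p hp
    rcases Multiset.mem_add.1 hp with hp | hp
    · exact hs1 p hp
    · exact hs1' p hp
  · intro T hT
    rw [Multiset.map_add, Multiset.sum_add, ← hs2 T hT, ← hs2' T hT]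
  · rw [Multiset.map_add, Multiset.prod_add, ← hs3, ← hs3', Units.val_mul]

theorem HomZ.star (hS : LieStar S) {x : Matrix I I ℂ} {α : (I → ℂ) → ℂ} {c : ℂ}
    (hc : c ≠ 0) (hx : HomZ S κ a x α c) : HomZ S κ a xᴴ (fun T => - α T) c⁻¹ := by
  have key : ∀ i j, xᴴ i j ≠ 0 → x j i ≠ 0 := by
    intro i j hij h0
    apply hij
    rw [Matrix.conjTranspose_apply, h0, star_zero]
  refine ⟨hS.star _ hx.mem, ?_, ?_, ?_⟩
  · intro h0
    apply hx.ne
    rw [← Matrix.conjTranspose_conjTranspose x, h0, Matrix.conjTranspose_zero]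
  · intro i j hij T hT
    have h1 := hx.wt j i (key i j hij) T hT
    linear_combination -h1
  · intro i j hij
    rw [hx.kk j i (key i j hij), ← mul_assoc, inv_mul_cancel₀ hc, one_mul]

theorem HomZ.c_ne (hS : ZSit S κ a) {x : Matrix I I ℂ} {α : (I → ℂ) → ℂ} {c : ℂ}
    (hx : HomZ S κ a x α c) : c ≠ 0 := by
  obtain ⟨i, j, hij⟩ : ∃ i j, x i j ≠ 0 := by
    by_contra hc
    push Not at hc
    exact hx.ne (by ext i j; simpa using hc i j)
  intro h0
  have h1 := hx.kk i j hij
  rw [h0, zero_mul] at h1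
  exact hS.ne i h1

theorem QZ.neg (hS : ZSit S κ a) {β : (I → ℂ) → ℂ} {z : ℂˣ} (h : QZ S κ a β z) :
    QZ S κ a (fun T => - β T) z⁻¹ := by
  obtain ⟨s, hs1, hs2, hs3⟩ := h
  refine ⟨s.map fun p : Tri I => (p.1ᴴ, (fun T => - p.2.1 T), p.2.2⁻¹), ?_, ?_, ?_⟩
  · intro q hq
    obtain ⟨p, hp, rfl⟩ := Multiset.mem_map.1 hq
    exact HomZ.star hS.toLieStar (HomZ.c_ne hS (hs1 p hp)) (hs1 p hp)
  · intro T hT
    show - β T = _
    rw [Multiset.map_map, hs2 T hT, ← Multiset.sum_map_neg]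
    rfl
  · rw [Multiset.map_map, Units.val_inv_eq_inv_val, hs3]
    have h1 := Multiset.prod_map_inv (m := s) (f := fun p : Tri I => p.2.2)
    rw [← h1]
    rfl

theorem QZ.uniq (r1 : R1Statement) (hS : ZSit S κ a) {β : (I → ℂ) → ℂ} {z : ℂˣ}
    (h : QZ S κ a β z) (h0 : ∀ T, Zt S a T → β T = 0) : z = 1 := by
  obtain ⟨s, hs1, hs2, hs3⟩ := h
  apply Units.ext
  rw [hs3, Units.val_one]
  exact prod_one r1 hS s hs1 fun T hT => (hs2 T hT).symm.trans (h0 T hT)

/-- a connection gives an element of the lattice -/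
theorem QZ.of_conn (hS : ZSit S κ a) {i j : I} (h : ConnZ S κ a i j) :
    ∃ z : ℂˣ, QZ S κ a (fun T => T i - T j) z := by
  obtain ⟨s, h1, h2, h3⟩ := h
  have h4 : (s.map fun p => p.2.2).prod ≠ 0 := by
    intro h0
    rw [h0, zero_mul] at h3
    exact hS.ne i h3
  refine ⟨Units.mk0 _ h4, s, h1, fun T hT => ?_, rfl⟩
  show T i - T j = _
  rw [h2 T hT]
  ring

/-- the zero element belongs to `zen` -/
theorem zt_zero : Zt S a 0 := by
  have h : (diagonal (0 : I → ℂ) : Matrix I I ℂ) = 0 := by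
    rw [← Matrix.diagonal_zero]
    rfl
  show diagonal (0 : I → ℂ) ∈ zen S (diagonal a)
  rw [h]
  exact ⟨S.zero_mem, by rw [Matrix.zero_mul, Matrix.mul_zero], fun A _ _ => by
    rw [Matrix.zero_mul, Matrix.mul_zero]⟩

theorem zt_add {T T' : I → ℂ} (h : Zt S a T) (h' : Zt S a T') : Zt S a (T + T') := by
  have e : (diagonal (T + T') : Matrix I I ℂ) = diagonal T + diagonal T' := by
    rw [Matrix.diagonal_add]
    rfl
  show diagonal (T + T') ∈ zen S (diagonal a)
  rw [e]
  refine ⟨S.add_mem h.1 h'.1, ?_, fun A hA hAA => ?_⟩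
  · rw [add_mul, mul_add, h.2.1, h'.2.1]
  · rw [add_mul, mul_add, h.2.2 A hA hAA, h'.2.2 A hA hAA]

theorem zt_smul {T : I → ℂ} (c : ℂ) (h : Zt S a T) : Zt S a (c • T) := by
  have e : (diagonal (c • T) : Matrix I I ℂ) = c • diagonal T := by
    rw [Matrix.diagonal_smul]
  show diagonal (c • T) ∈ zen S (diagonal a)
  rw [e]
  refine ⟨S.smul_mem c h.1, ?_, fun A hA hAA => ?_⟩
  · rw [smul_mul_assoc, mul_smul_comm, h.2.1]
  · rw [smul_mul_assoc, mul_smul_comm, h.2.2 A hA hAA]

/-- the data of row R1m -/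
def IsDual (S : Submodule ℂ (Matrix I I ℂ)) (κ a : I → ℂ) (p : Tri I) (m : I → ℝ) : Prop :=
  Zt S a (fun i => (m i : ℂ)) ∧ (∀ T, Zt S a T → ∑ i, T i * (m i : ℂ) = p.2.1 T) ∧
    (∀ i, 0 < m i → ∃ y l, HomZ S κ a y p.2.1 p.2.2 ∧ y i l ≠ 0) ∧
    (∀ i, m i < 0 → ∃ y l, HomZ S κ a y p.2.1 p.2.2 ∧ y l i ≠ 0)

theorem exists_dual (r1m : R1mStatement) (hS : ZSit S κ a) {p : Tri I}
    (hp : HomZ S κ a p.1 p.2.1 p.2.2) : ∃ m, IsDual S κ a p m := by
  obtain ⟨m, d, hd, h1, h2, h3, h4⟩ := r1m S κ a hS p.1 p.2.1 p.2.2 hp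
  refine ⟨fun i => d⁻¹ * m i, ?_, ?_, fun i hi => h3 i ?_, fun i hi => h4 i ?_⟩
  · have h5 := zt_smul (S := S) (a := a) ((d : ℂ)⁻¹) h1
    refine (congrArg (Zt S a) ?_).mp h5
    funext i
    rw [Pi.smul_apply, smul_eq_mul]
    push_cast
    rfl
  · intro T hT
    have h5 : ∑ i, T i * ((d⁻¹ * m i : ℝ) : ℂ) = (d : ℂ)⁻¹ * ∑ i, T i * (m i : ℂ) := by
      rw [Finset.mul_sum]
      refine Finset.sum_congr rfl fun i _ => ?_
      push_cast
      ring
    have h6 : (d : ℂ) ≠ 0 := Complex.ofReal_ne_zero.2 hd.ne'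
    rw [h5, h2 T hT, ← mul_assoc, inv_mul_cancel₀ h6, one_mul]
  · exact (pos_iff_pos_of_mul_pos hi).1 (inv_pos.2 hd)
  · have hi' : d⁻¹ * m i < 0 := hi
    by_contra hc
    push Not at hc
    have := mul_nonneg (inv_pos.2 hd).le hc
    linarith

/-- the real diagonal matrix dual to a sum of types -/
theorem exists_dual_sum (r1m : R1mStatement) (hS : ZSit S κ a) (s : Multiset (Tri I))
    (hs : ∀ p ∈ s, HomZ S κ a p.1 p.2.1 p.2.2) :
    ∃ m : I → ℝ, Zt S a (fun i => (m i : ℂ)) ∧
      (∀ T, Zt S a T → ∑ i, T i * (m i : ℂ) = (s.map fun p => p.2.1 T).sum) ∧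
      ∀ i j, 0 < m i - m j → ∃ p ∈ s, ∃ m' : I → ℝ, IsDual S κ a p m' ∧ 0 < m' i - m' j := by
  induction s using Multiset.induction_on with
  | empty =>
    refine ⟨0, ?_, fun T _ => by simp, fun i j h => by simp at h⟩
    refine (congrArg (Zt S a) ?_).mp zt_zero
    funext i
    simp
  | cons p s ih =>
    obtain ⟨m, h1, h2, h3⟩ := ih fun q hq => hs q (Multiset.mem_cons_of_mem hq)
    obtain ⟨m', h4⟩ := exists_dual r1m hS (hs p (Multiset.mem_cons_self p s))
    refine ⟨fun i => m' i + m i, ?_, fun T hT => ?_, fun i j h => ?_⟩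
    · refine (congrArg (Zt S a) ?_).mp (zt_add h4.1 h1)
      funext i
      rw [Pi.add_apply]
      push_cast
      rfl
    · rw [Multiset.map_cons, Multiset.sum_cons, ← h2 T hT, ← h4.2.1 T hT,
        ← Finset.sum_add_distrib]
      refine Finset.sum_congr rfl fun i _ => ?_
      push_cast
      ring
    · by_cases h5 : 0 < m i - m j
      · obtain ⟨q, hq, m'', h6, h7⟩ := h3 i j h5
        exact ⟨q, Multiset.mem_cons_of_mem hq, m'', h6, h7⟩
      · exact ⟨p, Multiset.mem_cons_self p s, m', h4, by linarith⟩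

/-- SHARE at the level of `zen` -/
theorem share (r1 : R1Statement) (r1m : R1mStatement) (hS : ZSit S κ a)
    (hEQ : ∀ i j, (∀ T, Zt S a T → T i = T j) → κ i = κ j) :
    ∀ (n : ℕ) (s : Multiset (Tri I)), Multiset.card s = n →
      (∀ p ∈ s, HomZ S κ a p.1 p.2.1 p.2.2) → ∀ i j,
      (∀ T, Zt S a T → T i - T j = (s.map fun p => p.2.1 T).sum) →
      κ i = (s.map fun p => p.2.2).prod * κ j := by
  intro n
  induction n with
  | zero =>
    intro s hs _ i j hT
    rw [Multiset.card_eq_zero.1 hs] at hT ⊢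
    rw [Multiset.map_zero, Multiset.prod_zero, one_mul]
    refine hEQ i j fun T hT' => sub_eq_zero.1 ?_
    rw [hT T hT', Multiset.map_zero, Multiset.sum_zero]
  | succ n ih =>
    intro s hs hp i j hT
    by_cases h0 : ∀ T, Zt S a T → T i = T j
    · rw [prod_one r1 hS s hp fun T hT' => by rw [← hT T hT', h0 T hT', sub_self], one_mul]
      exact hEQ i j h0
    · push Not at h0
      obtain ⟨T0, hT0, hne⟩ := h0
      obtain ⟨m, hm1, hm2, hm3⟩ := exists_dual_sum r1m hS s hp
      have h1 : ∑ l, (m l : ℂ) * (m l : ℂ) = (m i : ℂ) - (m j : ℂ) := by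
        rw [hT _ hm1]
        exact hm2 _ hm1
      have h3 : ∑ l, m l * m l = m i - m j := by
        have h4 := congrArg Complex.re h1
        have h5 : ∑ l, (m l : ℂ) * (m l : ℂ) = ((∑ l, m l * m l : ℝ) : ℂ) := by
          push_cast
          rfl
        rw [h5, Complex.ofReal_re, Complex.sub_re, Complex.ofReal_re, Complex.ofReal_re] at h4
        exact h4
      have h4 : 0 < ∑ l, m l * m l := by
        obtain ⟨l, hl⟩ : ∃ l, m l ≠ 0 := by
          by_contra hc
          push Not at hc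
          apply hne
          apply sub_eq_zero.1
          rw [hT T0 hT0, ← hm2 T0 hT0]
          refine Finset.sum_eq_zero fun l _ => ?_
          rw [hc l, Complex.ofReal_zero, mul_zero]
        have h8 : 0 < m l * m l := mul_self_pos.2 hl
        have h9 : m l * m l ≤ ∑ l, m l * m l :=
          Finset.single_le_sum (f := fun l => m l * m l)
            (fun _ _ => mul_self_nonneg _) (Finset.mem_univ l)
        linarith
      rw [h3] at h4
      obtain ⟨p, hps, m', hm', h5⟩ := hm3 i j h4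
      obtain ⟨s1, rfl⟩ := Multiset.exists_cons_of_mem hps
      have hs1 : Multiset.card s1 = n := by
        rw [Multiset.card_cons] at hs
        omega
      have hp1 : ∀ q ∈ s1, HomZ S κ a q.1 q.2.1 q.2.2 := fun q hq =>
        hp q (Multiset.mem_cons_of_mem hq)
      rw [Multiset.map_cons, Multiset.prod_cons]
      by_cases h7 : 0 < m' i
      · obtain ⟨y, l, hy, hl⟩ := hm'.2.2.1 i h7
        have h8 := ih s1 hs1 hp1 l j (by
          intro T hT'
          have h9 := hT T hT'
          rw [Multiset.map_cons, Multiset.sum_cons] at h9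
          have h10 := hy.wt i l hl T hT'
          linear_combination h9 - h10)
        rw [hy.kk i l hl, h8]
        ring
      · obtain ⟨y, l, hy, hl⟩ := hm'.2.2.2 j (by linarith)
        have h8 := ih s1 hs1 hp1 i l (by
          intro T hT'
          have h9 := hT T hT'
          rw [Multiset.map_cons, Multiset.sum_cons] at h9
          have h10 := hy.wt l j hl T hT'
          linear_combination h9 - h10)
        rw [h8, hy.kk l j hl]
        ring

theorem QZ.share (r1 : R1Statement) (r1m : R1mStatement) (hS : ZSit S κ a)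
    (hEQ : ∀ i j, (∀ T, Zt S a T → T i = T j) → κ i = κ j)
    {i j : I} {z : ℂˣ} (h : QZ S κ a (fun T => T i - T j) z) : κ i = z * κ j := by
  obtain ⟨s, hs1, hs2, hs3⟩ := h
  rw [hs3]
  exact ShZ.share r1 r1m hS hEQ _ s rfl hs1 i j hs2

/-- a word of even length whose letters lie in at most three classes -/
theorem words3 (r1 : R1Statement) (r1m : R1mStatement) (hS : ZSit S κ a)
    (hEQ : ∀ i j, (∀ T, Zt S a T → T i = T j) → κ i = κ j)
    {B : Type} [Fintype B] [DecidableEq B] (hB : Fintype.card B ≤ 3) (q : I → B)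
    (hneg : ∀ i, ∃ j, (∀ T, Zt S a T → T i + T j = 0) ∧ κ i * κ j = 1)
    (hq : ∀ i j, q i = q j → ∃ z : ℂˣ, QZ S κ a (fun T => T i + T j) z)
    {ι : Type} [DecidableEq ι] (w : ι → I) :
    ∀ (n : ℕ) (F : Finset ι), F.card = 2 * n → ∀ z : ℂˣ,
      QZ S κ a (fun T => ∑ j ∈ F, T (w j)) z → (z : ℂ) = ∏ j ∈ F, κ (w j) := by
  have hadd : ∀ i j (z : ℂˣ), QZ S κ a (fun T => T i + T j) z → (z : ℂ) = κ i * κ j := by
    intro i j z hz
    obtain ⟨j', hj1, hj2⟩ := hneg j
    have h1 : QZ S κ a (fun T => T i - T j') z := hz.congr (fun T hT => by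
      linear_combination -(hj1 T hT)) rfl
    have h2 := QZ.share r1 r1m hS hEQ h1
    have h3 : κ j ≠ 0 := left_ne_zero_of_mul_eq_one hj2
    rw [h2]
    linear_combination (-(z : ℂ)) * hj2
  intro n
  induction n with
  | zero =>
    intro F hF z hz
    have h1 : F = ∅ := Finset.card_eq_zero.1 (by omega)
    subst h1
    rw [Finset.prod_empty]
    have h2 := hz.uniq r1 hS fun T _ => by simp
    rw [h2, Units.val_one]
  | succ n ih =>
    intro F hF z hz
    -- two letters `a`, `b` with `T a + T b` in the lattice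
    have key : ∀ a' ∈ F, ∀ b ∈ F, a' ≠ b →
        (∃ z' : ℂˣ, QZ S κ a (fun T => T (w a') + T (w b)) z') →
          (z : ℂ) = ∏ j ∈ F, κ (w j) := by
      rintro a' ha b hb hab ⟨z', hz'⟩
      have hb' : b ∈ F.erase a' := Finset.mem_erase.2 ⟨Ne.symm hab, hb⟩
      have hc : ((F.erase a').erase b).card = 2 * n := by
        rw [Finset.card_erase_of_mem hb', Finset.card_erase_of_mem ha, hF]
        omega
      have h1 : QZ S κ a (fun T => ∑ j ∈ (F.erase a').erase b, T (w j)) (z * z'⁻¹) := by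
        refine (hz.add (hz'.neg hS)).congr (fun T _ => ?_) rfl
        have e1 := Finset.add_sum_erase F (fun j => T (w j)) ha
        have e2 := Finset.add_sum_erase (F.erase a') (fun j => T (w j)) hb'
        rw [← e1, ← e2]
        ring
      have h2 := ih _ hc _ h1
      have h3 := hadd _ _ _ hz'
      have e1 := Finset.mul_prod_erase F (fun j => κ (w j)) ha
      have e2 := Finset.mul_prod_erase (F.erase a') (fun j => κ (w j)) hb'
      rw [← e1, ← e2, ← h2, Units.val_mul, ← mul_assoc, ← h3]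
      rw [mul_comm (z : ℂ), ← mul_assoc, Units.mul_inv, one_mul]
    rcases n with _ | n
    · -- two letters
      obtain ⟨a', b, hab, rfl⟩ := Finset.card_eq_two.1 hF
      refine key a' (by simp) b (by simp) hab ⟨z, hz.congr (fun T _ => ?_) rfl⟩
      rw [Finset.sum_pair hab]
    · obtain ⟨a', ha, b, hb, hab, hqab⟩ := Finset.exists_ne_map_eq_of_card_lt_of_maps_to
        (s := F) (t := (Finset.univ : Finset B)) (by rw [Finset.card_univ]; omega)
        (f := fun j => q (w j)) (fun _ _ => Finset.mem_univ _)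
      exact key a' ha b hb hab (hq _ _ hqab)

end Pool.Agent.Lib.MP_361a6f_ag.FL.E.BR.ShZ
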