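import Pool.Agent.Lib.MP_361a6f_ag.FL.E.BR.Defs

/-!
# Theorem BR, row R3: the top level lemma
-/

open Matrix

set_option autoImplicit false
set_option linter.unusedSectionVars false

namespace Pool.Agent.Lib.MP_361a6f_ag.FL.E.BR

namespace Top

variable {I : Type} [Fintype I] [DecidableEq I] {S : Submodule ℂ (Matrix I I ℂ)}
  {A0 P Q : Matrix I I ℂ}

open ComplexOrder in
theorem tr_zero {X : Matrix I I ℂ} (h : (X * X.conjTranspose).trace = 0) : X = 0 := by
  have h1 : (X.conjTranspose.conjTranspose * X.conjTranspose).trace = 0 := by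
    rwa [conjTranspose_conjTranspose]
  have h2 := Matrix.trace_conjTranspose_mul_self_eq_zero_iff.1 h1
  rw [← conjTranspose_conjTranspose X, h2, conjTranspose_zero]

/-- the commutator with `A0` on `S` -/
noncomputable def adL (lie : ∀ A ∈ S, ∀ B ∈ S, A * B - B * A ∈ S) (h0 : A0 ∈ S) : S →ₗ[ℂ] S where
  toFun A := ⟨A0 * A.1 - A.1 * A0, lie A0 h0 A.1 A.2⟩
  map_add' A B := by
    apply Subtype.ext
    change A0 * (A.1 + B.1) - (A.1 + B.1) * A0 = (A0 * A.1 - A.1 * A0) + (A0 * B.1 - B.1 * A0)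
    noncomm_ring
  map_smul' c A := by
    apply Subtype.ext
    change A0 * (c • A.1) - (c • A.1) * A0 = c • (A0 * A.1 - A.1 * A0)
    rw [Matrix.mul_smul, Matrix.smul_mul, smul_sub]

/-- every element of `S` is the sum of an element that commutes with `A0` and a commutator -/
theorem split (lie : ∀ A ∈ S, ∀ B ∈ S, A * B - B * A ∈ S) (h0 : A0 ∈ S)
    (hh : A0.conjTranspose = A0) {A : Matrix I I ℂ} (hA : A ∈ S) :
    ∃ C ∈ S, C * A0 = A0 * C ∧ ∃ X : Matrix I I ℂ, A = C + (A0 * X - X * A0) := by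
  have hd : Disjoint (LinearMap.ker (adL lie h0)) (LinearMap.range (adL lie h0)) := by
    rw [Submodule.disjoint_def]
    rintro ⟨X, hX⟩ hk ⟨⟨B, hB⟩, hB'⟩
    have h1 : A0 * B - B * A0 = X := congrArg Subtype.val hB'
    have h2 : A0 * X - X * A0 = 0 := congrArg Subtype.val (LinearMap.mem_ker.1 hk)
    have h3 : A0 * X.conjTranspose = X.conjTranspose * A0 := by
      have h4 := congrArg Matrix.conjTranspose h2
      rw [conjTranspose_sub, conjTranspose_mul, conjTranspose_mul, hh, conjTranspose_zero,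
        sub_eq_zero] at h4
      exact h4.symm
    apply Subtype.ext
    change X = 0
    apply tr_zero
    calc (X * X.conjTranspose).trace = ((A0 * B - B * A0) * X.conjTranspose).trace := by rw [h1]
      _ = (A0 * (B * X.conjTranspose)).trace - (B * (A0 * X.conjTranspose)).trace := by
          rw [Matrix.sub_mul, trace_sub, Matrix.mul_assoc, Matrix.mul_assoc]
      _ = 0 := by
          rw [h3, trace_mul_comm A0, Matrix.mul_assoc, sub_self]
  have htop := Submodule.eq_top_of_disjoint _ _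
    (by rw [add_comm]; exact (LinearMap.finrank_range_add_finrank_ker (adL lie h0)).ge) hd
  have hm : (⟨A, hA⟩ : S) ∈ LinearMap.ker (adL lie h0) ⊔ LinearMap.range (adL lie h0) := by
    rw [htop]; trivial
  obtain ⟨⟨C, hC⟩, hk, _, ⟨⟨X, hX⟩, rfl⟩, hs⟩ := Submodule.mem_sup.1 hm
  refine ⟨C, hC, ?_, X, ?_⟩
  · have h2 : A0 * C - C * A0 = 0 := congrArg Subtype.val (LinearMap.mem_ker.1 hk)
    exact (sub_eq_zero.1 h2).symm
  · exact (congrArg Subtype.val hs).symm

/-- the commutator with `H` -/
def dd (H A : Matrix I I ℂ) : Matrix I I ℂ := H * A - A * H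

/-- the part of positive degree -/
noncomputable def pos (H A : Matrix I I ℂ) : Matrix I I ℂ :=
  (7 / 12 : ℂ) • dd H A + (5 / 8 : ℂ) • dd H (dd H A) - (1 / 12 : ℂ) • dd H (dd H (dd H A)) -
    (1 / 8 : ℂ) • dd H (dd H (dd H (dd H A)))

theorem pos_mem (lie : ∀ A ∈ S, ∀ B ∈ S, A * B - B * A ∈ S) {H : Matrix I I ℂ} (hH : H ∈ S)
    {A : Matrix I I ℂ} (hA : A ∈ S) : pos H A ∈ S := by
  have h1 : dd H A ∈ S := lie H hH A hA
  have h2 : dd H (dd H A) ∈ S := lie H hH _ h1
  have h3 : dd H (dd H (dd H A)) ∈ S := lie H hH _ h2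
  have h4 : dd H (dd H (dd H (dd H A))) ∈ S := lie H hH _ h3
  exact sub_mem (sub_mem (add_mem (S.smul_mem _ h1) (S.smul_mem _ h2)) (S.smul_mem _ h3))
    (S.smul_mem _ h4)

/-- commutators on the right of a fixed vector -/
theorem step_right {H A P : Matrix I I ℂ} (hP : H * P = P) :
    dd H A * P = (H - 1) * (A * P) := by
  unfold dd
  rw [Matrix.sub_mul, Matrix.mul_assoc A, hP, Matrix.sub_mul, Matrix.one_mul, Matrix.mul_assoc]

theorem step_left {H A P : Matrix I I ℂ} (hP : P * H = P) :
    P * dd H A = (P * A) * (1 - H) := by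
  unfold dd
  rw [Matrix.mul_sub, ← Matrix.mul_assoc, hP, Matrix.mul_sub, Matrix.mul_one, Matrix.mul_assoc]

theorem comb_mul (a b c d : ℂ) (X1 X2 X3 X4 Y : Matrix I I ℂ) :
    (a • X1 + b • X2 - c • X3 - d • X4) * Y =
      a • (X1 * Y) + b • (X2 * Y) - c • (X3 * Y) - d • (X4 * Y) := by
  rw [Matrix.sub_mul, Matrix.sub_mul, Matrix.add_mul, Matrix.smul_mul, Matrix.smul_mul,
    Matrix.smul_mul, Matrix.smul_mul]

theorem mul_comb (a b c d : ℂ) (X1 X2 X3 X4 Y : Matrix I I ℂ) :
    Y * (a • X1 + b • X2 - c • X3 - d • X4) =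
      a • (Y * X1) + b • (Y * X2) - c • (Y * X3) - d • (Y * X4) := by
  rw [Matrix.mul_sub, Matrix.mul_sub, Matrix.mul_add, Matrix.mul_smul, Matrix.mul_smul,
    Matrix.mul_smul, Matrix.mul_smul]

theorem pos_mul {H A P : Matrix I I ℂ} (hP : H * P = P) (h3 : H * H * H = H) :
    pos H A * P = 0 := by
  have e2 : (H - 1) * (H - 1) = H * H - (2 : ℂ) • H + 1 := by
    rw [two_smul]; noncomm_ring
  have e3 : (H - 1) * ((H - 1) * (H - 1)) = (-3 : ℂ) • (H * H) + (4 : ℂ) • H - 1 := by
    rw [e2]
    have : (H - 1) * (H * H - (2 : ℂ) • H + 1) =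
        H * H * H - (3 : ℂ) • (H * H) + (3 : ℂ) • H - 1 := by
      rw [Matrix.sub_mul, Matrix.one_mul, Matrix.mul_add, Matrix.mul_sub, Matrix.mul_smul,
        Matrix.mul_one, ← Matrix.mul_assoc]
      module
    rw [this, h3]
    module
  have e4 : (H - 1) * ((H - 1) * ((H - 1) * (H - 1))) = (7 : ℂ) • (H * H) - (8 : ℂ) • H + 1 := by
    rw [e3]
    have : (H - 1) * ((-3 : ℂ) • (H * H) + (4 : ℂ) • H - 1) =
        (-3 : ℂ) • (H * H * H) + (7 : ℂ) • (H * H) - (5 : ℂ) • H + 1 := by
      rw [Matrix.sub_mul, Matrix.one_mul, Matrix.mul_sub, Matrix.mul_add, Matrix.mul_smul,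
        Matrix.mul_smul, Matrix.mul_one, ← Matrix.mul_assoc]
      module
    rw [this, h3]
    module
  have hA : pos H A * P = ((7 / 12 : ℂ) • (H - 1) + (5 / 8 : ℂ) • ((H - 1) * (H - 1)) -
      (1 / 12 : ℂ) • ((H - 1) * ((H - 1) * (H - 1))) -
      (1 / 8 : ℂ) • ((H - 1) * ((H - 1) * ((H - 1) * (H - 1))))) * (A * P) := by
    have g1 : dd H A * P = (H - 1) * (A * P) := step_right hP
    have g2 : dd H (dd H A) * P = (H - 1) * (H - 1) * (A * P) := by
      rw [step_right hP, g1, Matrix.mul_assoc]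
    have g3 : dd H (dd H (dd H A)) * P = (H - 1) * ((H - 1) * (H - 1)) * (A * P) := by
      rw [step_right hP, g2, ← Matrix.mul_assoc]
    have g4 : dd H (dd H (dd H (dd H A))) * P =
        (H - 1) * ((H - 1) * ((H - 1) * (H - 1))) * (A * P) := by
      rw [step_right hP, g3, ← Matrix.mul_assoc]
    unfold pos
    rw [comb_mul, comb_mul, g1, g2, g3, g4]
  rw [hA, e4, e3, e2]
  have : (7 / 12 : ℂ) • (H - 1) + (5 / 8 : ℂ) • (H * H - (2 : ℂ) • H + 1) -
      (1 / 12 : ℂ) • ((-3 : ℂ) • (H * H) + (4 : ℂ) • H - 1) -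
      (1 / 8 : ℂ) • ((7 : ℂ) • (H * H) - (8 : ℂ) • H + 1) = 0 := by
    module
  rw [this, Matrix.zero_mul]

theorem mul_pos {H A P : Matrix I I ℂ} (hP : P * H = P) (h3 : H * H * H = H)
    (hPH : P = (1 / 2 : ℂ) • (H * H + H)) : P * pos H A = P * A * (1 - P) := by
  have e2 : (1 - H) * (1 - H) = H * H - (2 : ℂ) • H + 1 := by
    rw [two_smul]; noncomm_ring
  have e3 : (1 - H) * (1 - H) * (1 - H) = (3 : ℂ) • (H * H) - (4 : ℂ) • H + 1 := by
    rw [e2]
    have : (H * H - (2 : ℂ) • H + 1) * (1 - H) =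
        (3 : ℂ) • (H * H) - H * H * H - (3 : ℂ) • H + 1 := by
      rw [Matrix.mul_sub, Matrix.mul_one, Matrix.add_mul, Matrix.sub_mul, Matrix.smul_mul,
        Matrix.one_mul]
      module
    rw [this, h3]
    module
  have e4 : (1 - H) * (1 - H) * (1 - H) * (1 - H) = (7 : ℂ) • (H * H) - (8 : ℂ) • H + 1 := by
    rw [e3]
    have : ((3 : ℂ) • (H * H) - (4 : ℂ) • H + 1) * (1 - H) =
        (7 : ℂ) • (H * H) - (3 : ℂ) • (H * H * H) - (5 : ℂ) • H + 1 := by
      rw [Matrix.mul_sub, Matrix.mul_one, Matrix.add_mul, Matrix.sub_mul, Matrix.smul_mul,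
        Matrix.smul_mul, Matrix.one_mul]
      module
    rw [this, h3]
    module
  have hA : P * pos H A = (P * A) * ((7 / 12 : ℂ) • (1 - H) +
      (5 / 8 : ℂ) • ((1 - H) * (1 - H)) - (1 / 12 : ℂ) • ((1 - H) * (1 - H) * (1 - H)) -
      (1 / 8 : ℂ) • ((1 - H) * (1 - H) * (1 - H) * (1 - H))) := by
    have g1 : P * dd H A = P * A * (1 - H) := step_left hP
    have g2 : P * dd H (dd H A) = P * A * ((1 - H) * (1 - H)) := by
      rw [step_left hP, g1, Matrix.mul_assoc]
    have g3 : P * dd H (dd H (dd H A)) = P * A * ((1 - H) * (1 - H) * (1 - H)) := by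
      rw [step_left hP, g2, Matrix.mul_assoc]
    have g4 : P * dd H (dd H (dd H (dd H A))) =
        P * A * ((1 - H) * (1 - H) * (1 - H) * (1 - H)) := by
      rw [step_left hP, g3, Matrix.mul_assoc]
    unfold pos
    rw [mul_comb, mul_comb, g1, g2, g3, g4]
  rw [hA, e4, e3, e2]
  congr 1
  rw [hPH]
  module

end Top

/-- Row R3. -/
theorem r3 : R3Statement := by
  intro I _ _ S hS A0 P Q h0 hh hP hQ hPP hQQ hPQ hQP hH hA0P hA0Q y hy
  obtain ⟨hyS, hy0, hyc⟩ := hy
  have hPA0 : P * A0 = 0 := by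
    have h := congrArg Matrix.conjTranspose hA0P
    rwa [Matrix.conjTranspose_mul, hP, hh, Matrix.conjTranspose_zero] at h
  have hQA0 : Q * A0 = 0 := by
    have h := congrArg Matrix.conjTranspose hA0Q
    rwa [Matrix.conjTranspose_mul, hQ, hh, Matrix.conjTranspose_zero] at h
  obtain ⟨H, hHd⟩ : ∃ H, H = P - Q := ⟨_, rfl⟩
  rw [← hHd] at hH
  have hHP : H * P = P := by rw [hHd, Matrix.sub_mul, hPP, hQP, sub_zero]
  have hPH : P * H = P := by rw [hHd, Matrix.mul_sub, hPP, hPQ, sub_zero]
  have hHH : H * H = P + Q := by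
    rw [hHd, Matrix.sub_mul, Matrix.mul_sub, Matrix.mul_sub, hPP, hPQ, hQP, hQQ]
    abel
  have h3 : H * H * H = H := by
    rw [hHH, hHd, Matrix.add_mul, Matrix.mul_sub, Matrix.mul_sub, hPP, hPQ, hQP, hQQ]
    abel
  have hPd : P = (1 / 2 : ℂ) • (H * H + H) := by
    rw [hHH, hHd]
    module
  have hyH : y * H = H * y := by
    refine hyc H hH ?_
    rw [hHd, Matrix.sub_mul, Matrix.mul_sub, hA0P, hA0Q, hPA0, hQA0]
  have hyP : y * P = P * y := by
    rw [hPd, Matrix.mul_smul, Matrix.smul_mul, Matrix.mul_add, Matrix.add_mul, hyH,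
      ← Matrix.mul_assoc, hyH, Matrix.mul_assoc, hyH, Matrix.mul_assoc]
  -- one factor
  have one : ∀ A ∈ S, P * A * P * y = y * (P * A * P) := by
    intro A hA
    obtain ⟨C, hC, hC0, X, rfl⟩ := Top.split hS.lie h0 hh hA
    have h1 : P * (C + (A0 * X - X * A0)) * P = P * C * P := by
      calc P * (C + (A0 * X - X * A0)) * P = P * C * P + (P * A0) * X * P - P * X * (A0 * P) := by
            noncomm_ring
        _ = P * C * P := by
            rw [hPA0, hA0P, Matrix.zero_mul, Matrix.zero_mul, Matrix.mul_zero, add_zero, sub_zero]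
    rw [h1]
    have h2 := hyc C hC hC0
    calc P * C * P * y = P * C * (P * y) := Matrix.mul_assoc _ _ _
      _ = P * C * (y * P) := by rw [hyP]
      _ = P * (C * y) * P := by noncomm_ring
      _ = P * (y * C) * P := by rw [h2]
      _ = (P * y) * C * P := by noncomm_ring
      _ = (y * P) * C * P := by rw [hyP]
      _ = y * (P * C * P) := by noncomm_ring
  -- the commutator with one element
  have comm : ∀ n : ℕ, (∀ l : List (Matrix I I ℂ), l.length = n → (∀ A ∈ l, A ∈ S) →
      P * l.prod * P * y = y * (P * l.prod * P)) → ∀ B ∈ S, ∀ (l2 l1 : List (Matrix I I ℂ)),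
      (∀ A ∈ l1, A ∈ S) → (∀ A ∈ l2, A ∈ S) → l1.length + l2.length = n →
      P * (l1.prod * (B * l2.prod - l2.prod * B)) * P * y =
        y * (P * (l1.prod * (B * l2.prod - l2.prod * B)) * P) := by
    intro n hn B hB l2
    induction l2 with
    | nil =>
      intro l1 _ _ _
      rw [List.prod_nil, Matrix.mul_one, Matrix.one_mul, sub_self, Matrix.mul_zero,
        Matrix.mul_zero, Matrix.zero_mul, Matrix.zero_mul, Matrix.mul_zero]
    | cons A l2 ih =>
      intro l1 h1 h2 hlen
      have hA : A ∈ S := h2 A List.mem_cons_self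
      have h2' : ∀ A ∈ l2, A ∈ S := fun X hX => h2 X (List.mem_cons_of_mem _ hX)
      rw [List.length_cons] at hlen
      have e : l1.prod * (B * (A :: l2).prod - (A :: l2).prod * B) =
          (l1 ++ (B * A - A * B) :: l2).prod +
            (l1 ++ [A]).prod * (B * l2.prod - l2.prod * B) := by
        rw [List.prod_cons, List.prod_append, List.prod_append, List.prod_cons, List.prod_singleton]
        noncomm_ring
      have f1 := hn (l1 ++ (B * A - A * B) :: l2)
        (by rw [List.length_append, List.length_cons]; omega) (by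
          intro X hX
          rcases List.mem_append.1 hX with hX | hX
          · exact h1 X hX
          · rcases List.mem_cons.1 hX with rfl | hX
            · exact hS.lie B hB A hA
            · exact h2' X hX)
      have f2 := ih (l1 ++ [A]) (by
          intro X hX
          rcases List.mem_append.1 hX with hX | hX
          · exact h1 X hX
          · rw [List.mem_singleton.1 hX]
            exact hA) h2' (by rw [List.length_append, List.length_singleton]; omega)
      rw [e, Matrix.mul_add, Matrix.add_mul, Matrix.add_mul, Matrix.mul_add, f1, f2]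
  -- induction
  have main : ∀ n : ℕ, ∀ l : List (Matrix I I ℂ), l.length = n → (∀ A ∈ l, A ∈ S) →
      P * l.prod * P * y = y * (P * l.prod * P) := by
    intro n
    induction n with
    | zero =>
      intro l hl _
      rw [List.length_eq_zero_iff.1 hl, List.prod_nil, Matrix.mul_one, hPP, hyP]
    | succ n ih =>
      intro l hl hlS
      obtain ⟨A, l', rfl⟩ : ∃ A l', l = A :: l' := by
        cases l with
        | nil => simp at hl
        | cons A l' => exact ⟨A, l', rfl⟩
      have hA : A ∈ S := hlS A List.mem_cons_self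
      have hl' : ∀ A ∈ l', A ∈ S := fun X hX => hlS X (List.mem_cons_of_mem _ hX)
      have hlen : l'.length = n := by
        rw [List.length_cons] at hl
        omega
      have hBS : Top.pos H A ∈ S := Top.pos_mem hS.lie hH hA
      have hBP : Top.pos H A * P = 0 := Top.pos_mul hHP h3
      have hPB : P * Top.pos H A = P * A * (1 - P) := Top.mul_pos hPH h3 hPd
      have e : P * (A :: l').prod * P = (P * A * P) * (P * l'.prod * P) +
          P * (([] : List (Matrix I I ℂ)).prod * (Top.pos H A * l'.prod -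
            l'.prod * Top.pos H A)) * P := by
        have h1 : P * (([] : List (Matrix I I ℂ)).prod * (Top.pos H A * l'.prod -
            l'.prod * Top.pos H A)) * P = (P * Top.pos H A) * l'.prod * P -
            P * l'.prod * (Top.pos H A * P) := by
          rw [List.prod_nil]
          noncomm_ring
        have h2 : (P * A * P) * (P * l'.prod * P) = P * A * (P * P) * l'.prod * P := by
          noncomm_ring
        rw [h1, hPB, hBP, h2, hPP, List.prod_cons]
        noncomm_ring
      have f1 := one A hA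
      have f2 := ih l' hlen hl'
      have f3 := comm n ih (Top.pos H A) hBS l' [] (by simp) hl' (by simpa using hlen)
      rw [e, Matrix.add_mul, Matrix.mul_add, f3, Matrix.mul_assoc (P * A * P), f2,
        ← Matrix.mul_assoc (P * A * P), f1, Matrix.mul_assoc]
  exact fun l hl => main l.length l rfl hl

end Pool.Agent.Lib.MP_361a6f_ag.FL.E.BR
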